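import Pool.Agent.T6.H56.EA.RD
import Pool.Agent.TH882.D3
import Pool.Agent.TH685.TI.Mom

/-! The average of the singular factor of a pair of tuples over the differences of a fairly dense
set. -/

set_option autoImplicit false

open Finset

namespace Pool.Agent.T6.H56.EA

open Pool.Agent.TH685.TI (gw one_le_gw moment_gw_le small_le)
open Pool.Agent.H197R2.PG (sum_dist_le)
open Pool.Agent.TH882.DD (prod_le_sum_pow)

/-- the part of the singular factor coming from the primes above `w` -/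
noncomputable def Gx (w : ℕ) (U : Finset ℕ) (h : ℕ) : ℝ :=
  ∏ x ∈ U ×ˢ U, gw w (6 * h + x.1 - x.2) ^ 2

lemma one_le_Gx (w : ℕ) (U : Finset ℕ) (h : ℕ) : 1 ≤ Gx w U h := by
  unfold Gx
  calc (1 : ℝ) = ∏ _x ∈ U ×ˢ U, (1 : ℝ) := by rw [prod_const_one]
    _ ≤ _ := by
        apply Finset.prod_le_prod (fun _ _ => zero_le_one)
        intro x _
        exact one_le_pow₀ (one_le_gw _ _)

/-- the singular factor in terms of the primes above `w` -/
lemma hd_le : ∃ C : ℝ, 1 ≤ C ∧ ∀ (P U : Finset ℕ) (w h A0 : ℕ), (∀ p ∈ P, p.Prime) →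
    (∀ u ∈ U, u ≤ A0) → A0 < h → 3 ≤ w →
    hd P U (6 * h) ≤ (C * Real.log w) ^ (2 * (U.card * U.card)) * Gx w U h := by
  classical
  obtain ⟨C, hC, hs⟩ := small_le
  refine ⟨C, hC, fun P U w h A0 hP hU hA hw => ?_⟩
  have hlog : 0 < Real.log w := Real.log_pos (by exact_mod_cast (by omega : 1 < w))
  have h1 : hd P U (6 * h) ≤ ∏ x ∈ U ×ˢ U,
      (∏ p ∈ P.filter (fun p => p ∣ 6 * h + x.1 - x.2), (1 + 1 / (p : ℝ))) ^ 2 := by
    unfold hd
    calc ∏ p ∈ P, (1 + 2 * (gd U (6 * h) p : ℝ) / p) ≤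
        ∏ p ∈ P, (1 + 1 / (p : ℝ)) ^ (2 * gd U (6 * h) p) := by
          apply Finset.prod_le_prod
          · intro p _
            have : 0 ≤ 2 * (gd U (6 * h) p : ℝ) / p := by positivity
            linarith
          · intro p _
            have h2 := one_add_mul_le_pow (a := 1 / (p : ℝ)) (by
              have : 0 ≤ 1 / (p : ℝ) := by positivity
              linarith) (2 * gd U (6 * h) p)
            calc 1 + 2 * (gd U (6 * h) p : ℝ) / p =
                1 + ((2 * gd U (6 * h) p : ℕ) : ℝ) * (1 / p) := by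
                  push_cast
                  ring
              _ ≤ _ := h2
      _ = ∏ p ∈ P, ∏ x ∈ U ×ˢ U,
            (if p ∣ 6 * h + x.1 - x.2 then (1 + 1 / (p : ℝ)) ^ 2 else 1) := by
          apply prod_congr rfl
          intro p _
          rw [← prod_filter, prod_const]
          unfold gd
          rw [pow_mul]
      _ = ∏ x ∈ U ×ˢ U, ∏ p ∈ P,
            (if p ∣ 6 * h + x.1 - x.2 then (1 + 1 / (p : ℝ)) ^ 2 else 1) := prod_comm
      _ = _ := by
          apply prod_congr rfl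
          intro x _
          rw [← prod_filter, prod_pow]
  refine h1.trans ?_
  have h2 : ∀ x ∈ U ×ˢ U, (∏ p ∈ P.filter (fun p => p ∣ 6 * h + x.1 - x.2), (1 + 1 / (p : ℝ))) ^ 2 ≤
      (C * Real.log w) ^ 2 * gw w (6 * h + x.1 - x.2) ^ 2 := by
    intro x hx
    rw [mem_product] at hx
    have hx2 := hU _ hx.2
    set n := 6 * h + x.1 - x.2 with hn
    have hn0 : n ≠ 0 := by omega
    rw [← mul_pow]
    apply pow_le_pow_left₀
    · apply prod_nonneg
      intro p _
      positivity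
    have hsub : P.filter (fun p => p ∣ n) ⊆
        (Icc 1 w).filter Nat.Prime ∪ n.primeFactors.filter (fun p => w < p) := by
      intro p hp
      rw [mem_filter] at hp
      rw [mem_union, mem_filter, mem_filter, mem_Icc, Nat.mem_primeFactors]
      have hpp := hP p hp.1
      by_cases hpw : w < p
      · exact Or.inr ⟨⟨hpp, hp.2, hn0⟩, hpw⟩
      · exact Or.inl ⟨⟨hpp.one_lt.le, by omega⟩, hpp⟩
    have hdis : Disjoint ((Icc 1 w).filter Nat.Prime) (n.primeFactors.filter (fun p => w < p)) := by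
      rw [disjoint_left]
      intro p hp hp2
      rw [mem_filter, mem_Icc] at hp
      rw [mem_filter] at hp2
      omega
    have hone : ∀ p : ℕ, (1 : ℝ) ≤ 1 + 1 / (p : ℝ) := by
      intro p
      have : (0 : ℝ) ≤ 1 / (p : ℝ) := by positivity
      linarith
    calc ∏ p ∈ P.filter (fun p => p ∣ n), (1 + 1 / (p : ℝ)) ≤
        ∏ p ∈ (Icc 1 w).filter Nat.Prime ∪ n.primeFactors.filter (fun p => w < p), (1 + 1 / (p : ℝ)) := by
          apply Finset.prod_le_prod_of_subset_of_one_le hsub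
          · intro p _
            linarith [hone p]
          · intro p _ _
            exact hone p
      _ = (∏ p ∈ (Icc 1 w).filter Nat.Prime, (1 + 1 / (p : ℝ))) * gw w n := by
          rw [prod_union hdis]
          rfl
      _ ≤ _ := mul_le_mul_of_nonneg_right (hs w hw) (by linarith [one_le_gw w n])
  calc ∏ x ∈ U ×ˢ U, (∏ p ∈ P.filter (fun p => p ∣ 6 * h + x.1 - x.2), (1 + 1 / (p : ℝ))) ^ 2 ≤
      ∏ x ∈ U ×ˢ U, ((C * Real.log w) ^ 2 * gw w (6 * h + x.1 - x.2) ^ 2) := by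
        apply Finset.prod_le_prod _ h2
        intro x _
        positivity
    _ = _ := by
        rw [prod_mul_distrib, prod_const, card_product, ← pow_mul]
        rfl

lemma moment_Gx (w q Y A0 : ℕ) (U : Finset ℕ) (hUne : U.Nonempty) (hU : ∀ u ∈ U, u ≤ A0)
    (hq : 1 ≤ q) (hqw : 2 * q * (U.card * U.card) ≤ w) (hA : A0 ≤ Y) :
    ∑ h ∈ Icc 1 Y, (if A0 < h then Gx w U h ^ q else 0) ≤
      ((U.card * U.card : ℕ) : ℝ) * (7 * Y * Real.exp 2) := by
  classical
  set k : ℕ := 2 * q * (U.card * U.card) with hk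
  have hUc : 1 ≤ U.card := hUne.card_pos
  have hk1 : 1 ≤ k := by
    rw [hk]
    have h1 : 0 < U.card * U.card := Nat.mul_pos hUc hUc
    have h2 : 0 < 2 * q := by omega
    exact Nat.mul_pos h2 h1
  have hM := moment_gw_le w k (7 * Y) hk1 hqw
  have hpt : ∀ h ∈ (Icc 1 Y).filter (fun h => A0 < h), Gx w U h ^ q ≤
      ∑ x ∈ U ×ˢ U, gw w (6 * h + x.1 - x.2) ^ k := by
    intro h _
    unfold Gx
    rw [← prod_pow]
    refine (prod_le_sum_pow (U ×ˢ U) (hUne.product hUne) _ (fun x _ => by positivity)).trans ?_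
    apply le_of_eq
    apply sum_congr rfl
    intro x _
    rw [card_product, ← pow_mul, ← pow_mul]
    congr 1
    rw [hk]
    ring
  have key : ∀ x ∈ U ×ˢ U, ∑ h ∈ (Icc 1 Y).filter (fun h => A0 < h),
      gw w (6 * h + x.1 - x.2) ^ k ≤ 7 * Y * Real.exp 2 := by
    intro x hx
    rw [mem_product] at hx
    have hx1 := hU _ hx.1
    have hx2 := hU _ hx.2
    have hinj : Set.InjOn (fun h : ℕ => 6 * h + x.1 - x.2)
        (((Icc 1 Y).filter (fun h => A0 < h) : Finset ℕ) : Set ℕ) := by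
      intro a ha b hb hab
      rw [mem_coe, mem_filter] at ha hb
      simp only at hab
      omega
    rw [← Finset.sum_image (f := fun n => gw w n ^ k) hinj]
    calc ∑ n ∈ ((Icc 1 Y).filter (fun h => A0 < h)).image (fun h : ℕ => 6 * h + x.1 - x.2),
          gw w n ^ k ≤ ∑ n ∈ Icc 1 (7 * Y), gw w n ^ k := by
          apply Finset.sum_le_sum_of_subset_of_nonneg
          · intro n hn
            obtain ⟨h, hh, rfl⟩ := mem_image.mp hn
            rw [mem_filter, mem_Icc] at hh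
            rw [mem_Icc]
            omega
          · intro n _ _
            exact pow_nonneg (by linarith [one_le_gw w n]) _
      _ ≤ ((7 * Y : ℕ) : ℝ) * Real.exp 2 := hM
      _ = 7 * Y * Real.exp 2 := by push_cast; ring
  rw [← sum_filter]
  calc ∑ h ∈ (Icc 1 Y).filter (fun h => A0 < h), Gx w U h ^ q ≤
      ∑ h ∈ (Icc 1 Y).filter (fun h => A0 < h), ∑ x ∈ U ×ˢ U, gw w (6 * h + x.1 - x.2) ^ k :=
        sum_le_sum hpt
    _ = ∑ x ∈ U ×ˢ U, ∑ h ∈ (Icc 1 Y).filter (fun h => A0 < h), gw w (6 * h + x.1 - x.2) ^ k :=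
        sum_comm
    _ ≤ ∑ _x ∈ U ×ˢ U, 7 * Y * Real.exp 2 := sum_le_sum key
    _ = _ := by
        rw [sum_const, card_product, nsmul_eq_mul]

/-- the average of the factor over the large differences of a fairly dense set -/
theorem avg_Gx (w q T A0 : ℕ) (S U : Finset ℕ) (E : ℝ) (hUne : U.Nonempty) (hU : ∀ u ∈ U, u ≤ A0)
    (hq : 1 ≤ q) (hqw : 2 * q * (U.card * U.card) ≤ w) (hS : S ⊆ Icc 1 T) (hAT : A0 ≤ T)
    (hE : 0 ≤ E) (hT : 112 * ((U.card * U.card : ℕ) : ℝ) * T ≤ E ^ q * S.card) :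
    ∑ z ∈ S.offDiag.filter (fun z => A0 < Nat.dist z.1 z.2), Gx w U (Nat.dist z.1 z.2) ≤
      E * (S.card : ℝ) ^ 2 := by
  classical
  set Z := S.offDiag.filter (fun z => A0 < Nat.dist z.1 z.2) with hZ
  obtain ⟨X, hX⟩ : ∃ X : ℝ, X = ∑ z ∈ Z, Gx w U (Nat.dist z.1 z.2) := ⟨_, rfl⟩
  rw [← hX]
  have hX0 : 0 ≤ X := by
    rw [hX]
    exact Finset.sum_nonneg fun z _ => by linarith [one_le_Gx w U (Nat.dist z.1 z.2)]
  obtain ⟨m, rfl⟩ : ∃ m, q = m + 1 := ⟨q - 1, by omega⟩
  have h1 : X ^ (m + 1) ≤ (#Z : ℝ) ^ m * ∑ z ∈ Z, Gx w U (Nat.dist z.1 z.2) ^ (m + 1) := by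
    rw [hX]
    exact pow_sum_le_card_mul_sum_pow
      (fun z _ => by linarith [one_le_Gx w U (Nat.dist z.1 z.2)]) m
  have h2 : (#Z : ℝ) ≤ (#S : ℝ) ^ 2 := by
    have h3 : #Z ≤ #S.offDiag := card_filter_le _ _
    have h4 : #S.offDiag ≤ #S * #S := by
      rw [offDiag_card]
      exact Nat.sub_le _ _
    calc (#Z : ℝ) ≤ ((#S * #S : ℕ) : ℝ) := by exact_mod_cast h3.trans h4
      _ = (#S : ℝ) ^ 2 := by push_cast; ring
  have h5 := sum_dist_le S T hS (fun n : ℕ => if A0 < n then Gx w U n ^ (m + 1) else 0)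
    (fun n => by
      split_ifs
      · exact pow_nonneg (by linarith [one_le_Gx w U n]) _
      · exact le_rfl)
  have h5' : ∑ z ∈ Z, Gx w U (Nat.dist z.1 z.2) ^ (m + 1) ≤
      2 * #S * ∑ h ∈ Icc 1 T, (if A0 < h then Gx w U h ^ (m + 1) else 0) := by
    refine le_trans (le_of_eq ?_) h5
    rw [hZ, sum_filter]
  have h6 := moment_Gx w (m + 1) T A0 U hUne hU (by omega) hqw hAT
  have he : Real.exp 2 ≤ 8 := by
    have h7 := Real.exp_one_lt_d9
    have h8 : Real.exp 2 = Real.exp 1 ^ 2 := by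
      rw [← Real.exp_nat_mul]; norm_num
    have h9 := Real.exp_pos 1
    rw [h8]
    nlinarith
  have hLL : (0 : ℝ) ≤ ((U.card * U.card : ℕ) : ℝ) := Nat.cast_nonneg _
  have hT0 : (0 : ℝ) ≤ T := Nat.cast_nonneg _
  have h7 : ((U.card * U.card : ℕ) : ℝ) * (7 * T * Real.exp 2) ≤
      56 * ((U.card * U.card : ℕ) : ℝ) * T := by
    calc ((U.card * U.card : ℕ) : ℝ) * (7 * T * Real.exp 2) ≤
        ((U.card * U.card : ℕ) : ℝ) * (7 * T * 8) := by gcongr
      _ = _ := by ring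
  have hS0 : (0 : ℝ) ≤ S.card := Nat.cast_nonneg _
  have h8 : X ^ (m + 1) ≤ (E * (S.card : ℝ) ^ 2) ^ (m + 1) := by
    calc X ^ (m + 1) ≤ (#Z : ℝ) ^ m * ∑ z ∈ Z, Gx w U (Nat.dist z.1 z.2) ^ (m + 1) := h1
      _ ≤ ((#S : ℝ) ^ 2) ^ m * (2 * #S * (56 * ((U.card * U.card : ℕ) : ℝ) * T)) := by
          apply mul_le_mul
          · gcongr
          · refine h5'.trans ?_
            apply mul_le_mul_of_nonneg_left (h6.trans h7) (by positivity)
          · apply Finset.sum_nonneg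
            intro z _
            exact pow_nonneg (by linarith [one_le_Gx w U (Nat.dist z.1 z.2)]) _
          · positivity
      _ = ((#S : ℝ) ^ 2) ^ m * (#S * (112 * ((U.card * U.card : ℕ) : ℝ) * T)) := by ring
      _ ≤ ((#S : ℝ) ^ 2) ^ m * (#S * (E ^ (m + 1) * #S)) := by gcongr
      _ = (E * (S.card : ℝ) ^ 2) ^ (m + 1) := by
          rw [mul_pow]
          ring
  exact le_of_pow_le_pow_left₀ (by omega) (by positivity) h8

end Pool.Agent.T6.H56.EA
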