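import Pool.Agent.T6.H56.EA.Cns

/-! Isolated Chen constellations plus sets of positive lower density, or plus small constellations. -/

set_option autoImplicit false
set_option maxHeartbeats 1000000

open Finset Filter

namespace Pool.Agent.T6.H56.EA

open Pool.Agent.X32.Uni (AlmostN)

variable {K : ℕ}

/-- an isolated constellation, in terms of its own size -/
def Cst (h : Fin K → ℕ) (i j : Fin K) (t : ℕ) (ε β : ℝ) (ν : ℕ) : Prop :=
  (ν + h i).Prime ∧ (ν + h j).primeFactorsList.length ≤ 2 ∧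
    (∀ l, 1 < ν + h l ∧ (ν + h l).primeFactorsList.length ≤ t ∧
      ∀ q : ℕ, q.Prime → q ∣ ν + h l → (ν : ℝ) ^ (1 / (t : ℝ)) < (q : ℝ)) ∧
    ∀ l, ∀ z : ℤ, |(z : ℝ) - ((ν + h l : ℕ) : ℝ)| ≤ ε * Real.log ν → (∀ u, z ≠ ((ν + h u : ℕ) : ℤ)) →
      ∃ q : ℕ, q.Prime ∧ (q : ℝ) ≤ (ν : ℝ) ^ β ∧ (q : ℤ) ∣ z

lemma Cst_of {h : Fin K → ℕ} {i j : Fin K} {t X ν : ℕ} {ε β : ℝ} (ht : 1 ≤ t) (hβ : 0 < β) (hε : 0 < ε)
    (hX : 13 ≤ X) (h1 : X ≤ ν) (h2 : ν ≤ 13 * X) (hC : Con h i j t X (ε * Real.log X) ((X : ℝ) ^ β) ν) :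
    Cst h i j (2 * t) (ε / 2) β ν := by
  obtain ⟨c1, c2, c3, c4⟩ := hC
  have ht0 : (0 : ℝ) < t := by exact_mod_cast ht
  have hXr : (13 : ℝ) ≤ X := by exact_mod_cast hX
  have hX0 : (0 : ℝ) < X := by linarith
  have h1r : (X : ℝ) ≤ ν := by exact_mod_cast h1
  have h2r : (ν : ℝ) ≤ (X : ℝ) ^ (2 : ℝ) := by
    have : (ν : ℝ) ≤ 13 * X := by exact_mod_cast h2
    rw [Real.rpow_two]
    nlinarith
  have hν0 : (0 : ℝ) < ν := by linarith
  refine ⟨c1, c2.2.1, fun l => ⟨(c3 l).1, (c3 l).2.1.trans (by omega), fun q hq hd => ?_⟩, ?_⟩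
  · refine lt_of_le_of_lt ?_ ((c3 l).2.2 q hq hd)
    calc (ν : ℝ) ^ (1 / ((2 * t : ℕ) : ℝ)) ≤ ((X : ℝ) ^ (2 : ℝ)) ^ (1 / ((2 * t : ℕ) : ℝ)) :=
          Real.rpow_le_rpow hν0.le h2r (by positivity)
      _ = (X : ℝ) ^ (1 / (t : ℝ)) := by
          rw [← Real.rpow_mul hX0.le]
          congr 1
          push_cast
          field_simp
  · intro l z hz hzu
    obtain ⟨q, hq, hqy, hqd⟩ := c4 l z (hz.trans (by
      have h3 : Real.log ν ≤ 2 * Real.log X := by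
        calc Real.log ν ≤ Real.log ((X : ℝ) ^ (2 : ℝ)) := Real.log_le_log hν0 h2r
          _ = 2 * Real.log X := Real.log_rpow hX0 2
      calc ε / 2 * Real.log ν ≤ ε / 2 * (2 * Real.log X) := mul_le_mul_of_nonneg_left h3 (by positivity)
        _ = ε * Real.log X := by ring)) hzu
    exact ⟨q, hq, hqy.trans (Real.rpow_le_rpow hX0.le h1r hβ.le), hqd⟩

/-- the sums `6 k - s0 + m` -/
def SmC (P : ℕ → ℕ → Prop) (s0 A : ℕ) (M : Set ℕ) (X : ℕ) : Set ℕ :=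
  {n : ℕ | X < n ∧ n ≤ 18 * X ∧ ∃ k m : ℕ, 1 ≤ k ∧ 1 ≤ m ∧ 6 * k - s0 + m = n ∧ m ∈ M ∧
    (m : ℝ) ≤ Real.log X ^ A ∧ P X k}

lemma SmC_finite (P : ℕ → ℕ → Prop) (s0 A : ℕ) (M : Set ℕ) (X : ℕ) : (SmC P s0 A M X).Finite :=
  (Set.finite_Iic (18 * X)).subset (fun _ hn => hn.2.1)

/-- one of the six classes is dense -/
lemma classes (M : Set ℕ) (T : ℕ) (D : ℝ) (h : 6 * D ≤ (cnt M (6 * T) : ℝ)) : ∃ r ≤ 5,
    D ≤ (cnt {m : ℕ | 6 * m - r ∈ M} T : ℝ) := by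
  classical
  by_contra hcon
  push Not at hcon
  have hsub : (Icc 1 (6 * T)).filter (fun m => m ∈ M) ⊆ (range 6).biUnion (fun r =>
      ((Icc 1 T).filter (fun m => m ∈ {m : ℕ | 6 * m - r ∈ M})).image (fun m => 6 * m - r)) := by
    intro m hm
    rw [mem_filter, mem_Icc] at hm
    rw [mem_biUnion]
    refine ⟨6 * ((m + 5) / 6) - m, mem_range.2 (by omega), ?_⟩
    rw [mem_image]
    have e : 6 * ((m + 5) / 6) - (6 * ((m + 5) / 6) - m) = m := by omega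
    refine ⟨(m + 5) / 6, ?_, e⟩
    rw [mem_filter, mem_Icc]
    refine ⟨by omega, ?_⟩
    show 6 * ((m + 5) / 6) - (6 * ((m + 5) / 6) - m) ∈ M
    rw [e]
    exact hm.2
  have h1 : (cnt M (6 * T) : ℝ) ≤ ∑ r ∈ range 6, (cnt {m : ℕ | 6 * m - r ∈ M} T : ℝ) := by
    unfold cnt
    have h2 := (card_le_card hsub).trans card_biUnion_le
    have h3 : ∑ r ∈ range 6, (((Icc 1 T).filter (fun m => m ∈ {m : ℕ | 6 * m - r ∈ M})).image
        (fun m => 6 * m - r)).card ≤ ∑ r ∈ range 6, ((Icc 1 T).filter (fun m => m ∈ {m : ℕ | 6 * m - r ∈ M})).card :=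
      sum_le_sum fun r _ => card_image_le
    exact_mod_cast h2.trans h3
  have h4 : ∑ r ∈ range 6, (cnt {m : ℕ | 6 * m - r ∈ M} T : ℝ) < ∑ _r ∈ range 6, D := by
    apply sum_lt_sum_of_nonempty ⟨0, by simp⟩
    intro r hr
    rw [mem_range] at hr
    exact hcon r (by omega)
  rw [sum_const, card_range, nsmul_eq_mul] at h4
  push_cast at h4
  linarith

/-- sets of positive lower density -/
theorem posC (L A0 : ℕ) (δ c0 : ℝ) (hδ : 0 < δ) (hδ1 : δ ≤ 1) (hc0 : 0 < c0) (P : ℕ → ℕ → Prop)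
    (hP : Den L A0 δ c0 P) (s0 : ℕ) (hs0 : s0 ≤ 6) (M : Set ℕ) (η : ℝ) (hη : 0 < η)
    (hM : ∀ᶠ t : ℕ in atTop, η * t ≤ (cnt M t : ℝ)) : ∃ c : ℝ, 0 < c ∧ ∀ᶠ X : ℕ in atTop,
    c * X ≤ ((SmC P s0 (L + 2) M X).ncard : ℝ) := by
  classical
  obtain ⟨C2, hC2, h⟩ := sumsG L A0 δ c0 hδ hδ1 hc0 P hP
  set E : ℝ := (112 * ((L * L : ℕ) : ℝ) + 1) / η with hE
  have hE0 : 0 < E := by rw [hE]; positivity
  obtain ⟨c, hc, X1, h1⟩ := h E hE0
  set W : ℝ := Real.log ((2 * 1 * (L * L) + 3 : ℕ) : ℝ) ^ (2 * (L * L)) with hW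
  have hW0 : 0 < W := by
    rw [hW]
    have : 0 < Real.log ((2 * 1 * (L * L) + 3 : ℕ) : ℝ) := by
      apply Real.log_pos
      exact_mod_cast (by omega : 1 < 2 * 1 * (L * L) + 3)
    positivity
  have hTt : Tendsto (fun X : ℕ => ⌊Real.log X ^ (L + 1)⌋₊) atTop atTop :=
    tendsto_nat_floor_atTop.comp ((tendsto_pow_atTop (by omega)).comp
      (Real.tendsto_log_atTop.comp tendsto_natCast_atTop_atTop))
  have hTt6 : Tendsto (fun X : ℕ => 6 * ⌊Real.log X ^ (L + 1)⌋₊) atTop atTop :=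
    tendsto_atTop_mono (fun X => by omega) hTt
  have hlogt : Tendsto (fun x : ℕ => Real.log (x : ℝ)) atTop atTop :=
    Real.tendsto_log_atTop.comp tendsto_natCast_atTop_atTop
  refine ⟨c / W, by positivity, ?_⟩
  filter_upwards [ev_par L A0 0 C2 η hC2 hη, hTt6.eventually hM, eventually_ge_atTop (X1 + 6),
    hlogt.eventually_ge_atTop 6] with X ⟨e1, e2, e3, e4⟩ e5 e6 e7
  set T : ℕ := ⌊Real.log X ^ (L + 1)⌋₊ with hT
  have hTle : (T : ℝ) ≤ Real.log X ^ (L + 1) := Nat.floor_le (by positivity)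
  have hAT : A0 ≤ T := by
    apply Nat.le_floor
    calc (A0 : ℝ) ≤ Real.log X := by linarith
      _ = Real.log X ^ 1 := (pow_one _).symm
      _ ≤ _ := pow_le_pow_right₀ e1 (by omega)
  obtain ⟨r, hr5, hr⟩ := classes M T (η * T) (by
    push_cast at e5
    linarith)
  set M' : Set ℕ := {m : ℕ | 6 * m - r ∈ M} with hM'
  set S : Finset ℕ := (Icc 1 T).filter (fun m => m ∈ M') with hS
  have hSc : η * T ≤ (S.card : ℝ) := hr
  rw [pow_zero, mul_one] at e4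
  obtain ⟨I, hI1, hI2, hI3⟩ := h1 X (by omega) S T 1 (filter_subset _ _) hAT e3 (e4.trans hSc) le_rfl (by
    rw [pow_one, hE, div_mul_eq_mul_div, le_div_iff₀ hη]
    have hT0 : (0 : ℝ) ≤ T := Nat.cast_nonneg _
    calc 112 * ((L * L : ℕ) : ℝ) * T * η = 112 * ((L * L : ℕ) : ℝ) * (η * T) := by ring
      _ ≤ (112 * ((L * L : ℕ) : ℝ) + 1) * (η * T) := by
          apply mul_le_mul_of_nonneg_right _ (by positivity)
          linarith
      _ ≤ _ := mul_le_mul_of_nonneg_left hSc (by positivity))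
  rw [← hW] at hI3
  rw [div_mul_eq_mul_div, div_le_iff₀ hW0]
  refine hI3.trans ?_
  apply mul_le_mul_of_nonneg_right _ hW0.le
  have hinj : Set.InjOn (fun n : ℕ => 6 * n - s0 - r) (I : Set ℕ) := by
    intro a ha b hb hab
    have h2 := mem_Ioc.1 (hI1 (mem_coe.1 ha))
    have h3 := mem_Ioc.1 (hI1 (mem_coe.1 hb))
    simp only at hab
    omega
  rw [← card_image_of_injOn hinj, ← Set.ncard_coe_finset]
  apply Nat.cast_le.2
  apply Set.ncard_le_ncard _ (SmC_finite _ _ _ _ _)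
  intro n hn
  rw [mem_coe, mem_image] at hn
  obtain ⟨n', hn', rfl⟩ := hn
  obtain ⟨k, m, h2, h3, h4, h5⟩ := hI2 n' hn'
  have h6 := mem_Ioc.1 (hI1 hn')
  rw [hS, mem_filter, mem_Icc] at h4
  refine ⟨by omega, by omega, k, 6 * m - r, h2, by omega, by omega, h4.2, ?_, h5⟩
  calc ((6 * m - r : ℕ) : ℝ) ≤ 6 * (m : ℝ) := by
        have : ((6 * m - r : ℕ) : ℝ) ≤ ((6 * m : ℕ) : ℝ) := by exact_mod_cast Nat.sub_le _ _
        push_cast at this
        exact this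
    _ ≤ 6 * T := by
        have : (m : ℝ) ≤ T := by exact_mod_cast h4.1.2
        linarith
    _ ≤ Real.log X * Real.log X ^ (L + 1) := mul_le_mul e7 hTle (Nat.cast_nonneg _) (by linarith)
    _ = Real.log X ^ (L + 2) := by rw [← pow_succ']

end Pool.Agent.T6.H56.EA
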