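import Pool.Agent.T6.H56.EA.Cf

/-! Isolated Chen constellations plus sets of positive lower density, or plus small constellations: the theorems
for one colouring for every `X`. -/

set_option autoImplicit false
set_option maxHeartbeats 1000000

open Finset Filter

namespace Pool.Agent.T6.H56.EA

variable {K : ℕ}

/-- the first terms of one-coloured progressions of isolated constellations -/
def FD (h : Fin K → ℕ) (i j : Fin K) (t s c : ℕ) (ε β : ℝ) {q : ℕ} (χ : ℕ → Fin q) (X ν : ℕ) : Prop :=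
  ∃ d : ℕ, 1 ≤ d ∧ (d : ℝ) ≤ Real.log X ^ c ∧ ∀ a < s, Cst h i j t ε β (ν + a * d) ∧ χ (ν + a * d) = χ ν

lemma ev_small (s c : ℕ) : ∀ᶠ X : ℕ in atTop, 6 * (s : ℝ) * Real.log X ^ c ≤ X := by
  have h := (Real.isLittleO_pow_log_id_atTop (n := c)).bound (show (0 : ℝ) < 1 / (6 * s + 1) by positivity)
  have h2 := (tendsto_natCast_atTop_atTop (R := ℝ)).eventually h
  filter_upwards [h2, eventually_ge_atTop 1] with X hX hX1
  have hX1r : (1 : ℝ) ≤ X := by exact_mod_cast hX1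
  have hl : 0 ≤ Real.log X := Real.log_nonneg hX1r
  rw [Real.norm_of_nonneg (by positivity), id, Real.norm_of_nonneg (by linarith)] at hX
  calc 6 * (s : ℝ) * Real.log X ^ c ≤ (6 * s + 1) * Real.log X ^ c := by
        apply mul_le_mul_of_nonneg_right _ (by positivity)
        linarith
    _ ≤ (6 * s + 1) * (1 / (6 * s + 1) * X) := mul_le_mul_of_nonneg_left hX (by positivity)
    _ = X := by field_simp

/-- from `FC` to `FD` -/
lemma FD_of {h : Fin K → ℕ} {i j : Fin K} {t s0 s c q X k : ℕ} {ε β : ℝ} {χ : ℕ → ℕ → Fin q} (ht : 1 ≤ t)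
    (hβ : 0 < β) (hε : 0 < ε) (hs0 : s0 ≤ 6) (hX : 13 ≤ X) (h6 : 6 ≤ Real.log X)
    (hsm : 6 * (s : ℝ) * Real.log X ^ c ≤ X)
    (hF : FC h i j t s0 s c ε β (fun X k => χ X (6 * k - s0)) X k) :
    FD h i j (2 * t) s (c + 1) (ε / 2) β (χ X) X (6 * k - s0) := by
  obtain ⟨h1, h2, d, h3, h4, h5⟩ := hF
  refine ⟨6 * d, by omega, ?_, fun a ha => ?_⟩
  · push_cast
    calc 6 * (d : ℝ) ≤ Real.log X * Real.log X ^ c := mul_le_mul h6 h4 (Nat.cast_nonneg _) (by linarith)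
      _ = Real.log X ^ (c + 1) := by rw [← pow_succ']
  · have e : 6 * k - s0 + a * (6 * d) = 6 * (k + a * d) - s0 := by
      have : a * (6 * d) = 6 * (a * d) := by ring
      omega
    obtain ⟨h6', h7⟩ := h5 a ha
    rw [e]
    refine ⟨Cst_of ht hβ hε hX ?_ ?_ h6', h7⟩
    · omega
    · have h8 : 6 * (a * d) ≤ X := by
        have h9 : (6 : ℝ) * (a * d) ≤ X := by
          refine le_trans ?_ hsm
          have h10 : (a : ℝ) ≤ s := by exact_mod_cast ha.le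
          calc (6 : ℝ) * (a * d) ≤ 6 * (s * Real.log X ^ c) := by
                apply mul_le_mul_of_nonneg_left _ (by norm_num)
                exact mul_le_mul h10 h4 (Nat.cast_nonneg _) (Nat.cast_nonneg _)
            _ = 6 * (s : ℝ) * Real.log X ^ c := by ring
        exact_mod_cast h9
      omega

/-- **dense summands** -/
theorem dense_summands (K : ℕ) (hK : 1 ≤ K) : ∃ t : ℕ, 1 ≤ t ∧ ∀ (h : Fin K → ℕ) (i j : Fin K),
    Function.Injective h → h i ≠ h j → AdmN h → ∀ β : ℝ, 0 < β → ∃ ε : ℝ, 0 < ε ∧ ∀ s q : ℕ, 1 ≤ s → ∃ A : ℕ,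
    ∀ (M : Set ℕ) (η : ℝ), 0 < η → (∀ᶠ T : ℕ in atTop, η * T ≤ (cnt M T : ℝ)) → ∀ χ : ℕ → ℕ → Fin q,
    ∃ c : ℝ, 0 < c ∧ ∀ᶠ X : ℕ in atTop, c * X ≤
      (({n : ℕ | X < n ∧ n ≤ 18 * X ∧ ∃ ν m : ℕ, 1 ≤ m ∧ ν + m = n ∧ m ∈ M ∧ (m : ℝ) ≤ Real.log X ^ A ∧
        FD h i j t s A ε β (χ X) X ν} : Set ℕ).ncard : ℝ) := by
  classical
  obtain ⟨t, ht, HT⟩ := con_terms K hK
  refine ⟨2 * t, by omega, fun h i j hinj hij hA β hβ => ?_⟩
  obtain ⟨s0, hs01, hs06, hAS⟩ := admS_of h hA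
  obtain ⟨ε, hε, HT⟩ := HT h i j s0 hs06 hij hAS β hβ
  refine ⟨ε / 2, by positivity, fun s q hs => ?_⟩
  obtain ⟨c, κ, hκ, HT⟩ := HT s q hs
  refine ⟨max (c + 1) (K + 2), fun M η hη hM χ => ?_⟩
  obtain ⟨H, hH⟩ : ∃ H : ℕ, ∀ l, h l ≤ H := ⟨∑ l, h l, fun l =>
    Finset.single_le_sum (f := h) (fun _ _ => Nat.zero_le _) (mem_univ l)⟩
  have ht0 : (0 : ℝ) < t := by exact_mod_cast ht
  have ht1 : (1 : ℝ) ≤ t := by exact_mod_cast ht
  obtain ⟨c0, hc0, hden⟩ := den_con h hK hinj i j t s0 s q c H ht hs01 hs06 hH hs ε β κ hκ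
    (fun X k => χ X (6 * k - s0)) (by
    filter_upwards [HT (fun X k => χ X (6 * k - s0))] with X hX
    refine hX.trans ?_
    apply le_of_eq
    rw [← Set.ncard_coe_finset]
    congr 2
    ext k
    simp only [coe_filter, mem_Ioc, Set.mem_ofPred_eq]
    unfold FC
    tauto)
  obtain ⟨c1, hc1, hfin⟩ := posC K (H + 6) (1 / (2 * t)) c0 (by positivity) (by
    rw [div_le_one (by positivity)]
    linarith) hc0 _ hden s0 hs06 M η hη hM
  refine ⟨c1, hc1, ?_⟩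
  have hlogt : Tendsto (fun x : ℕ => Real.log (x : ℝ)) atTop atTop :=
    Real.tendsto_log_atTop.comp tendsto_natCast_atTop_atTop
  filter_upwards [hfin, eventually_ge_atTop 13, hlogt.eventually_ge_atTop 6, ev_small s c] with X hX h13 h6 hsm
  refine hX.trans (Nat.cast_le.2 (Set.ncard_le_ncard ?_ ((Set.finite_Iic (18 * X)).subset (fun _ hn => hn.2.1))))
  rintro n ⟨h1, h2, k, m, h3, h4, h5, h7, h8, h9⟩
  obtain ⟨d, d1, d2, d3⟩ := FD_of ht hβ hε hs06 h13 h6 hsm h9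
  exact ⟨h1, h2, 6 * k - s0, m, h4, h5, h7, h8.trans (pow_le_pow_right₀ (by linarith) (le_max_right _ _)),
    d, d1, d2.trans (pow_le_pow_right₀ (by linarith) (le_max_left _ _)), d3⟩

/-- the constellations are not too sparse -/
lemma dens_con (h : Fin K → ℕ) (i j : Fin K) (t s0 : ℕ) (ε β : ℝ) (ht : 1 ≤ t) (hβ : 0 < β) (hε : 0 < ε)
    (hs0 : s0 ≤ 6) (c : ℕ) (κ : ℝ) (hκ : 0 < κ) (hm : ∀ᶠ X : ℕ in atTop, κ * X / Real.log X ^ K ≤
      ((({k : ℕ | FC h i j t s0 1 c ε β (fun _ _ => (0 : Fin 1)) X k} : Set ℕ).ncard : ℕ) : ℝ)) :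
    ∀ᶠ T : ℕ in atTop, (T : ℝ) / Real.log T ^ (K + 1) ≤
      (cnt {m : ℕ | 1 ≤ 6 * m - s0 ∧ Cst h i j (2 * t) (ε / 2) β (6 * m - s0)} T : ℝ) := by
  classical
  have hlogt : Tendsto (fun x : ℕ => Real.log (x : ℝ)) atTop atTop :=
    Real.tendsto_log_atTop.comp tendsto_natCast_atTop_atTop
  have hhalf : Tendsto (fun T : ℕ => T / 2) atTop atTop := by
    refine tendsto_atTop.2 fun b => ?_
    filter_upwards [eventually_ge_atTop (2 * b)] with T hT
    omega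
  filter_upwards [hhalf.eventually hm, eventually_ge_atTop 26, hlogt.eventually_ge_atTop (3 / κ + 1)] with T h1 h2 h3
  obtain ⟨Y, hY⟩ : ∃ Y : ℕ, Y = T / 2 := ⟨_, rfl⟩
  rw [← hY] at h1
  have hY13 : 13 ≤ Y := by omega
  have hYr : (13 : ℝ) ≤ Y := by exact_mod_cast hY13
  have hTr : (26 : ℝ) ≤ T := by exact_mod_cast h2
  have hYT : (Y : ℝ) ≤ T := by exact_mod_cast (by omega : Y ≤ T)
  have hTY : (T : ℝ) ≤ 3 * Y := by exact_mod_cast (by omega : T ≤ 3 * Y)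
  have hlY : 0 < Real.log Y := Real.log_pos (by linarith)
  have hlT : Real.log Y ≤ Real.log T := Real.log_le_log (by linarith) hYT
  have hlT0 : 0 < Real.log T := by linarith
  have h4 : (T : ℝ) / Real.log T ^ (K + 1) ≤ κ * Y / Real.log Y ^ K := by
    calc (T : ℝ) / Real.log T ^ (K + 1) = (T / Real.log T) / Real.log T ^ K := by
          rw [pow_succ]
          field_simp
      _ ≤ κ * Y / Real.log T ^ K := by
          apply div_le_div_of_nonneg_right _ (by positivity)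
          rw [div_le_iff₀ hlT0]
          have h5 : 3 ≤ κ * Real.log T := by
            have : 3 / κ ≤ Real.log T := by linarith
            rw [div_le_iff₀ hκ] at this
            linarith
          calc (T : ℝ) ≤ 3 * Y := hTY
            _ ≤ (κ * Real.log T) * Y := mul_le_mul_of_nonneg_right h5 (by linarith)
            _ = κ * Y * Real.log T := by ring
      _ ≤ κ * Y / Real.log Y ^ K := by
          apply div_le_div_of_nonneg_left (by positivity) (by positivity)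
          exact pow_le_pow_left₀ hlY.le hlT K
  refine h4.trans (h1.trans ?_)
  unfold cnt
  rw [← Set.ncard_coe_finset]
  apply Nat.cast_le.2
  apply Set.ncard_le_ncard _ (finite_toSet _)
  rintro k ⟨h5, h6, d, h7, h8, h9⟩
  obtain ⟨h10, -⟩ := h9 0 (by omega)
  rw [zero_mul, add_zero] at h10
  simp only [coe_filter, mem_Icc, Set.mem_ofPred_eq]
  exact ⟨by omega, by omega, Cst_of ht hβ hε hY13 (by omega) (by omega) h10⟩

/-- **constellations as summands** -/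
theorem con_con (K : ℕ) (hK : 1 ≤ K) : ∃ t : ℕ, 1 ≤ t ∧ ∀ (h : Fin K → ℕ) (i j i' j' : Fin K),
    Function.Injective h → h i ≠ h j → h i' ≠ h j' → AdmN h → ∀ β : ℝ, 0 < β → ∃ ε : ℝ, 0 < ε ∧ ∀ s q : ℕ, 1 ≤ s →
    ∃ A : ℕ, ∀ χ : ℕ → ℕ → Fin q,
    ∃ c : ℝ, 0 < c ∧ ∀ᶠ X : ℕ in atTop, c * X / Real.log (Real.log (Real.log (Real.log X))) ^ (2 * (K * K)) ≤
      (({n : ℕ | X < n ∧ n ≤ 18 * X ∧ ∃ ν m : ℕ, 1 ≤ m ∧ ν + m = n ∧ Cst h i' j' t ε β m ∧
        (m : ℝ) ≤ Real.log X ^ A ∧ FD h i j t s A ε β (χ X) X ν} : Set ℕ).ncard : ℝ) := by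
  classical
  obtain ⟨t, ht, HT⟩ := con_terms K hK
  refine ⟨2 * t, by omega, fun h i j i' j' hinj hij hij' hA β hβ => ?_⟩
  obtain ⟨s0, hs01, hs06, hAS⟩ := admS_of h hA
  obtain ⟨ε1, hε1, HT1⟩ := HT h i j s0 hs06 hij hAS β hβ
  obtain ⟨ε2, hε2, HT2⟩ := HT h i' j' s0 hs06 hij' hAS β hβ
  obtain ⟨c2, κ2, hκ2, HT2⟩ := HT2 1 1 le_rfl
  have hmono : ∀ (i j : Fin K) (t : ℕ) (ε ε' : ℝ) (ν : ℕ), ε ≤ ε' → Cst h i j t ε' β ν → Cst h i j t ε β ν := by
    rintro i j t ε ε' ν hle ⟨h1, h2, h3, h4⟩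
    refine ⟨h1, h2, h3, fun l z hz hzu => h4 l z (hz.trans ?_) hzu⟩
    apply mul_le_mul_of_nonneg_right hle
    rcases Nat.eq_zero_or_pos ν with rfl | hν
    · simp
    · exact Real.log_nonneg (by exact_mod_cast hν)
  refine ⟨min (ε1 / 2) (ε2 / 2), by positivity, fun s q hs => ?_⟩
  obtain ⟨c, κ, hκ, HT⟩ := HT1 s q hs
  refine ⟨max (c + 1) (K + 2), fun χ => ?_⟩
  obtain ⟨H, hH⟩ : ∃ H : ℕ, ∀ l, h l ≤ H := ⟨∑ l, h l, fun l =>
    Finset.single_le_sum (f := h) (fun _ _ => Nat.zero_le _) (mem_univ l)⟩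
  have ht0 : (0 : ℝ) < t := by exact_mod_cast ht
  have ht1 : (1 : ℝ) ≤ t := by exact_mod_cast ht
  obtain ⟨c0, hc0, hden⟩ := den_con h hK hinj i j t s0 s q c H ht hs01 hs06 hH hs ε1 β κ hκ
    (fun X k => χ X (6 * k - s0)) (by
    filter_upwards [HT (fun X k => χ X (6 * k - s0))] with X hX
    refine hX.trans ?_
    apply le_of_eq
    rw [← Set.ncard_coe_finset]
    congr 2
    ext k
    simp only [coe_filter, mem_Ioc, Set.mem_ofPred_eq]
    unfold FC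
    tauto)
  have hdc := dens_con h i' j' t s0 ε2 β ht hβ hε2 hs06 c2 κ2 hκ2 (by
    filter_upwards [HT2 (fun _ _ => (0 : Fin 1))] with X hX
    refine hX.trans ?_
    apply le_of_eq
    rw [← Set.ncard_coe_finset]
    congr 2
    ext k
    rw [mem_coe, mem_filter, mem_Ioc]
    constructor
    · rintro ⟨⟨g1, g2⟩, g3⟩
      exact ⟨g1, g2, g3⟩
    · rintro ⟨g1, g2, g3⟩
      exact ⟨⟨g1, g2⟩, g3⟩)
  obtain ⟨c1, hc1, hfin⟩ := logG K (H + 6) (1 / (2 * t)) c0 (by positivity) (by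
    rw [div_le_one (by positivity)]
    linarith) hc0 _ hden _ (K + 1) hdc
  refine ⟨c1, hc1, ?_⟩
  have hlogt : Tendsto (fun x : ℕ => Real.log (x : ℝ)) atTop atTop :=
    Real.tendsto_log_atTop.comp tendsto_natCast_atTop_atTop
  filter_upwards [hfin, eventually_ge_atTop 13, hlogt.eventually_ge_atTop 6, ev_small s c] with X hX h13 h6 hsm
  refine hX.trans (Nat.cast_le.2 ?_)
  have hinj2 : Set.InjOn (fun n : ℕ => 6 * n - s0 - s0)
      (SmG (FC h i j t s0 s c ε1 β (fun X k => χ X (6 * k - s0))) (K + 1)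
        {m : ℕ | 1 ≤ 6 * m - s0 ∧ Cst h i' j' (2 * t) (ε2 / 2) β (6 * m - s0)} X) := by
    intro a ha b hb hab
    have h2 := ha.1
    have h3 := hb.1
    simp only at hab
    omega
  rw [← Set.ncard_image_of_injOn hinj2]
  apply Set.ncard_le_ncard _ ((Set.finite_Iic (18 * X)).subset (fun _ hn => hn.2.1))
  rintro n ⟨n', ⟨h1, h2, k, m, h3, h4, h5, h7, h8, h9⟩, rfl⟩
  obtain ⟨d, d1, d2, d3⟩ := FD_of ht hβ hε1 hs06 h13 h6 hsm h9
  refine ⟨?_, ?_, 6 * k - s0, 6 * m - s0, h7.1, ?_, hmono _ _ _ _ _ _ (min_le_right _ _) h7.2, ?_, d, d1,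
    d2.trans (pow_le_pow_right₀ (by linarith) (le_max_left _ _)),
    fun a ha => ⟨hmono _ _ _ _ _ _ (min_le_left _ _) (d3 a ha).1, (d3 a ha).2⟩⟩
  · show X < 6 * n' - s0 - s0
    omega
  · show 6 * n' - s0 - s0 ≤ 18 * X
    omega
  · show 6 * k - s0 + (6 * m - s0) = 6 * n' - s0 - s0
    have := h7.1
    omega
  · calc ((6 * m - s0 : ℕ) : ℝ) ≤ 6 * (m : ℝ) := by
          have : ((6 * m - s0 : ℕ) : ℝ) ≤ ((6 * m : ℕ) : ℝ) := by exact_mod_cast Nat.sub_le _ _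
          push_cast at this
          exact this
      _ ≤ Real.log X * Real.log X ^ (K + 1) := mul_le_mul h6 h8 (Nat.cast_nonneg _) (by linarith)
      _ = Real.log X ^ (K + 2) := by rw [← pow_succ']
      _ ≤ _ := pow_le_pow_right₀ (by linarith) (le_max_right _ _)

end Pool.Agent.T6.H56.EA
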