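import Pool.Agent.T6.H56.EA.Runs

/-! Sums `k + m` where `k` runs over a dense set of rough integers and `m` over a set of positive lower density:
general form of `sums_pos`. -/

set_option autoImplicit false
set_option maxHeartbeats 1000000

open Finset Filter Topology

namespace Pool.Agent.T6.H56.EA

open Pool.Agent.TH882.DD (FF Ro)

/-- dense sets of rough integers -/
def Den (L A0 : ℕ) (δ c0 : ℝ) (P : ℕ → ℕ → Prop) : Prop :=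
  ∃ X₀ : ℕ, ∀ X : ℕ, X₀ ≤ X → ∃ U : Finset ℕ, U.card = L ∧ U.Nonempty ∧ (∀ u ∈ U, u ≤ A0) ∧
    ∃ s ≤ A0 + 1, ∃ K : Finset ℕ,
    (∀ k ∈ K, s ≤ 6 * k ∧ 6 * k - s ∈ Ico (6 * X) (2 * (6 * X)) ∧ Ro δ (6 * X) U (6 * k - s) ∧
      1 ≤ k ∧ P X k) ∧
    c0 * (((6 * X : ℕ) : ℝ) * FF δ (6 * X) ^ L) ≤ (K.card : ℝ)

/-- the general statement -/
theorem sumsG (L A0 : ℕ) (δ c0 : ℝ) (hδ : 0 < δ) (hδ1 : δ ≤ 1) (hc0 : 0 < c0) (P : ℕ → ℕ → Prop)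
    (hP : Den L A0 δ c0 P) : ∃ C2 : ℝ, 0 < C2 ∧ ∀ E : ℝ, 0 < E → ∃ c : ℝ, 0 < c ∧
    ∃ X₀ : ℕ, ∀ X : ℕ, X₀ ≤ X → ∀ (S : Finset ℕ) (T q : ℕ), S ⊆ Icc 1 T → A0 ≤ T → 2 * T ≤ X →
    (C2 * Real.log X) ^ L ≤ (S.card : ℝ) → 1 ≤ q → 112 * ((L * L : ℕ) : ℝ) * T ≤ E ^ q * S.card →
    ∃ I : Finset ℕ, I ⊆ Ioc X (3 * X) ∧
      (∀ n ∈ I, ∃ k m : ℕ, 1 ≤ k ∧ k + m = n ∧ m ∈ S ∧ P X k) ∧
      c * X ≤ (I.card : ℝ) * Real.log ((2 * q * (L * L) + 3 : ℕ) : ℝ) ^ (2 * (L * L)) := by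
  classical
  obtain ⟨X1, h1⟩ := hP
  obtain ⟨w0, δ', hδ', hδ1', C, hC, X2, hR⟩ := RD_upper L A0 δ hδ hδ1
  refine ⟨2 * C, by positivity, ?_⟩
  intro E hE
  obtain ⟨D, hD, X3, h3⟩ := core L A0 δ c0 E hδ hδ1 hc0 hE
  refine ⟨6 / D, by positivity, max (max X1 X2) (max X3 (A0 + 7)), ?_⟩
  intro X hX S T q hS hAT hTX hSc hq hET
  have hX1 : X1 ≤ X := by omega
  have hX2 : X2 ≤ 6 * X := by omega
  have hX3 : X3 ≤ 6 * X := by omega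
  have hX7 : A0 + 7 ≤ X := by omega
  have hXr : (7 : ℝ) ≤ X := by exact_mod_cast (by omega : 7 ≤ X)
  have hX0 : (0 : ℝ) < X := by linarith
  have hlog : 1 ≤ Real.log X := by
    rw [Real.le_log_iff_exp_le hX0]
    have := Real.exp_one_lt_d9
    linarith
  obtain ⟨U, hUc, hUne, hUA, s, hs, K, hK, hKc⟩ := h1 X hX1
  obtain ⟨hF0, hFl, -⟩ := hR (6 * X) hX2
  have hlog6 : Real.log ((6 * X : ℕ) : ℝ) ≤ 2 * Real.log X := by
    push_cast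
    rw [Real.log_mul (by norm_num) hX0.ne']
    have : Real.log 6 ≤ Real.log X := Real.log_le_log (by norm_num) (by linarith)
    linarith
  have hlog60 : 0 < Real.log ((6 * X : ℕ) : ℝ) := by
    apply Real.log_pos
    push_cast
    linarith
  have hFF : 1 ≤ 2 * C * Real.log X * FF δ (6 * X) := by
    rw [div_le_iff₀ hlog60] at hFl
    calc 1 ≤ C * FF δ (6 * X) * Real.log ((6 * X : ℕ) : ℝ) := hFl
      _ ≤ C * FF δ (6 * X) * (2 * Real.log X) := mul_le_mul_of_nonneg_left hlog6 (by positivity)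
      _ = _ := by ring
  have hS1 : 1 ≤ (S.card : ℝ) * FF δ (6 * X) ^ L := by
    calc (1 : ℝ) ≤ (2 * C * Real.log X * FF δ (6 * X)) ^ L := one_le_pow₀ hFF
      _ = (2 * C * Real.log X) ^ L * FF δ (6 * X) ^ L := by rw [mul_pow]
      _ ≤ _ := mul_le_mul_of_nonneg_right hSc (by positivity)
  have hmain := h3 (6 * X) hX3 U hUc hUne hUA s K (fun k hk => ⟨(hK k hk).1, (hK k hk).2.1,
    (hK k hk).2.2.1⟩) hKc S T q hS hAT hS1 hq hET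
  refine ⟨(S ×ˢ K).image (fun z => z.1 + z.2), ?_, ?_, ?_⟩
  · intro n hn
    rw [mem_image] at hn
    obtain ⟨z, hz, rfl⟩ := hn
    rw [mem_product] at hz
    have h4 := mem_Icc.1 (hS hz.1)
    obtain ⟨h5, h6, -⟩ := hK _ hz.2
    rw [mem_Ico] at h6
    rw [mem_Ioc]
    omega
  · intro n hn
    rw [mem_image] at hn
    obtain ⟨z, hz, rfl⟩ := hn
    rw [mem_product] at hz
    obtain ⟨-, -, -, h7, h8⟩ := hK _ hz.2
    exact ⟨z.2, z.1, h7, by omega, hz.1, h8⟩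
  · rw [div_mul_eq_mul_div, div_le_iff₀ hD]
    push_cast at hmain ⊢
    linarith

/-- the sums -/
def SmG (P : ℕ → ℕ → Prop) (A : ℕ) (M : Set ℕ) (X : ℕ) : Set ℕ :=
  {n : ℕ | X < n ∧ n ≤ 3 * X ∧ ∃ k m : ℕ, 1 ≤ k ∧ 1 ≤ m ∧ k + m = n ∧ m ∈ M ∧
    (m : ℝ) ≤ Real.log X ^ A ∧ P X k}

lemma SmG_finite (P : ℕ → ℕ → Prop) (A : ℕ) (M : Set ℕ) (X : ℕ) : (SmG P A M X).Finite := by
  apply (finite_toSet (Icc 1 (3 * X))).subset
  rintro n ⟨h1, h2, -⟩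
  rw [mem_coe, mem_Icc]
  omega

/-- sets of positive lower density -/
theorem posG (L A0 : ℕ) (δ c0 : ℝ) (hδ : 0 < δ) (hδ1 : δ ≤ 1) (hc0 : 0 < c0) (P : ℕ → ℕ → Prop)
    (hP : Den L A0 δ c0 P) (M : Set ℕ) (η : ℝ) (hη : 0 < η)
    (hM : ∀ᶠ t : ℕ in atTop, η * t ≤ (cnt M t : ℝ)) : ∃ c : ℝ, 0 < c ∧ ∀ᶠ X : ℕ in atTop,
    c * X ≤ ((SmG P (L + 1) M X).ncard : ℝ) := by
  classical
  obtain ⟨C2, hC2, h⟩ := sumsG L A0 δ c0 hδ hδ1 hc0 P hP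
  set E : ℝ := (112 * ((L * L : ℕ) : ℝ) + 1) / η with hE
  have hE0 : 0 < E := by rw [hE]; positivity
  obtain ⟨c, hc, X1, h1⟩ := h E hE0
  set W : ℝ := Real.log ((2 * 1 * (L * L) + 3 : ℕ) : ℝ) ^ (2 * (L * L)) with hW
  have hW0 : 0 < W := by
    rw [hW]
    have : 0 < Real.log ((2 * 1 * (L * L) + 3 : ℕ) : ℝ) := by
      apply Real.log_pos
      exact_mod_cast (by omega : 1 < 2 * 1 * (L * L) + 3)
    positivity
  have hTt : Tendsto (fun X : ℕ => ⌊Real.log X ^ (L + 1)⌋₊) atTop atTop :=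
    tendsto_nat_floor_atTop.comp ((tendsto_pow_atTop (by omega)).comp
      (Real.tendsto_log_atTop.comp tendsto_natCast_atTop_atTop))
  refine ⟨c / W, by positivity, ?_⟩
  filter_upwards [ev_par L A0 0 C2 η hC2 hη, hTt.eventually hM, eventually_ge_atTop X1] with
    X ⟨e1, e2, e3, e4⟩ e5 e6
  set T : ℕ := ⌊Real.log X ^ (L + 1)⌋₊ with hT
  have hTle : (T : ℝ) ≤ Real.log X ^ (L + 1) := Nat.floor_le (by positivity)
  have hAT : A0 ≤ T := by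
    apply Nat.le_floor
    calc (A0 : ℝ) ≤ Real.log X := by linarith
      _ = Real.log X ^ 1 := (pow_one _).symm
      _ ≤ _ := pow_le_pow_right₀ e1 (by omega)
  set S : Finset ℕ := (Icc 1 T).filter (fun m => m ∈ M) with hS
  have hSc : η * T ≤ (S.card : ℝ) := e5
  rw [pow_zero, mul_one] at e4
  obtain ⟨I, hI1, hI2, hI3⟩ := h1 X e6 S T 1 (filter_subset _ _) hAT e3 (e4.trans hSc) le_rfl (by
    rw [pow_one, hE, div_mul_eq_mul_div, le_div_iff₀ hη]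
    have hT0 : (0 : ℝ) ≤ T := Nat.cast_nonneg _
    calc 112 * ((L * L : ℕ) : ℝ) * T * η = 112 * ((L * L : ℕ) : ℝ) * (η * T) := by ring
      _ ≤ (112 * ((L * L : ℕ) : ℝ) + 1) * (η * T) := by
          apply mul_le_mul_of_nonneg_right _ (by positivity)
          linarith
      _ ≤ _ := mul_le_mul_of_nonneg_left hSc (by positivity))
  rw [← hW] at hI3
  rw [div_mul_eq_mul_div, div_le_iff₀ hW0]
  refine hI3.trans ?_
  apply mul_le_mul_of_nonneg_right _ hW0.le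
  rw [← Set.ncard_coe_finset I]
  apply Nat.cast_le.2
  apply Set.ncard_le_ncard _ (SmG_finite _ _ _ _)
  intro n hn
  obtain ⟨k, m, h2, h3, h4, h5⟩ := hI2 n (mem_coe.1 hn)
  have h6 := mem_Ioc.1 (hI1 (mem_coe.1 hn))
  rw [hS, mem_filter, mem_Icc] at h4
  refine ⟨h6.1, h6.2, k, m, h2, h4.1.1, h3, h4.2, ?_, h5⟩
  refine le_trans ?_ hTle
  exact_mod_cast h4.1.2

end Pool.Agent.T6.H56.EA
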