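import Pool.Agent.T6.H56.EA.Grid
import Pool.Agent.T6.H56.EA.Gen

/-! Isolated Chen pairs in one-coloured progressions plus the elements of a set of positive lower density: a
positive proportion of the integers. -/

set_option autoImplicit false
set_option maxHeartbeats 1000000

open Finset Filter

namespace Pool.Agent.T6.H56.EA

open Pool.Agent.H361R2.PP
open Pool.Agent.TH882.UB
open Pool.Agent.TH882.DD (FF Ro)

/-- upper bound of `FF` -/
lemma FF_up (δ : ℝ) (hδ : 0 < δ) (hδ1 : δ ≤ 1) : ∃ C : ℝ, 0 < C ∧ ∃ X₀ : ℕ, ∀ X : ℕ, X₀ ≤ X →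
    FF δ X * Real.log X ≤ C := by
  obtain ⟨C, hC, h⟩ := Pool.Agent.W70.HR.mer
  obtain ⟨X₀, h⟩ := h δ hδ hδ1
  refine ⟨C / δ, by positivity, X₀, fun X hX => ?_⟩
  have h1 := (h X hX).2.1
  rw [le_div_iff₀ hδ]
  refine le_trans (le_of_eq ?_) h1
  unfold FF VV
  ring

/-- the first terms of one-coloured progressions of isolated Chen pairs -/
def Ft (s c : ℕ) (ε β : ℝ) {q : ℕ} (χ : ℕ → ℕ → Fin q) (X k : ℕ) : Prop :=
  X < k ∧ k ≤ 2 * X ∧ ∃ d : ℕ, 1 ≤ d ∧ (d : ℝ) ≤ Real.log X ^ c ∧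
    ∀ i < s, CI X (ε * Real.log X) ((X : ℝ) ^ β) (k + i * d) ∧ χ X (k + i * d) = χ X k

theorem den_ch (s q c : ℕ) (hs : 1 ≤ s) (ε β κ : ℝ) (hκ : 0 < κ) (χ : ℕ → ℕ → Fin q)
    (h : ∀ᶠ X : ℕ in atTop, κ * X / Real.log X ^ 2 ≤
      ((({k : ℕ | Ft s c ε β χ X k} : Set ℕ).ncard : ℕ) : ℝ)) :
    ∃ c0 : ℝ, 0 < c0 ∧ Den 2 2 (1 / 10) c0 (Ft s c ε β χ) := by
  classical
  obtain ⟨C, hC, X1, hF⟩ := FF_up (1 / 10) (by norm_num) (by norm_num)
  obtain ⟨X2, hJ⟩ := JJ_size (1 / 10) (by norm_num) (by norm_num) 1 (1 / 10) (by norm_num)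
  obtain ⟨X3, h3⟩ := eventually_atTop.1 h
  have hpow : ∀ᶠ X : ℕ in atTop, (6 : ℝ) ^ (1 / 10 : ℝ) ≤ (X : ℝ) ^ (1 / 90 : ℝ) :=
    ((tendsto_rpow_atTop (by norm_num : (0 : ℝ) < 1 / 90)).comp
      tendsto_natCast_atTop_atTop).eventually_ge_atTop _
  obtain ⟨X4, h4⟩ := eventually_atTop.1 hpow
  refine ⟨κ / (6 * C ^ 2), by positivity, max (max X1 X2) (max (max X3 X4) 3), ?_⟩
  intro X hX
  have hX1 : X1 ≤ 6 * X := by omega
  have hX2 : X2 ≤ 6 * X := by omega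
  have hX3 : X3 ≤ X := by omega
  have hX4 : X4 ≤ X := by omega
  have hX5 : 3 ≤ X := by omega
  have hX0 : (0 : ℝ) < X := by exact_mod_cast (by omega : 0 < X)
  have hXr : (3 : ℝ) ≤ X := by exact_mod_cast hX5
  have hlog : 0 < Real.log X := Real.log_pos (by linarith)
  have hfin : ({k : ℕ | Ft s c ε β χ X k} : Set ℕ).Finite :=
    (Set.finite_Iic (2 * X)).subset (fun k hk => hk.2.1)
  have hsz : ((2 ^ 2 ^ JJ (1 / 10) (6 * X) : ℕ) : ℝ) ≤ (X : ℝ) ^ (1 / 9 : ℝ) := by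
    have h5 := (hJ (6 * X) hX2).2.1
    rw [pow_one] at h5
    refine h5.trans ?_
    push_cast
    rw [Real.mul_rpow (by norm_num) hX0.le]
    calc (6 : ℝ) ^ (1 / 10 : ℝ) * (X : ℝ) ^ (1 / 10 : ℝ) ≤ (X : ℝ) ^ (1 / 90 : ℝ) * (X : ℝ) ^ (1 / 10 : ℝ) :=
          mul_le_mul_of_nonneg_right (h4 X hX4) (by positivity)
      _ = (X : ℝ) ^ (1 / 9 : ℝ) := by
          rw [← Real.rpow_add hX0]
          norm_num
  have hsz2 : (X : ℝ) ^ (1 / 9 : ℝ) ≤ X := by
    calc (X : ℝ) ^ (1 / 9 : ℝ) ≤ (X : ℝ) ^ (1 : ℝ) :=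
          Real.rpow_le_rpow_of_exponent_le (by linarith) (by norm_num)
      _ = X := Real.rpow_one _
  refine ⟨{0, 2}, by decide, ⟨0, by simp⟩, by simp, 1, by omega, hfin.toFinset, ?_, ?_⟩
  · intro k hk
    rw [Set.Finite.mem_toFinset] at hk
    have hk' := hk
    obtain ⟨k1, k2, d, -, -, k3⟩ := hk
    obtain ⟨k4, k5, k6, -⟩ := (k3 0 (by omega)).1
    rw [zero_mul, add_zero] at k4 k5 k6
    refine ⟨by omega, ?_, ?_, by omega, hk'⟩
    · rw [mem_Ico]
      omega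
    · intro u hu p hp hpl hd
      have hpl' : (p : ℝ) < (X : ℝ) ^ (1 / 9 : ℝ) :=
        lt_of_lt_of_le (by exact_mod_cast hpl) hsz
      rw [mem_insert, mem_singleton] at hu
      rcases hu with rfl | rfl
      · rw [add_zero] at hd
        have h6 := (Nat.prime_dvd_prime_iff_eq hp k4).1 hd
        have h7 : (p : ℝ) < X := lt_of_lt_of_le hpl' hsz2
        have h8 : p < X := by exact_mod_cast h7
        omega
      · have e1 : 6 * k - 1 + 2 = 6 * k + 1 := by omega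
        rw [e1] at hd
        have := k6 p hp hd
        linarith
  · have h5 := h3 X hX3
    rw [Set.ncard_eq_toFinset_card _ hfin] at h5
    refine le_trans ?_ h5
    have h6 := hF (6 * X) hX1
    have h7 : FF (1 / 10) (6 * X) ≤ C / Real.log X := by
      have hl : Real.log X ≤ Real.log ((6 * X : ℕ) : ℝ) := by
        apply Real.log_le_log hX0
        push_cast
        linarith
      rw [le_div_iff₀ hlog]
      by_cases hF0 : 0 ≤ FF (1 / 10) (6 * X)
      · exact (mul_le_mul_of_nonneg_left hl hF0).trans h6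
      · have : FF (1 / 10) (6 * X) * Real.log X ≤ 0 :=
          mul_nonpos_of_nonpos_of_nonneg (by linarith) hlog.le
        linarith
    have hF0 : 0 ≤ FF (1 / 10) (6 * X) := by
      unfold FF
      apply mul_nonneg _ (by positivity)
      unfold VV
      apply prod_nonneg
      intro p hp
      have hp2 : p.Prime := by
        unfold P1 at hp
        exact (mem_filter.1 hp).2.1
      have : (2 : ℝ) ≤ p := by exact_mod_cast hp2.two_le
      rw [sub_nonneg, div_le_one (by linarith)]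
      linarith
    calc κ / (6 * C ^ 2) * (((6 * X : ℕ) : ℝ) * FF (1 / 10) (6 * X) ^ 2)
        ≤ κ / (6 * C ^ 2) * (((6 * X : ℕ) : ℝ) * (C / Real.log X) ^ 2) := by
          apply mul_le_mul_of_nonneg_left _ (by positivity)
          apply mul_le_mul_of_nonneg_left _ (by positivity)
          exact pow_le_pow_left₀ hF0 h7 2
      _ = κ * X / Real.log X ^ 2 := by
          push_cast
          field_simp

/-- **positive proportion** -/
theorem chp (β : ℝ) (hβ : 0 < β) : ∃ ε : ℝ, 0 < ε ∧ ∀ s q : ℕ, 1 ≤ s → ∃ A : ℕ,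
    ∀ (M : Set ℕ) (η : ℝ), 0 < η → (∀ᶠ t : ℕ in atTop, η * t ≤ (cnt M t : ℝ)) →
    ∀ χ : ℕ → ℕ → Fin q, ∃ c : ℝ, 0 < c ∧ ∀ᶠ X : ℕ in atTop,
      c * X ≤ ((SmG (Ft s A ε β χ) 3 M X).ncard : ℝ) := by
  classical
  obtain ⟨ε, hε, HM⟩ := many_terms β hβ
  refine ⟨ε, hε, fun s q hs => ?_⟩
  obtain ⟨c, κ, hκ, HM⟩ := HM s q hs
  refine ⟨c, fun M η hη hM χ => ?_⟩
  obtain ⟨c0, hc0, hden⟩ := den_ch s q c hs ε β κ hκ χ (by
    filter_upwards [HM χ] with X hX
    refine hX.trans ?_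
    apply le_of_eq
    rw [← Set.ncard_coe_finset]
    congr 2
    ext k
    simp only [coe_filter, mem_Ioc, Set.mem_setOf_eq]
    unfold Ft
    tauto)
  exact posG 2 2 (1 / 10) c0 (by norm_num) (by norm_num) hc0 _ hden M η hη hM

end Pool.Agent.T6.H56.EA
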