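import Pool.Agent.T6.H56.EA.Gen

/-! Sums `k + m` where `k` runs over a dense set of rough integers and `m` over a set which is not too sparse:
general form of `sums_log`. -/

set_option autoImplicit false
set_option maxHeartbeats 1000000

open Finset Filter Topology

namespace Pool.Agent.T6.H56.EA

open Pool.Agent.TH882.DD (FF Ro)

/-- sets which are not too sparse -/
theorem logG (L A0 : ℕ) (δ c0 : ℝ) (hδ : 0 < δ) (hδ1 : δ ≤ 1) (hc0 : 0 < c0) (P : ℕ → ℕ → Prop)
    (hP : Den L A0 δ c0 P) (M : Set ℕ) (B : ℕ)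
    (hM : ∀ᶠ t : ℕ in atTop, (t : ℝ) / Real.log t ^ B ≤ (cnt M t : ℝ)) : ∃ c : ℝ, 0 < c ∧
    ∀ᶠ X : ℕ in atTop, c * X / Real.log (Real.log (Real.log (Real.log X))) ^ (2 * (L * L)) ≤
      ((SmG P (L + 1) M X).ncard : ℝ) := by
  classical
  obtain ⟨C2, hC2, h⟩ := sumsG L A0 δ c0 hδ hδ1 hc0 P hP
  set Q0 : ℝ := 112 * ((L * L : ℕ) : ℝ) + 1 with hQ0
  have hQ01 : 1 ≤ Q0 := by
    rw [hQ0]
    have : (0 : ℝ) ≤ ((L * L : ℕ) : ℝ) := Nat.cast_nonneg _
    linarith
  set E : ℝ := Real.exp B * Q0 with hE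
  have hE0 : 0 < E := by rw [hE]; positivity
  obtain ⟨c, hc, X1, h1⟩ := h E hE0
  have hTt : Tendsto (fun X : ℕ => ⌊Real.log X ^ (L + 1)⌋₊) atTop atTop :=
    tendsto_nat_floor_atTop.comp ((tendsto_pow_atTop (by omega)).comp
      (Real.tendsto_log_atTop.comp tendsto_natCast_atTop_atTop))
  have hlogt : Tendsto (fun x : ℕ => Real.log (x : ℝ)) atTop atTop :=
    Real.tendsto_log_atTop.comp tendsto_natCast_atTop_atTop
  have hl1 := Real.tendsto_log_atTop
  have hl3 : Tendsto (fun y : ℝ => Real.log (Real.log y)) atTop atTop := hl1.comp hl1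
  have hl4 : Tendsto (fun y : ℝ => Real.log (Real.log (Real.log y))) atTop atTop := hl1.comp hl3
  refine ⟨c / 2 ^ (2 * (L * L)), by positivity, ?_⟩
  filter_upwards [ev_par L A0 B C2 1 hC2 one_pos, hTt.eventually hM, eventually_ge_atTop X1,
    (hl1.comp hlogt).eventually_ge_atTop ((L : ℝ) + 1),
    (hl3.comp hlogt).eventually_ge_atTop ((2 * (L * L) : ℕ) * 4 + 10 : ℝ),
    (hl4.comp hlogt).eventually_ge_atTop (1 : ℝ),
    hTt.eventually_ge_atTop 3] with
    X ⟨e1, e2, e3, e4⟩ e5 e6 e7 e8 e9 e10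
  simp only [Function.comp_apply] at e7 e8 e9
  set y : ℝ := Real.log X with hy
  set T : ℕ := ⌊y ^ (L + 1)⌋₊ with hT
  have hTle : (T : ℝ) ≤ y ^ (L + 1) := Nat.floor_le (by positivity)
  have hAT : A0 ≤ T := by
    apply Nat.le_floor
    calc (A0 : ℝ) ≤ y := by linarith
      _ = y ^ 1 := (pow_one _).symm
      _ ≤ _ := pow_le_pow_right₀ e1 (by omega)
  have hT3 : (3 : ℝ) ≤ T := by exact_mod_cast e10
  set S : Finset ℕ := (Icc 1 T).filter (fun m => m ∈ M) with hS
  have hSc : (T : ℝ) / Real.log T ^ B ≤ (S.card : ℝ) := e5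
  have hlT1 : 1 ≤ Real.log T := by
    rw [Real.le_log_iff_exp_le (by linarith)]
    have := Real.exp_one_lt_d9
    linarith
  have hlTB : 0 < Real.log T ^ B := by positivity
  have hSc2 : (T : ℝ) ≤ S.card * Real.log T ^ B := by
    rwa [div_le_iff₀ hlTB] at hSc
  have hlly : 1 ≤ Real.log y := by
    have : (0 : ℝ) ≤ L := Nat.cast_nonneg _
    linarith
  have hlT : Real.log T ≤ (L + 1 : ℕ) * Real.log y := by
    rw [← Real.log_pow]
    exact Real.log_le_log (by linarith) hTle
  have hllT : Real.log (Real.log T) ≤ 2 * Real.log (Real.log y) := by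
    calc Real.log (Real.log T) ≤ Real.log (Real.log y * Real.log y) := by
          apply Real.log_le_log (by linarith)
          refine hlT.trans ?_
          apply mul_le_mul_of_nonneg_right _ (by linarith)
          push_cast
          exact e7
      _ = 2 * Real.log (Real.log y) := by
          rw [Real.log_mul (by linarith) (by linarith)]
          ring
  have hllT0 : 0 ≤ Real.log (Real.log T) := Real.log_nonneg hlT1
  obtain ⟨q, hq⟩ : ∃ q : ℕ, q = ⌈Real.log (Real.log T)⌉₊ + 1 := ⟨_, rfl⟩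
  have hq1 : 1 ≤ q := by omega
  have hqge : Real.log (Real.log T) ≤ q := by
    have := Nat.le_ceil (Real.log (Real.log T))
    rw [hq]
    push_cast
    linarith
  have hqle : (q : ℝ) ≤ 2 * Real.log (Real.log y) + 2 := by
    have := Nat.ceil_lt_add_one hllT0
    rw [hq]
    push_cast
    linarith
  have hET : 112 * ((L * L : ℕ) : ℝ) * T ≤ E ^ q * S.card := by
    have h2 : Real.log T ^ B ≤ Real.exp B ^ q := by
      calc Real.log T ^ B = Real.exp (B * Real.log (Real.log T)) := by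
            rw [Real.exp_nat_mul, Real.exp_log (by linarith)]
        _ ≤ Real.exp (B * q) := by
            apply Real.exp_le_exp.mpr
            gcongr
        _ = Real.exp B ^ q := by
            rw [mul_comm, Real.exp_nat_mul]
    have h3 : 112 * ((L * L : ℕ) : ℝ) ≤ Q0 ^ q := by
      calc 112 * ((L * L : ℕ) : ℝ) ≤ Q0 := by rw [hQ0]; linarith
        _ = Q0 ^ 1 := (pow_one _).symm
        _ ≤ Q0 ^ q := pow_le_pow_right₀ hQ01 hq1
    calc 112 * ((L * L : ℕ) : ℝ) * T ≤ Q0 ^ q * (S.card * Real.log T ^ B) := by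
          apply mul_le_mul h3 hSc2 (by positivity) (by positivity)
      _ ≤ Q0 ^ q * (S.card * Real.exp B ^ q) := by gcongr
      _ = E ^ q * S.card := by
          rw [hE, mul_pow]
          ring
  have hSL : (C2 * y) ^ L ≤ (S.card : ℝ) := by
    have h2 : (C2 * y) ^ L * Real.log T ^ B ≤ S.card * Real.log T ^ B := by
      rw [one_mul] at e4
      exact e4.trans hSc2
    exact le_of_mul_le_mul_right h2 hlTB
  obtain ⟨I, hI1, hI2, hI3⟩ := h1 X e6 S T q (filter_subset _ _) hAT e3 hSL hq1 hET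
  -- the logarithm
  set l : ℝ := Real.log (Real.log (Real.log y)) with hl
  have hw : Real.log ((2 * q * (L * L) + 3 : ℕ) : ℝ) ≤ 2 * l := by
    have h2 : ((2 * q * (L * L) + 3 : ℕ) : ℝ) ≤ Real.log (Real.log y) * Real.log (Real.log y) := by
      have hLL : (0 : ℝ) ≤ (L : ℝ) * L := by positivity
      push_cast at e8 ⊢
      have h5 : 2 * (q : ℝ) * (L * L) ≤ 2 * (2 * Real.log (Real.log y) + 2) * (L * L) := by gcongr
      nlinarith
    calc Real.log ((2 * q * (L * L) + 3 : ℕ) : ℝ) ≤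
        Real.log (Real.log (Real.log y) * Real.log (Real.log y)) := by
          apply Real.log_le_log _ h2
          exact_mod_cast (by omega : 0 < 2 * q * (L * L) + 3)
      _ = 2 * l := by
          have h3 : Real.log (Real.log y) ≠ 0 := by
            intro h4
            rw [h4] at e8
            have : (0 : ℝ) ≤ ((2 * (L * L) : ℕ) : ℝ) := Nat.cast_nonneg _
            linarith
          rw [Real.log_mul h3 h3, hl]
          ring
  have hw0 : 0 ≤ Real.log ((2 * q * (L * L) + 3 : ℕ) : ℝ) := by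
    apply Real.log_nonneg
    exact_mod_cast (by omega : 1 ≤ 2 * q * (L * L) + 3)
  have hl1' : 1 ≤ l := e9
  rw [div_le_iff₀ (by positivity)]
  have h2 : c * X ≤ (I.card : ℝ) * (2 * l) ^ (2 * (L * L)) := by
    refine hI3.trans ?_
    apply mul_le_mul_of_nonneg_left _ (Nat.cast_nonneg _)
    exact pow_le_pow_left₀ hw0 hw _
  have h3 : (I.card : ℝ) ≤ ((SmG P (L + 1) M X).ncard : ℝ) := by
    rw [← Set.ncard_coe_finset I]
    apply Nat.cast_le.2
    apply Set.ncard_le_ncard _ (SmG_finite _ _ _ _)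
    intro n hn
    obtain ⟨k, m, h2, h3, h4, h5⟩ := hI2 n (mem_coe.1 hn)
    have h6 := mem_Ioc.1 (hI1 (mem_coe.1 hn))
    rw [hS, mem_filter, mem_Icc] at h4
    refine ⟨h6.1, h6.2, k, m, h2, h4.1.1, h3, h4.2, ?_, h5⟩
    have h7 : (m : ℝ) ≤ T := by exact_mod_cast h4.1.2
    exact h7.trans hTle
  calc c / 2 ^ (2 * (L * L)) * X = c * X / 2 ^ (2 * (L * L)) := by ring
    _ ≤ (I.card : ℝ) * (2 * l) ^ (2 * (L * L)) / 2 ^ (2 * (L * L)) :=
        div_le_div_of_nonneg_right h2 (by positivity)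
    _ = (I.card : ℝ) * l ^ (2 * (L * L)) := by
        rw [mul_pow]
        field_simp
    _ ≤ _ := mul_le_mul_of_nonneg_right h3 (by positivity)

end Pool.Agent.T6.H56.EA
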