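import Pool.Agent.T6.H56.EA.ChP
import Pool.Agent.T6.H56.EA.LogG

/-! Isolated Chen constellations in one-coloured progressions: dense sets of rough integers. -/

set_option autoImplicit false
set_option maxHeartbeats 1000000

open Finset Filter

namespace Pool.Agent.T6.H56.EA

open Pool.Agent.X32.Uni Pool.Agent.T6.H2.PT
open Pool.Agent.H361R2.PP
open Pool.Agent.TH882.UB
open Pool.Agent.TH882.DD (FF Ro)

variable {K : ℕ}

/-- `ν + h i` is a prime, `ν + h j` a `P₂`, all `ν + h l` are products of at most `t` primes, all large, and every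
other integer near one of these numbers has a prime factor `≤ y` -/
def Con (h : Fin K → ℕ) (i j : Fin K) (t X : ℕ) (w y : ℝ) (ν : ℕ) : Prop :=
  (ν + h i).Prime ∧ AlmostN 2 ((X : ℝ) ^ (1 / 9 : ℝ)) (ν + h j) ∧
    (∀ l, AlmostN t ((X : ℝ) ^ (1 / (t : ℝ))) (ν + h l)) ∧
    ∀ l, ∀ z : ℤ, |(z : ℝ) - ((ν + h l : ℕ) : ℝ)| ≤ w → (∀ u, z ≠ ((ν + h u : ℕ) : ℤ)) →
      ∃ q : ℕ, q.Prime ∧ (q : ℝ) ≤ y ∧ (q : ℤ) ∣ z

/-- the slopes and the constant terms of `6 k - s + h l` -/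
def aC : Fin K → ℤ := fun _ => 6
def bC (h : Fin K → ℕ) (s : ℕ) : Fin K → ℤ := fun l => (h l : ℤ) - s

/-- the local condition for `6 k - s + h l` -/
def AdmS (h : Fin K → ℕ) (s : ℕ) : Prop :=
  ∀ p : ℕ, p.Prime → ∃ n : ℕ, ∀ l, ¬ (p : ℤ) ∣ 6 * (n : ℤ) + ((h l : ℤ) - s)

/-- the local condition -/
def AdmN (h : Fin K → ℕ) : Prop := ∀ p : ℕ, p.Prime → ∃ n : ℕ, ∀ l, ¬ p ∣ n + h l

lemma admS_of (h : Fin K → ℕ) (hh : AdmN h) : ∃ s : ℕ, 1 ≤ s ∧ s ≤ 6 ∧ AdmS h s := by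
  obtain ⟨n2, h2⟩ := hh 2 Nat.prime_two
  obtain ⟨n3, h3⟩ := hh 3 Nat.prime_three
  refine ⟨6 - (3 * n2 + 4 * n3) % 6, by omega, by omega, ?_⟩
  intro p hp
  by_cases hp2 : p = 2
  · subst hp2
    refine ⟨0, fun l hd => h2 l ?_⟩
    omega
  by_cases hp3 : p = 3
  · subst hp3
    refine ⟨0, fun l hd => h3 l ?_⟩
    omega
  have hcop : Nat.Coprime 6 p := by
    have e2 : Nat.Coprime 2 p := (Nat.coprime_primes Nat.prime_two hp).2 (Ne.symm hp2)
    have e3 : Nat.Coprime 3 p := (Nat.coprime_primes Nat.prime_three hp).2 (Ne.symm hp3)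
    exact Nat.Coprime.mul_left e2 e3
  obtain ⟨n, hn⟩ := hh p hp
  obtain ⟨s, hs⟩ : ∃ s : ℕ, s = 6 - (3 * n2 + 4 * n3) % 6 := ⟨_, rfl⟩
  rw [← hs]
  obtain ⟨m, hm1, hm2⟩ : ∃ m : ℕ, m < p ∧ 6 * m ≡ n + s [MOD p] := by
    have : Fact p.Prime := ⟨hp⟩
    have h6 : ((6 : ℕ) : ZMod p) ≠ 0 := by
      intro h0
      rw [ZMod.natCast_eq_zero_iff] at h0
      have := Nat.Coprime.symm hcop
      have h7 := Nat.Coprime.eq_one_of_dvd this h0
      exact hp.one_lt.ne' h7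
    refine ⟨(((n + s : ℕ) : ZMod p) / ((6 : ℕ) : ZMod p)).val, ZMod.val_lt _, ?_⟩
    rw [← ZMod.natCast_eq_natCast_iff]
    push_cast
    rw [ZMod.natCast_zmod_val]
    push_cast at h6
    field_simp
  refine ⟨m, fun l hd => hn l ?_⟩
  have h8 : (p : ℤ) ∣ (6 * (m : ℤ)) - (n + s) := by
    have := (Nat.modEq_iff_dvd.1 hm2.symm)
    push_cast at this
    exact this
  have h9 : (p : ℤ) ∣ ((n + h l : ℕ) : ℤ) := by
    have : ((n + h l : ℕ) : ℤ) = (6 * (m : ℤ) + ((h l : ℤ) - s)) - (6 * (m : ℤ) - (n + s)) := by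
      push_cast
      ring
    rw [this]
    exact dvd_sub hd h8
  exact_mod_cast h9

lemma sysC (h : Fin K → ℕ) (s H X : ℕ) (i j : Fin K) (hij : h i ≠ h j) (hs : s ≤ 6) (hH : ∀ l, h l ≤ H)
    (hX : 1 ≤ X) (hA : AdmS h s) : SysL K 6 (H + 6) X aC (bC h s) i j where
  a0 := fun l => by unfold aC; norm_num
  aE := by unfold aC; decide
  aE' := by unfold aC; decide
  aK := fun l => by
    unfold aC
    rw [abs_of_pos (by norm_num)]
    push_cast
    have : (0 : ℤ) ≤ H := by positivity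
    linarith
  bK := fun l => by
    unfold bC
    have h1 : (h l : ℤ) ≤ H := by exact_mod_cast hH l
    have h2 : (s : ℤ) ≤ 6 := by exact_mod_cast hs
    have h3 : (1 : ℤ) ≤ X := by exact_mod_cast hX
    have h4 : (0 : ℤ) ≤ (h l : ℤ) := by positivity
    have h5 : (0 : ℤ) ≤ (s : ℤ) := by positivity
    have h6 : ((H + 6 : ℕ) : ℤ) ≤ ((H + 6 : ℕ) : ℤ) * X := by
      have : (0 : ℤ) ≤ ((H + 6 : ℕ) : ℤ) := by positivity
      nlinarith
    refine le_trans ?_ h6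
    rw [abs_le]
    push_cast
    constructor <;> linarith
  adm := fun p hp => by
    obtain ⟨n, hn⟩ := hA p hp
    exact ⟨n, fun l => hn l⟩
  ne := by
    unfold aC bC
    intro h1
    have := congrArg Prod.snd h1
    simp only at this
    apply hij
    have h2 : (h i : ℤ) = h j := by linarith
    exact_mod_cast h2
  ne' := by
    unfold aC bC
    intro h1
    have := congrArg Prod.fst h1
    norm_num at this

/-- the good arguments of the system -/
lemma Con_of {h : Fin K → ℕ} {i j : Fin K} {s X X' t A B k : ℕ} {w w' y y' : ℝ} (ht : 1 ≤ t) (hX : X ≤ X')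
    (hs : s ≤ 6) (hw : w' ≤ w) (hy : y ≤ y') (hk : w' < 6 * k - s) (hk1 : 2 ≤ k)
    (hg : k ∈ GoodI aC (bC h s) i j t X' w y A B) : Con h i j t X w' y' (6 * k - s) := by
  classical
  unfold GoodI GoodL at hg
  rw [mem_filter, mem_filter] at hg
  obtain ⟨⟨-, h1, h2, h3⟩, h4⟩ := hg
  have e0 : ∀ l, aC l * (k : ℤ) + bC h s l = ((6 * k - s + h l : ℕ) : ℤ) := by
    intro l
    unfold aC bC
    rw [Nat.cast_add, Nat.cast_sub (by omega)]
    push_cast
    ring
  have hXX : ∀ e : ℝ, 0 ≤ e → (X : ℝ) ^ e ≤ (X' : ℝ) ^ e := fun e he =>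
    Real.rpow_le_rpow (Nat.cast_nonneg _) (by exact_mod_cast hX) he
  have hal : ∀ r : ℕ, ∀ e : ℝ, 0 ≤ e → ∀ l, Almost r ((X' : ℝ) ^ e) (aC l * (k : ℤ) + bC h s l) →
      AlmostN r ((X : ℝ) ^ e) (6 * k - s + h l) := by
    intro r e he l h5
    rw [e0, almostN_iff] at h5
    exact ⟨h5.1, h5.2.1, fun q hq hd => lt_of_le_of_lt (hXX e he) (h5.2.2 q hq hd)⟩
  rw [e0, Int.natAbs_natCast] at h1
  refine ⟨h1, hal 2 _ (by norm_num) j h2, fun l => hal t _ (by positivity) l (h3 l), ?_⟩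
  intro l z hz hzu
  have hz0 : 0 < z := by
    have h5 := (abs_le.1 hz).1
    have e1 : ((6 * k - s + h l : ℕ) : ℝ) = 6 * (k : ℝ) - s + h l := by
      rw [Nat.cast_add, Nat.cast_sub (by omega)]
      push_cast
      ring
    rw [e1] at h5
    have h6 : (0 : ℝ) ≤ h l := Nat.cast_nonneg _
    have h7 : (0 : ℝ) < z := by linarith
    exact_mod_cast h7
  obtain ⟨q, hq, hqy, hqd⟩ := h4 l z (by
    rw [e0]
    push_cast at hz ⊢
    exact hz.trans hw) (fun u => by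
    rw [e0]
    refine ⟨hzu u, ?_⟩
    have : (0 : ℤ) ≤ ((6 * k - s + h u : ℕ) : ℤ) := by positivity
    omega)
  exact ⟨q, hq, hqy.trans hy, hqd⟩

open Classical in
/-- many first terms of one-coloured progressions of isolated Chen constellations -/
theorem con_terms (K : ℕ) (hK : 1 ≤ K) : ∃ t : ℕ, 1 ≤ t ∧ ∀ (h : Fin K → ℕ) (i j : Fin K) (s0 : ℕ), s0 ≤ 6 →
    h i ≠ h j → AdmS h s0 → ∀ β : ℝ, 0 < β → ∃ ε : ℝ, 0 < ε ∧ ∀ (s q : ℕ), 1 ≤ s → ∃ c : ℕ, ∃ κ : ℝ, 0 < κ ∧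
    ∀ χ : ℕ → ℕ → Fin q, ∀ᶠ X : ℕ in atTop, κ * X / Real.log X ^ K ≤
      (((Finset.Ioc X (2 * X)).filter (fun k => ∃ d : ℕ, 1 ≤ d ∧ (d : ℝ) ≤ Real.log X ^ c ∧
        ∀ m < s, Con h i j t X (ε * Real.log X) ((X : ℝ) ^ β) (6 * (k + m * d) - s0) ∧
          χ X (k + m * d) = χ X k)).card : ℝ) := by
  obtain ⟨t, ht, κ, hκ, HM⟩ := isoP K 6 hK
  refine ⟨t, ht, fun h i j s0 hs0 hij hA β hβ => ?_⟩
  obtain ⟨H, hH⟩ : ∃ H : ℕ, ∀ l, h l ≤ H := ⟨∑ l, h l, fun l =>
    Finset.single_le_sum (f := h) (fun _ _ => Nat.zero_le _) (mem_univ l)⟩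
  obtain ⟨ε, hε, HM⟩ := HM (β / 2) (H + 6) (by positivity)
  refine ⟨ε / 2, by positivity, fun s q hs => ?_⟩
  obtain ⟨c, X₀, HM⟩ := HM s q (1 / 2) (κ / 2) hs (by norm_num) (by positivity)
  have hsr : (0 : ℝ) < s := by exact_mod_cast hs
  refine ⟨c + 1, κ / 2 * κ / (2 ^ K * s), by positivity, fun χ => ?_⟩
  have hlogt : Tendsto (fun x : ℕ => Real.log (x : ℝ)) atTop atTop :=
    Real.tendsto_log_atTop.comp tendsto_natCast_atTop_atTop
  have hpow : ∀ᶠ X : ℕ in atTop, (2 : ℝ) ^ (β / 2) ≤ (X : ℝ) ^ (β / 2) :=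
    ((tendsto_rpow_atTop (by positivity : (0 : ℝ) < β / 2)).comp
      tendsto_natCast_atTop_atTop).eventually_ge_atTop _
  have hsmall : ∀ᶠ X : ℕ in atTop, ε * Real.log X ≤ X := by
    have h := Real.isLittleO_log_id_atTop.bound (show (0 : ℝ) < 1 / ε by positivity)
    have h2 := (tendsto_natCast_atTop_atTop (R := ℝ)).eventually h
    filter_upwards [h2, eventually_ge_atTop 1] with X hX hX1
    have hX1r : (1 : ℝ) ≤ X := by exact_mod_cast hX1
    rw [Real.norm_of_nonneg (Real.log_nonneg hX1r), id, Real.norm_of_nonneg (by linarith)] at hX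
    calc ε * Real.log X ≤ ε * (1 / ε * X) := mul_le_mul_of_nonneg_left hX hε.le
      _ = X := by field_simp
  filter_upwards [eventually_ge_atTop (X₀ + 4), hpow, hsmall, hlogt.eventually_ge_atTop (2 / ε + 1),
    hlogt.eventually_ge_atTop ((2 : ℝ) ^ c)] with X hX hp hsm hl1 hl2
  have hXr : (4 : ℝ) ≤ X := by exact_mod_cast (by omega : 4 ≤ X)
  have hX0 : (0 : ℝ) < X := by linarith
  have hlog1 : 1 ≤ Real.log X := by
    have : 0 < 2 / ε := by positivity
    linarith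
  have hlog0 : 0 < Real.log X := by linarith
  have hlog20' : 0 < Real.log ((2 * X : ℕ) : ℝ) := Real.log_pos (by push_cast; linarith)
  have hlog2 : Real.log ((2 * X : ℕ) : ℝ) ≤ 2 * Real.log X := by
    push_cast
    rw [Real.log_mul (by norm_num) hX0.ne']
    have : Real.log 2 ≤ Real.log X := Real.log_le_log (by norm_num) (by linarith)
    linarith
  have hlog20 : Real.log X ≤ Real.log ((2 * X : ℕ) : ℝ) := by
    apply Real.log_le_log hX0
    push_cast
    linarith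
  obtain ⟨g1, g2⟩ := HM (2 * X) (by omega) aC (bC h s0) i j (sysC h s0 H (2 * X) i j hij hs0 hH (by omega) hA)
  obtain ⟨g3, g4⟩ := g2 X (2 * X) le_rfl (by push_cast; linarith)
  obtain ⟨P, p1, p2, p3⟩ := g4 (χ X)
  set V := VL aC (bC h s0) (2 * X) with hV
  have hV0 : 0 < V := lt_of_lt_of_le (by positivity) g1
  have e1 : (((2 * X : ℕ) : ℝ) - X) = X := by push_cast; ring
  rw [e1] at g3 p3
  have h5 := first_terms s hs _ P _ p2 p3
  have h6 : κ / 2 * κ / (2 ^ K * s) * X / Real.log X ^ K ≤ ((P.image Prod.fst).card : ℝ) := by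
    refine le_trans ?_ h5
    rw [le_div_iff₀ hsr]
    have h7 : κ / 2 * X * V ≤
        ((GoodI aC (bC h s0) i j t (2 * X) (ε * Real.log ((2 * X : ℕ) : ℝ)) (((2 * X : ℕ) : ℝ) ^ (β / 2)) X
          (2 * X)).card : ℝ) - κ / 2 * X * V := by linarith
    refine le_trans ?_ h7
    have h8 : κ / (2 ^ K * Real.log X ^ K) ≤ V := by
      refine le_trans ?_ g1
      apply div_le_div_of_nonneg_left hκ.le (by positivity)
      calc Real.log ((2 * X : ℕ) : ℝ) ^ K ≤ (2 * Real.log X) ^ K :=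
            pow_le_pow_left₀ (by linarith) hlog2 K
        _ = 2 ^ K * Real.log X ^ K := by rw [mul_pow]
    calc κ / 2 * κ / (2 ^ K * s) * X / Real.log X ^ K * s =
          κ / 2 * X * (κ / (2 ^ K * Real.log X ^ K)) := by field_simp
      _ ≤ κ / 2 * X * V := mul_le_mul_of_nonneg_left h8 (by positivity)
  refine h6.trans ?_
  apply Nat.cast_le.2
  apply card_le_card
  intro k hk
  rw [mem_image] at hk
  obtain ⟨z, hz, rfl⟩ := hk
  obtain ⟨q1, q2, q3⟩ := p1 z hz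
  rw [mem_filter]
  have q4 := (q3 0 (by omega)).1
  rw [zero_mul, add_zero] at q4
  have q5 : z.1 ∈ Finset.Ioc X (2 * X) := by
    unfold GoodI GoodL at q4
    rw [mem_filter, mem_filter] at q4
    exact q4.1.1
  refine ⟨q5, z.2, q1, ?_, ?_⟩
  · refine q2.trans ?_
    calc Real.log ((2 * X : ℕ) : ℝ) ^ c ≤ (2 * Real.log X) ^ c := pow_le_pow_left₀ (by linarith) hlog2 c
      _ = 2 ^ c * Real.log X ^ c := by rw [mul_pow]
      _ ≤ Real.log X * Real.log X ^ c := mul_le_mul_of_nonneg_right hl2 (by positivity)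
      _ = Real.log X ^ (c + 1) := by rw [pow_succ]; ring
  · intro m hm
    obtain ⟨q6, q7⟩ := q3 m hm
    refine ⟨?_, q7⟩
    rw [mem_Ioc] at q5
    apply Con_of (X' := 2 * X) (t := t) (A := X) (B := 2 * X)
      (w := ε * Real.log ((2 * X : ℕ) : ℝ)) (y := ((2 * X : ℕ) : ℝ) ^ (β / 2)) ht (by omega) hs0
      ?_ ?_ ?_ (by omega) q6
    · calc ε / 2 * Real.log X ≤ ε * Real.log X := by
            apply mul_le_mul_of_nonneg_right _ hlog0.le
            linarith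
        _ ≤ _ := mul_le_mul_of_nonneg_left hlog20 hε.le
    · push_cast
      rw [Real.mul_rpow (by norm_num) hX0.le]
      calc (2 : ℝ) ^ (β / 2) * (X : ℝ) ^ (β / 2) ≤ (X : ℝ) ^ (β / 2) * (X : ℝ) ^ (β / 2) :=
            mul_le_mul_of_nonneg_right hp (by positivity)
        _ = (X : ℝ) ^ β := by
            rw [← Real.rpow_add hX0]
            congr 1
            ring
    · have h9 : (X : ℝ) < ((z.1 + m * z.2 : ℕ) : ℝ) := by
        exact_mod_cast (by omega : X < z.1 + m * z.2)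
      have h10 : ε / 2 * Real.log X ≤ X / 2 := by linarith
      have h11 : (s0 : ℝ) ≤ 6 := by exact_mod_cast hs0
      linarith

/-- the first terms of one-coloured progressions of isolated constellations, in terms of `k`, `ν = 6 k - s0` -/
def FC (h : Fin K → ℕ) (i j : Fin K) (t s0 s c : ℕ) (ε β : ℝ) {q : ℕ} (χ : ℕ → ℕ → Fin q) (X k : ℕ) : Prop :=
  X < k ∧ k ≤ 2 * X ∧ ∃ d : ℕ, 1 ≤ d ∧ (d : ℝ) ≤ Real.log X ^ c ∧
    ∀ m < s, Con h i j t X (ε * Real.log X) ((X : ℝ) ^ β) (6 * (k + m * d) - s0) ∧ χ X (k + m * d) = χ X k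

theorem den_con (h : Fin K → ℕ) (hK : 1 ≤ K) (hinj : Function.Injective h) (i j : Fin K) (t s0 s q c H : ℕ)
    (ht : 1 ≤ t) (hs0 : 1 ≤ s0) (hs06 : s0 ≤ 6) (hH : ∀ l, h l ≤ H) (hs : 1 ≤ s) (ε β κ : ℝ) (hκ : 0 < κ)
    (χ : ℕ → ℕ → Fin q)
    (hm : ∀ᶠ X : ℕ in atTop, κ * X / Real.log X ^ K ≤
      ((({k : ℕ | FC h i j t s0 s c ε β χ X k} : Set ℕ).ncard : ℕ) : ℝ)) :
    ∃ c0 : ℝ, 0 < c0 ∧ Den K (H + 6) (1 / (2 * t)) c0 (FC h i j t s0 s c ε β χ) := by
  classical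
  have ht0 : (0 : ℝ) < t := by exact_mod_cast ht
  have ht1 : (1 : ℝ) ≤ t := by exact_mod_cast ht
  obtain ⟨δ, hδ⟩ : ∃ δ : ℝ, δ = 1 / (2 * t) := ⟨_, rfl⟩
  have hδ0 : 0 < δ := by rw [hδ]; positivity
  have hδ1 : δ ≤ 1 := by
    rw [hδ, div_le_one (by positivity)]
    linarith
  rw [← hδ]
  obtain ⟨C, hC, X1, hF⟩ := FF_up δ hδ0 hδ1
  obtain ⟨X2, hJ⟩ := JJ_size δ hδ0 hδ1 1 δ (by push_cast; linarith)
  obtain ⟨X3, h3⟩ := eventually_atTop.1 hm
  refine ⟨κ / (6 * C ^ K), by positivity, max (max X1 X2) (max X3 6), ?_⟩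
  intro X hX
  have hX1 : X1 ≤ 6 * X := by omega
  have hX2 : X2 ≤ 6 * X := by omega
  have hX3 : X3 ≤ X := by omega
  have hX5 : 6 ≤ X := by omega
  have hX0 : (0 : ℝ) < X := by exact_mod_cast (by omega : 0 < X)
  have hXr : (6 : ℝ) ≤ X := by exact_mod_cast hX5
  have hlog : 0 < Real.log X := Real.log_pos (by linarith)
  have hfin : ({k : ℕ | FC h i j t s0 s c ε β χ X k} : Set ℕ).Finite :=
    (Set.finite_Iic (2 * X)).subset (fun k hk => hk.2.1)
  have hsz : ((2 ^ 2 ^ JJ δ (6 * X) : ℕ) : ℝ) ≤ (X : ℝ) ^ (1 / (t : ℝ)) := by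
    have h5 := (hJ (6 * X) hX2).2.1
    rw [pow_one] at h5
    refine h5.trans ?_
    push_cast
    calc (6 * (X : ℝ)) ^ δ ≤ ((X : ℝ) * X) ^ δ := by
          apply Real.rpow_le_rpow (by positivity) _ hδ0.le
          exact mul_le_mul_of_nonneg_right hXr hX0.le
      _ = (X : ℝ) ^ (1 / (t : ℝ)) := by
          rw [Real.mul_rpow hX0.le hX0.le, ← Real.rpow_add hX0, hδ]
          congr 1
          field_simp
          norm_num
  have hcard : (univ.image h : Finset ℕ).card = K := by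
    rw [card_image_of_injective _ hinj, card_univ, Fintype.card_fin]
  refine ⟨univ.image h, hcard, ?_, ?_, s0, by omega, hfin.toFinset, ?_, ?_⟩
  · rw [← card_pos, hcard]
    omega
  · intro u hu
    rw [mem_image] at hu
    obtain ⟨l, -, rfl⟩ := hu
    have := hH l
    omega
  · intro k hk
    rw [Set.Finite.mem_toFinset] at hk
    have hk' := hk
    obtain ⟨k1, k2, d, -, -, k3⟩ := hk
    obtain ⟨-, -, k6, -⟩ := (k3 0 (by omega)).1
    rw [zero_mul, add_zero] at k6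
    refine ⟨by omega, ?_, ?_, by omega, hk'⟩
    · rw [mem_Ico]
      omega
    · intro u hu p hp hpl hd
      rw [mem_image] at hu
      obtain ⟨l, -, rfl⟩ := hu
      have hpl' : (p : ℝ) < (X : ℝ) ^ (1 / (t : ℝ)) :=
        lt_of_lt_of_le (by exact_mod_cast hpl) hsz
      have := (k6 l).2.2 p hp hd
      linarith
  · have h5 := h3 X hX3
    rw [Set.ncard_eq_toFinset_card _ hfin] at h5
    refine le_trans ?_ h5
    have h6 := hF (6 * X) hX1
    have hF0 : 0 ≤ FF δ (6 * X) := by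
      unfold FF
      apply mul_nonneg _ (by positivity)
      unfold VV
      apply prod_nonneg
      intro p hp
      have hp2 : p.Prime := by
        unfold P1 at hp
        exact (mem_filter.1 hp).2.1
      have : (2 : ℝ) ≤ p := by exact_mod_cast hp2.two_le
      rw [sub_nonneg, div_le_one (by linarith)]
      linarith
    have h7 : FF δ (6 * X) ≤ C / Real.log X := by
      have hl : Real.log X ≤ Real.log ((6 * X : ℕ) : ℝ) := by
        apply Real.log_le_log hX0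
        push_cast
        linarith
      rw [le_div_iff₀ hlog]
      exact (mul_le_mul_of_nonneg_left hl hF0).trans h6
    calc κ / (6 * C ^ K) * (((6 * X : ℕ) : ℝ) * FF δ (6 * X) ^ K)
        ≤ κ / (6 * C ^ K) * (((6 * X : ℕ) : ℝ) * (C / Real.log X) ^ K) := by
          apply mul_le_mul_of_nonneg_left _ (by positivity)
          apply mul_le_mul_of_nonneg_left _ (by positivity)
          exact pow_le_pow_left₀ hF0 h7 K
      _ = κ * X / Real.log X ^ K := by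
          rw [div_pow]
          push_cast
          field_simp

end Pool.Agent.T6.H56.EA
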