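import Pool.Agent.T6.H56.EA.Av
import Pool.Agent.TH685.TI.Cs

/-! Sums of an element of a dense set of rough integers and an element of a small set: the number of
distinct sums. -/

set_option autoImplicit false
set_option maxHeartbeats 1000000

open Finset

namespace Pool.Agent.T6.H56.EA

open Pool.Agent.H361R2.PP
open Pool.Agent.TH882.DD (Ro FF)
open Pool.Agent.TH685.TI (cs)
open Pool.Agent.H197R2.PG (sum_dist_le)

theorem core (L A0 : ℕ) (δ c0 E : ℝ) (hδ : 0 < δ) (hδ1 : δ ≤ 1) (hc0 : 0 < c0) (hE : 0 < E) :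
    ∃ D : ℝ, 0 < D ∧ ∃ X₀ : ℕ, ∀ X : ℕ, X₀ ≤ X →
    ∀ U : Finset ℕ, U.card = L → U.Nonempty → (∀ u ∈ U, u ≤ A0) → ∀ (s : ℕ) (K : Finset ℕ),
    (∀ k ∈ K, s ≤ 6 * k ∧ 6 * k - s ∈ Ico X (2 * X) ∧ Ro δ X U (6 * k - s)) →
    c0 * (X * FF δ X ^ L) ≤ (K.card : ℝ) → ∀ (S : Finset ℕ) (T q : ℕ), S ⊆ Icc 1 T → A0 ≤ T →
    1 ≤ (S.card : ℝ) * FF δ X ^ L → 1 ≤ q →
    112 * ((L * L : ℕ) : ℝ) * T ≤ E ^ q * S.card →
    (X : ℝ) ≤ (((S ×ˢ K).image (fun z => z.1 + z.2)).card : ℝ) *
      (D * Real.log ((2 * q * (L * L) + 3 : ℕ) : ℝ) ^ (2 * (L * L))) := by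
  classical
  obtain ⟨w0, δ', hδ', hδ1', C, hC, X1, hR⟩ := RD_upper L A0 δ hδ hδ1
  obtain ⟨C1, hC1, hhd⟩ := hd_le
  refine ⟨(1 + 2 * A0) / c0 + C * C1 ^ (2 * (L * L)) * E / c0 ^ 2, by positivity, max X1 1, ?_⟩
  intro X hX U hUc hUne hUA s K hK hKc S T q hS hAT hS1 hq hET
  have hX1 : X1 ≤ X := by omega
  have hX1' : 1 ≤ X := by omega
  have hX0 : (0 : ℝ) < X := by exact_mod_cast hX1'
  obtain ⟨hF0, -, hR⟩ := hR X hX1
  obtain ⟨F, hF⟩ : ∃ F : ℝ, F = FF δ X := ⟨_, rfl⟩
  rw [← hF] at hF0 hR hKc hS1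
  obtain ⟨w, hw⟩ : ∃ w : ℕ, w = 2 * q * (L * L) + 3 := ⟨_, rfl⟩
  rw [← hw]
  have hw3 : 3 ≤ w := by omega
  obtain ⟨l, hl⟩ : ∃ l : ℝ, l = Real.log (w : ℝ) := ⟨_, rfl⟩
  rw [← hl]
  have hl1 : 1 ≤ l := by
    rw [hl, Real.le_log_iff_exp_le (by exact_mod_cast (by omega : 0 < w))]
    have h1 := Real.exp_one_lt_d9
    have h2 : (3 : ℝ) ≤ w := by exact_mod_cast hw3
    linarith
  have hlL1 : 1 ≤ l ^ (2 * (L * L)) := one_le_pow₀ hl1
  set P := P1 w0 (JJ δ' X) with hP
  have hPp : ∀ p ∈ P, p.Prime := fun p hp => by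
    rw [hP] at hp
    unfold P1 at hp
    exact (mem_filter.1 hp).2.1
  have hcs := cs K S
  obtain ⟨I, hI⟩ : ∃ I : Finset ℕ, I = (S ×ˢ K).image (fun z => z.1 + z.2) := ⟨_, rfl⟩
  rw [← hI] at hcs ⊢
  obtain ⟨t, ht⟩ : ∃ t : ℝ, t = (#S : ℝ) * #K := ⟨_, rfl⟩
  rw [← ht] at hcs
  have hS0 : (0 : ℝ) ≤ #S := Nat.cast_nonneg _
  have hK0 : (0 : ℝ) ≤ #K := Nat.cast_nonneg _
  -- one difference
  have hone : ∀ h : ℕ, A0 < h → (#(K.filter (fun k => k + h ∈ K)) : ℝ) ≤
      C * (X * F ^ (2 * L)) * ((C1 * l) ^ (2 * (L * L)) * Gx w U h) := by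
    intro h hh
    set N := (K.filter (fun k => k + h ∈ K)).image (fun k => 6 * k - s) with hN
    have hNc : N.card = (K.filter (fun k => k + h ∈ K)).card := by
      rw [hN]
      apply card_image_of_injOn
      intro a ha b hb hab
      rw [mem_coe, mem_filter] at ha hb
      have h1 := (hK a ha.1).1
      have h2 := (hK b hb.1).1
      simp only at hab
      omega
    have h1 := hR U hUc hUA (6 * h) (by omega) N (by
      intro n hn
      rw [hN, mem_image] at hn
      obtain ⟨k, hk, rfl⟩ := hn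
      exact (hK k (mem_filter.1 hk).1).2.1) (by
      intro n hn
      rw [hN, mem_image] at hn
      obtain ⟨k, hk, rfl⟩ := hn
      rw [mem_filter] at hk
      refine ⟨(hK k hk.1).2.2, ?_⟩
      have h2 := (hK _ hk.2).2.2
      have h3 := (hK k hk.1).1
      have h4 : 6 * (k + h) - s = 6 * k - s + 6 * h := by omega
      rwa [h4] at h2)
    rw [hNc] at h1
    refine h1.trans ?_
    have h2 := hhd P U w h A0 hPp hUA hh hw3
    rw [hUc, ← hl] at h2
    calc C * (X * F ^ (2 * L) * hd P U (6 * h)) = C * (X * F ^ (2 * L)) * hd P U (6 * h) := by ring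
      _ ≤ _ := mul_le_mul_of_nonneg_left h2 (by positivity)
  -- the sum over the pairs
  have hsum : ∑ z ∈ S.offDiag, (#(K.filter (fun k => k + Nat.dist z.1 z.2 ∈ K)) : ℝ) ≤
      2 * A0 * t + C * (X * F ^ (2 * L)) * (C1 * l) ^ (2 * (L * L)) * (E * (#S : ℝ) ^ 2) := by
    rw [← sum_filter_add_sum_filter_not S.offDiag (fun z => A0 < Nat.dist z.1 z.2), add_comm]
    apply add_le_add
    · have h1 := sum_dist_le S T hS (fun n : ℕ => if A0 < n then (0 : ℝ) else 1) (fun n => by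
        split_ifs <;> norm_num)
      have h2 : ∑ h ∈ Icc 1 T, (if A0 < h then (0 : ℝ) else 1) ≤ A0 := by
        have h3 : ∑ h ∈ Icc 1 T, (if A0 < h then (0 : ℝ) else 1) =
            (((Icc 1 T).filter (fun h => ¬ A0 < h)).card : ℝ) := by
          rw [← sum_boole]
          apply sum_congr rfl
          intro h _
          by_cases hh : A0 < h <;> simp [hh]
        rw [h3]
        have h4 : ((Icc 1 T).filter (fun h => ¬ A0 < h)).card ≤ (Icc 1 A0).card := by
          apply card_le_card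
          intro h hh
          rw [mem_filter, mem_Icc] at hh
          rw [mem_Icc]
          omega
        rw [Nat.card_Icc] at h4
        have h5 : ((Icc 1 T).filter (fun h => ¬ A0 < h)).card ≤ A0 := by omega
        exact_mod_cast h5
      calc ∑ z ∈ S.offDiag.filter (fun z => ¬ A0 < Nat.dist z.1 z.2),
            (#(K.filter (fun k => k + Nat.dist z.1 z.2 ∈ K)) : ℝ) ≤
          ∑ z ∈ S.offDiag.filter (fun z => ¬ A0 < Nat.dist z.1 z.2), (#K : ℝ) := by
            apply sum_le_sum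
            intro z _
            exact_mod_cast card_filter_le _ _
        _ = (∑ z ∈ S.offDiag, (if A0 < Nat.dist z.1 z.2 then (0 : ℝ) else 1)) * #K := by
            rw [sum_const, nsmul_eq_mul]
            congr 1
            rw [← sum_boole]
            apply sum_congr rfl
            intro z _
            by_cases hh : A0 < Nat.dist z.1 z.2 <;> simp [hh]
        _ ≤ (2 * #S * A0) * #K := by
            apply mul_le_mul_of_nonneg_right _ hK0
            refine h1.trans ?_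
            exact mul_le_mul_of_nonneg_left h2 (by positivity)
        _ = 2 * A0 * t := by
            rw [ht]
            ring
    · have hav := avg_Gx w q T A0 S U E hUne hUA hq (by rw [hUc]; omega) hS hAT hE.le (by
        rw [hUc]
        exact hET)
      calc ∑ z ∈ S.offDiag.filter (fun z => A0 < Nat.dist z.1 z.2),
            (#(K.filter (fun k => k + Nat.dist z.1 z.2 ∈ K)) : ℝ) ≤
          ∑ z ∈ S.offDiag.filter (fun z => A0 < Nat.dist z.1 z.2),
            C * (X * F ^ (2 * L)) * ((C1 * l) ^ (2 * (L * L)) * Gx w U (Nat.dist z.1 z.2)) := by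
            apply sum_le_sum
            intro z hz
            exact hone _ (mem_filter.1 hz).2
        _ = C * (X * F ^ (2 * L)) * (C1 * l) ^ (2 * (L * L)) *
            ∑ z ∈ S.offDiag.filter (fun z => A0 < Nat.dist z.1 z.2), Gx w U (Nat.dist z.1 z.2) := by
            rw [mul_sum]
            apply sum_congr rfl
            intro z _
            ring
        _ ≤ _ := mul_le_mul_of_nonneg_left hav (by positivity)
  -- the final comparison
  have hFL : 0 < F ^ L := by positivity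
  have ht1 : c0 * (X * F ^ L) * #S ≤ t := by
    rw [ht, mul_comm (#S : ℝ)]
    exact mul_le_mul_of_nonneg_right hKc hS0
  have ht2 : c0 * X ≤ t := by
    refine le_trans ?_ ht1
    calc c0 * X = c0 * X * 1 := by ring
      _ ≤ c0 * X * ((#S : ℝ) * F ^ L) := mul_le_mul_of_nonneg_left hS1 (by positivity)
      _ = _ := by ring
  have htpos : 0 < t := lt_of_lt_of_le (by positivity) ht2
  have ht3 : t ≤ t ^ 2 / (c0 * X) := by
    rw [le_div_iff₀ (by positivity), sq]
    exact mul_le_mul_of_nonneg_left ht2 htpos.le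
  have ht4 : (X * F ^ (2 * L)) * (#S : ℝ) ^ 2 ≤ t ^ 2 / (c0 ^ 2 * X) := by
    rw [le_div_iff₀ (by positivity)]
    have h1 : (c0 * (X * F ^ L) * #S) ^ 2 ≤ t ^ 2 := pow_le_pow_left₀ (by positivity) ht1 2
    refine le_trans (le_of_eq ?_) h1
    rw [mul_comm 2 L, pow_mul]
    ring
  have hmain : t ^ 2 ≤ #I * (t ^ 2 / X * (((1 + 2 * A0) / c0 +
      C * C1 ^ (2 * (L * L)) * E / c0 ^ 2) * l ^ (2 * (L * L)))) := by
    refine hcs.trans ?_
    apply mul_le_mul_of_nonneg_left _ (Nat.cast_nonneg _)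
    calc t + ∑ z ∈ S.offDiag, (#(K.filter (fun k => k + Nat.dist z.1 z.2 ∈ K)) : ℝ) ≤
        t + (2 * A0 * t + C * (X * F ^ (2 * L)) * (C1 * l) ^ (2 * (L * L)) * (E * (#S : ℝ) ^ 2)) := by
          linarith
      _ = (1 + 2 * A0) * t + C * C1 ^ (2 * (L * L)) * E * l ^ (2 * (L * L)) *
          ((X * F ^ (2 * L)) * (#S : ℝ) ^ 2) := by
          rw [mul_pow]
          ring
      _ ≤ (1 + 2 * A0) * (t ^ 2 / (c0 * X)) + C * C1 ^ (2 * (L * L)) * E * l ^ (2 * (L * L)) *
          (t ^ 2 / (c0 ^ 2 * X)) := by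
          apply add_le_add
          · exact mul_le_mul_of_nonneg_left ht3 (by positivity)
          · exact mul_le_mul_of_nonneg_left ht4 (by positivity)
      _ = (1 + 2 * A0) * (t ^ 2 / (c0 * X)) * 1 + C * C1 ^ (2 * (L * L)) * E * l ^ (2 * (L * L)) *
          (t ^ 2 / (c0 ^ 2 * X)) := by ring
      _ ≤ (1 + 2 * A0) * (t ^ 2 / (c0 * X)) * l ^ (2 * (L * L)) +
          C * C1 ^ (2 * (L * L)) * E * l ^ (2 * (L * L)) * (t ^ 2 / (c0 ^ 2 * X)) := by
          apply add_le_add _ le_rfl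
          exact mul_le_mul_of_nonneg_left hlL1 (by positivity)
      _ = _ := by
          field_simp
          try ring
  have h3 : t ^ 2 * X ≤ t ^ 2 * (#I * (((1 + 2 * A0) / c0 +
      C * C1 ^ (2 * (L * L)) * E / c0 ^ 2) * l ^ (2 * (L * L)))) := by
    calc t ^ 2 * X ≤ (#I * (t ^ 2 / X * (((1 + 2 * A0) / c0 +
          C * C1 ^ (2 * (L * L)) * E / c0 ^ 2) * l ^ (2 * (L * L))))) * X :=
          mul_le_mul_of_nonneg_right hmain hX0.le
      _ = _ := by
          field_simp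
  exact le_of_mul_le_mul_left h3 (by positivity)

end Pool.Agent.T6.H56.EA
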