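import Pool.Agent.T6.H56.EA.Ix

/-! Runs of consecutive primes, and the indices of the primes with close neighbours. -/

set_option autoImplicit false
set_option maxHeartbeats 1000000

open Finset Filter

namespace Pool.Agent.T6.H56.EA

open Pool.Agent.TH882.JS (nb)

lemma pr_prime (m : ℕ) : (pr m).Prime := Nat.prime_nth_prime _

lemma count_split (a b : ℕ) (hab : a ≤ b) :
    Nat.count Nat.Prime (b + 1) = Nat.count Nat.Prime (a + 1) + ((Ioc a b).filter Nat.Prime).card := by
  classical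
  rw [Nat.count_eq_card_filter_range, Nat.count_eq_card_filter_range, ← card_union_of_disjoint]
  · congr 1
    ext q
    simp only [mem_filter, mem_range, mem_union, mem_Ioc]
    constructor
    · rintro ⟨h1, h2⟩
      by_cases h3 : q ≤ a
      · left; exact ⟨by omega, h2⟩
      · right; exact ⟨⟨by omega, by omega⟩, h2⟩
    · rintro (⟨h1, h2⟩ | ⟨⟨h1, h2⟩, h3⟩)
      · exact ⟨by omega, h2⟩
      · exact ⟨by omega, h3⟩
  · rw [disjoint_left]
    intro q hq hq'
    simp only [mem_filter, mem_range, mem_Ioc] at hq hq'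
    omega

lemma count_pr (m : ℕ) : Nat.count Nat.Prime (pr m) = m - 1 := by
  unfold pr
  rw [Nat.count_nth_of_infinite Nat.infinite_setOfPred_prime]

lemma count_pr_succ (m : ℕ) (hm : 1 ≤ m) : Nat.count Nat.Prime (pr m + 1) = m := by
  rw [Nat.count_succ, if_pos (pr_prime m), count_pr]
  omega

/-- the prime after `j` steps -/
lemma pr_le {m j y : ℕ} (hm : 1 ≤ m) (hy : pr m ≤ y)
    (h : j ≤ ((Ioc (pr m) y).filter Nat.Prime).card) : pr (m + j) ≤ y := by
  have h1 := count_split (pr m) y hy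
  rw [count_pr_succ m hm] at h1
  have h2 : m + j - 1 < Nat.count Nat.Prime (y + 1) := by omega
  have h3 := Nat.nth_lt_of_lt_count h2
  unfold pr
  omega

lemma pr_mono {a b : ℕ} (h : a ≤ b) : pr a ≤ pr b := by
  unfold pr
  exact (Nat.nth_monotone Nat.infinite_setOfPred_prime) (by omega)

/-- `j + 1` consecutive primes in an interval of length `C` with almost prime companions -/
def Run (j r C m : ℕ) : Prop :=
  pr (m + j) ≤ pr m + C ∧ ∀ l ≤ j, (pr (m + l) + 2).primeFactorsList.length ≤ r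

lemma run_of_Cl {j r C m : ℕ} (hm : 1 ≤ m) (h : Cl j r C (pr m)) : Run j r C m := by
  obtain ⟨h1, y, h2, h3, h4, h5⟩ := h
  have h4' : j ≤ ((Ioc (pr m) y).filter Nat.Prime).card := by
    refine h4.trans (le_of_eq ?_)
    congr
  have h6 := pr_le hm h2 h4'
  refine ⟨h6.trans h3, fun l hl => ?_⟩
  have h7 := h5 (pr (m + l)) (by
    rw [mem_Icc]
    exact ⟨pr_mono (by omega), (pr_mono (by omega)).trans h6⟩) (pr_prime _)
  rwa [ArithmeticFunction.cardFactors_apply] at h7

/-- one side or the other -/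
lemma two_sided {j N m : ℕ} (hm : 1 ≤ m) (h : 2 * j ≤ nb N (pr m)) :
    pr (m + j) ≤ pr m + N ∨ (j < m ∧ pr m ≤ pr (m - j) + N) := by
  classical
  by_cases h1 : j ≤ ((Ioc (pr m) (pr m + N)).filter Nat.Prime).card
  · left
    exact pr_le hm (by omega) h1
  · right
    push Not at h1
    have h2 : nb N (pr m) ≤ ((Ioc (pr m) (pr m + N)).filter Nat.Prime).card +
        ((Ico (pr m - N) (pr m)).filter Nat.Prime).card := by
      unfold nb
      rw [← card_union_of_disjoint]
      · apply card_le_card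
        intro q hq
        simp only [mem_filter, mem_Icc, mem_union, mem_Ioc, mem_Ico] at hq ⊢
        obtain ⟨⟨h3, h4⟩, h5, h6⟩ := hq
        by_cases h7 : q < pr m
        · right; exact ⟨⟨h3, h7⟩, h5⟩
        · left; exact ⟨⟨by omega, h4⟩, h5⟩
      · rw [disjoint_left]
        intro q hq hq'
        simp only [mem_filter, mem_Ioc, mem_Ico] at hq hq'
        omega
    have h3 : j ≤ ((Ico (pr m - N) (pr m)).filter Nat.Prime).card := by omega
    have h4 : Nat.count Nat.Prime (pr m) = Nat.count Nat.Prime (pr m - N) +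
        ((Ico (pr m - N) (pr m)).filter Nat.Prime).card := by
      rw [Nat.count_eq_card_filter_range, Nat.count_eq_card_filter_range, ← card_union_of_disjoint]
      · congr 1
        ext q
        simp only [mem_filter, mem_range, mem_union, mem_Ico]
        constructor
        · rintro ⟨h1, h2⟩
          by_cases h3 : q < pr m - N
          · left; exact ⟨by omega, h2⟩
          · right; exact ⟨⟨by omega, by omega⟩, h2⟩
        · rintro (⟨h1, h2⟩ | ⟨⟨h1, h2⟩, h3⟩)
          · exact ⟨by omega, h2⟩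
          · exact ⟨by omega, h3⟩
      · rw [disjoint_left]
        intro q hq hq'
        simp only [mem_filter, mem_range, mem_Ico] at hq hq'
        omega
    rw [count_pr] at h4
    have h5 : 0 < ((Ico (pr m - N) (pr m)).filter Nat.Prime).card ∨ j = 0 := by omega
    have h6 : j < m := by omega
    refine ⟨h6, ?_⟩
    have h7 : pr m - N ≤ pr (m - j) := by
      by_contra h8
      push Not at h8
      have h9 : Nat.count Nat.Prime (pr (m - j) + 1) ≤ Nat.count Nat.Prime (pr m - N) :=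
        Nat.count_monotone _ (by omega)
      rw [count_pr_succ (m - j) (by omega)] at h9
      omega
    omega

/-- `j` further primes within `ε log p_m` -/
def Tight (j : ℕ) (ε : ℝ) (m : ℕ) : Prop := (pr (m + j) : ℝ) ≤ pr m + ε * Real.log (pr m)

lemma pr_ge (m : ℕ) : m ≤ pr m := by
  unfold pr
  have := Nat.add_two_le_nth_prime (m - 1)
  omega

lemma tight_of (j : ℕ) (ε : ℝ) (hε : 0 < ε) : ∃ m0 : ℕ, ∀ m : ℕ, m0 ≤ m → Cs (2 * j) (ε / 2) (pr m) →
    Tight j ε m ∨ (j < m ∧ Tight j ε (m - j)) := by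
  have e1 : ∀ᶠ y : ℝ in atTop, ε / 2 * Real.log y ≤ y / 2 := by
    have h := Real.isLittleO_log_id_atTop.bound (show (0 : ℝ) < 1 / ε by positivity)
    filter_upwards [h, eventually_ge_atTop (1 : ℝ)] with y hy hy1
    rw [Real.norm_of_nonneg (Real.log_nonneg hy1), id, Real.norm_of_nonneg (by linarith)] at hy
    calc ε / 2 * Real.log y ≤ ε / 2 * (1 / ε * y) := mul_le_mul_of_nonneg_left hy (by positivity)
      _ = y / 2 := by field_simp
  obtain ⟨Y, hY⟩ := eventually_atTop.1 e1
  obtain ⟨m1, hm1⟩ := exists_nat_ge Y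
  refine ⟨max m1 4, fun m hm h => ?_⟩
  have hp1 : m ≤ pr m := pr_ge m
  have hp4 : (4 : ℝ) ≤ pr m := by exact_mod_cast (le_trans (le_max_right _ _) (hm.trans hp1))
  have hpY : Y ≤ pr m := by
    have : (m1 : ℝ) ≤ pr m := by exact_mod_cast (le_trans (le_max_left _ _) (hm.trans hp1))
    linarith
  have h1 := hY _ hpY
  have hlog : 0 ≤ Real.log (pr m) := Real.log_nonneg (by linarith)
  have hN : ((⌊ε / 2 * Real.log (pr m)⌋₊ : ℕ) : ℝ) ≤ ε / 2 * Real.log (pr m) :=
    Nat.floor_le (by positivity)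
  have hm4 : 4 ≤ m := le_trans (le_max_right _ _) hm
  rcases two_sided (by omega) h with h2 | ⟨h2, h3⟩
  · left
    unfold Tight
    have h4 : (pr (m + j) : ℝ) ≤ pr m + (⌊ε / 2 * Real.log (pr m)⌋₊ : ℕ) := by exact_mod_cast h2
    nlinarith
  · right
    refine ⟨h2, ?_⟩
    unfold Tight
    rw [Nat.sub_add_cancel h2.le]
    have h4 : (pr m : ℝ) ≤ pr (m - j) + (⌊ε / 2 * Real.log (pr m)⌋₊ : ℕ) := by exact_mod_cast h3
    have h5 : (pr m : ℝ) / 2 ≤ pr (m - j) := by linarith
    have h6 : Real.log (pr m) ≤ 2 * Real.log (pr (m - j)) := by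
      have h7 : (pr m : ℝ) ≤ (pr (m - j) : ℝ) ^ 2 := by
        nlinarith
      calc Real.log (pr m) ≤ Real.log ((pr (m - j) : ℝ) ^ 2) := Real.log_le_log (by linarith) h7
        _ = 2 * Real.log (pr (m - j)) := by
          rw [Real.log_pow]
          norm_num
    nlinarith

lemma cnt_tight (j : ℕ) (ε : ℝ) (hε : 0 < ε) (hd : ∃ η : ℝ, 0 < η ∧ ∀ᶠ t : ℕ in atTop,
      η * t ≤ (cnt {m : ℕ | Cs (2 * j) (ε / 2) (pr m)} t : ℝ)) : ∃ η : ℝ, 0 < η ∧ ∀ᶠ t : ℕ in atTop,
    η * t ≤ (cnt {m : ℕ | Tight j ε m} t : ℝ) := by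
  classical
  obtain ⟨m0, h0⟩ := tight_of j ε hε
  obtain ⟨η, hη, hd⟩ := hd
  refine ⟨η / 4, by positivity, ?_⟩
  have ht : Tendsto (fun t : ℕ => η * (t : ℝ)) atTop atTop :=
    tendsto_natCast_atTop_atTop.const_mul_atTop hη
  filter_upwards [hd, ht.eventually_ge_atTop (2 * m0 : ℝ)] with t h1 h2
  have h3 : cnt {m : ℕ | Cs (2 * j) (ε / 2) (pr m)} t ≤ m0 + cnt {m : ℕ | Tight j ε m} t +
      cnt {m : ℕ | Tight j ε m} t := by
    unfold cnt
    have hsub : (Icc 1 t).filter (fun m => m ∈ {m : ℕ | Cs (2 * j) (ε / 2) (pr m)}) ⊆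
        (range m0 ∪ (Icc 1 t).filter (fun m => m ∈ {m : ℕ | Tight j ε m})) ∪
        ((Icc 1 t).filter (fun m => m ∈ {m : ℕ | Tight j ε m})).image (fun m => m + j) := by
      intro m hm
      rw [mem_filter, mem_Icc] at hm
      rw [mem_union, mem_union, mem_range, mem_filter, mem_Icc, mem_image]
      by_cases h4 : m < m0
      · exact Or.inl (Or.inl h4)
      · rcases h0 m (by omega) hm.2 with h5 | ⟨h5, h6⟩
        · exact Or.inl (Or.inr ⟨hm.1, h5⟩)
        · right
          refine ⟨m - j, ?_, by omega⟩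
          rw [mem_filter, mem_Icc]
          exact ⟨by omega, h6⟩
    refine (card_le_card hsub).trans ((card_union_le _ _).trans ?_)
    refine add_le_add ((card_union_le _ _).trans ?_) card_image_le
    rw [card_range]
  have h4 : (cnt {m : ℕ | Cs (2 * j) (ε / 2) (pr m)} t : ℝ) ≤ m0 + cnt {m : ℕ | Tight j ε m} t +
      cnt {m : ℕ | Tight j ε m} t := by exact_mod_cast h3
  linarith

end Pool.Agent.T6.H56.EA
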