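import Pool.Agent.T6.H2.PT.IsoP
import Pool.Agent.Y886.EPB
import Pool.Agent.Y886.EPA
import Pool.Agent.X32.Uni.Gold
import Pool.Agent.T6.H56.EA.Runs

/-! Isolated Chen pairs in one-coloured progressions on one side, clusters of consecutive primes on the other. -/

set_option autoImplicit false
set_option maxHeartbeats 1000000

open Finset Filter

namespace Pool.Agent.T6.H56.EA

open Pool.Agent.X32.Uni Pool.Agent.T6.H2.PT
open Pool.Agent.Results.MP_3509fd_nt.NeighboursOfAlmostMissing (AlmostMissing)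

/-- the slopes and the constant terms of `6 k - 1` and `6 k + 1` -/
def a2 : Fin 2 → ℤ := fun _ => 6
def b2 : Fin 2 → ℤ := ![-1, 1]

lemma sys2 (X : ℕ) (hX : 1 ≤ X) : SysL 2 6 6 X a2 b2 0 1 where
  a0 := fun l => by unfold a2; norm_num
  aE := by unfold a2; decide
  aE' := by unfold a2; decide
  aK := fun l => by unfold a2; norm_num
  bK := fun l => by
    have h1 : |b2 l| ≤ 1 := by
      revert l
      decide
    have h2 : (1 : ℤ) ≤ X := by exact_mod_cast hX
    push_cast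
    linarith
  adm := fun p hp => ⟨0, fun i hd => by
    have h1 : (p : ℤ) ∣ 1 := by
      fin_cases i
      · have : a2 0 * 0 + b2 0 = -1 := by unfold a2 b2; norm_num
        have h2 : (p : ℤ) ∣ -1 := by
          rw [← this]
          exact hd
        exact (Int.dvd_neg).1 h2
      · have : a2 1 * 0 + b2 1 = 1 := by unfold a2 b2; norm_num
        rw [← this]
        exact hd
    have h2 : p ∣ 1 := by exact_mod_cast h1
    exact hp.one_lt.ne' (Nat.dvd_one.1 h2)⟩
  ne := by unfold a2 b2; decide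
  ne' := by unfold a2 b2; decide

/-- `6 k - 1` is a prime, `6 k + 1` has at most two prime factors, all larger than `X ^ (1/9)`, and every other
integer at distance at most `w` of `6 k` has a prime factor `≤ y` -/
def CI (X : ℕ) (w y : ℝ) (k : ℕ) : Prop :=
  (6 * k - 1).Prime ∧ (6 * k + 1).primeFactorsList.length ≤ 2 ∧
    (∀ p : ℕ, p.Prime → p ∣ 6 * k + 1 → (X : ℝ) ^ (1 / 9 : ℝ) < (p : ℝ)) ∧
    ∀ z : ℤ, |(z : ℝ) - 6 * k| ≤ w → z ≠ 6 * k - 1 → z ≠ 6 * k + 1 →
      ∃ q : ℕ, q.Prime ∧ (q : ℝ) ≤ y ∧ (q : ℤ) ∣ z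

lemma CI_missing {X r k : ℕ} {w y : ℝ} (hX : 1 ≤ X) (hr : 9 ≤ r) (h : CI X w y k) : AlmostMissing r X k := by
  obtain ⟨h1, h2, h3, -⟩ := h
  refine ⟨h1, by omega, ?_⟩
  intro p hp hd
  refine lt_of_le_of_lt ?_ (h3 p hp hd)
  have hX1 : (1 : ℝ) ≤ X := by exact_mod_cast hX
  have hr9 : (9 : ℝ) ≤ r := by exact_mod_cast hr
  apply Real.rpow_le_rpow_of_exponent_le hX1
  apply one_div_le_one_div_of_le (by norm_num) hr9

/-- the good arguments of the system -/
lemma CI_of {X X' t A B k : ℕ} {w w' y y' : ℝ} (hX : X ≤ X') (hy0 : 0 ≤ w') (hw : w' + 1 ≤ w) (hy : y ≤ y')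
    (hk : w' + 1 < 6 * k) (h : k ∈ GoodI a2 b2 0 1 t X' w y A B) : CI X w' y' k := by
  classical
  unfold GoodI GoodL at h
  rw [mem_filter, mem_filter] at h
  obtain ⟨⟨-, h1, h2, -⟩, h4⟩ := h
  have hk1 : 1 ≤ k := by
    by_contra h0
    have : k = 0 := by omega
    subst this
    norm_num at hk
    linarith
  have e0 : a2 0 * (k : ℤ) + b2 0 = ((6 * k - 1 : ℕ) : ℤ) := by
    rw [Nat.cast_sub (by omega)]
    unfold a2 b2
    push_cast
    norm_num
    ring
  have e1 : a2 1 * (k : ℤ) + b2 1 = ((6 * k + 1 : ℕ) : ℤ) := by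
    unfold a2 b2
    push_cast
    norm_num
  rw [e0, Int.natAbs_natCast] at h1
  rw [e1, almostN_iff] at h2
  obtain ⟨-, h5, h6⟩ := h2
  refine ⟨h1, h5, ?_, ?_⟩
  · intro p hp hd
    refine lt_of_le_of_lt ?_ (h6 p hp hd)
    apply Real.rpow_le_rpow (Nat.cast_nonneg _) _ (by norm_num)
    exact_mod_cast hX
  · intro z hz hz1 hz2
    have hz0 : 0 < z := by
      have := (abs_le.1 hz).1
      have h7 : (0 : ℝ) < z := by linarith
      exact_mod_cast h7
    obtain ⟨q, hq, hqy, hqd⟩ := h4 0 z (by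
      rw [e0]
      have e2 : (((6 * k - 1 : ℕ) : ℤ) : ℝ) = 6 * (k : ℝ) - 1 := by
        rw [Nat.cast_sub (by omega)]
        push_cast
        ring
      rw [e2]
      have e3 : (z : ℝ) - (6 * (k : ℝ) - 1) = ((z : ℝ) - 6 * k) + 1 := by ring
      rw [e3]
      refine (abs_add_le _ _).trans ?_
      rw [abs_one]
      linarith) (by
      intro u
      fin_cases u
      · show z ≠ a2 0 * (k : ℤ) + b2 0 ∧ z ≠ -(a2 0 * (k : ℤ) + b2 0)
        rw [e0, Nat.cast_sub (by omega)]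
        push_cast
        constructor
        · exact hz1
        · omega
      · show z ≠ a2 1 * (k : ℤ) + b2 1 ∧ z ≠ -(a2 1 * (k : ℤ) + b2 1)
        rw [e1]
        push_cast
        constructor
        · exact hz2
        · omega)
    exact ⟨q, hq, hqy.trans hy, hqd⟩

/-- the number of the first terms of the progressions -/
lemma first_terms (s : ℕ) (hs : 1 ≤ s) (G : Finset ℕ) (P : Finset (ℕ × ℕ)) (D : ℝ)
    (h1 : (P : Set (ℕ × ℕ)).PairwiseDisjoint (apSet s))
    (h2 : (((G \ P.biUnion (apSet s)).card : ℕ) : ℝ) ≤ D) :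
    ((G.card : ℝ) - D) / s ≤ ((P.image Prod.fst).card : ℝ) := by
  have hs0 : (0 : ℝ) < s := by exact_mod_cast hs
  have hself : ∀ z : ℕ × ℕ, z.1 ∈ apSet s z := by
    intro z
    unfold apSet
    rw [mem_image]
    exact ⟨0, mem_range.2 (by omega), by omega⟩
  have hinj : Set.InjOn (Prod.fst : ℕ × ℕ → ℕ) (P : Set (ℕ × ℕ)) := by
    intro z hz z' hz' he
    by_contra hne
    have h3 := h1 hz hz' hne
    rw [Function.onFun, disjoint_left] at h3
    exact h3 (hself z) (by rw [he]; exact hself z')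
  rw [card_image_of_injOn hinj, div_le_iff₀ hs0]
  have h3 : G.card ≤ (G \ P.biUnion (apSet s)).card + (P.biUnion (apSet s)).card := by
    have h4 : G ⊆ (G \ P.biUnion (apSet s)) ∪ P.biUnion (apSet s) := by
      intro x hx
      by_cases hx2 : x ∈ P.biUnion (apSet s)
      · exact mem_union_right _ hx2
      · exact mem_union_left _ (mem_sdiff.2 ⟨hx, hx2⟩)
    exact (card_le_card h4).trans (card_union_le _ _)
  have h5 : (P.biUnion (apSet s)).card ≤ P.card * s := by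
    apply card_biUnion_le_card_mul
    intro z _
    unfold apSet
    exact card_image_le.trans (by rw [card_range])
  have h6 : (G.card : ℝ) ≤ ((G \ P.biUnion (apSet s)).card : ℝ) + (P.card : ℝ) * s := by
    exact_mod_cast h3.trans (Nat.add_le_add_left h5 _)
  linarith

open Classical in
/-- many first terms of one-coloured progressions of isolated Chen pairs -/
theorem many_terms (β : ℝ) (hβ : 0 < β) : ∃ ε : ℝ, 0 < ε ∧ ∀ (s q : ℕ), 1 ≤ s → ∃ c : ℕ, ∃ κ : ℝ, 0 < κ ∧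
    ∀ χ : ℕ → ℕ → Fin q, ∀ᶠ X : ℕ in atTop, κ * X / Real.log X ^ 2 ≤
      (((Finset.Ioc X (2 * X)).filter (fun k => ∃ d : ℕ, 1 ≤ d ∧ (d : ℝ) ≤ Real.log X ^ c ∧
        ∀ i < s, CI X (ε * Real.log X) ((X : ℝ) ^ β) (k + i * d) ∧ χ X (k + i * d) = χ X k)).card : ℝ) := by
  obtain ⟨t, ht, κ, hκ, HM⟩ := isoP 2 6 (by norm_num)
  obtain ⟨ε, hε, HM⟩ := HM (β / 2) 6 (by positivity)
  refine ⟨ε / 2, by positivity, fun s q hs => ?_⟩
  obtain ⟨c, X₀, HM⟩ := HM s q (1 / 2) (κ / 2) hs (by norm_num) (by positivity)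
  have hs0 : (0 : ℝ) < s := by exact_mod_cast hs
  refine ⟨c + 1, κ / 2 * κ / (4 * s), by positivity, fun χ => ?_⟩
  have hlogt : Tendsto (fun x : ℕ => Real.log (x : ℝ)) atTop atTop :=
    Real.tendsto_log_atTop.comp tendsto_natCast_atTop_atTop
  have hpow : ∀ᶠ X : ℕ in atTop, (2 : ℝ) ^ (β / 2) ≤ (X : ℝ) ^ (β / 2) :=
    ((tendsto_rpow_atTop (by positivity : (0 : ℝ) < β / 2)).comp
      tendsto_natCast_atTop_atTop).eventually_ge_atTop _
  have hsmall : ∀ᶠ X : ℕ in atTop, ε * Real.log X ≤ X := by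
    have h := Real.isLittleO_log_id_atTop.bound (show (0 : ℝ) < 1 / ε by positivity)
    have h2 := (tendsto_natCast_atTop_atTop (R := ℝ)).eventually h
    filter_upwards [h2, eventually_ge_atTop 1] with X hX hX1
    have hX1r : (1 : ℝ) ≤ X := by exact_mod_cast hX1
    rw [Real.norm_of_nonneg (Real.log_nonneg hX1r), id, Real.norm_of_nonneg (by linarith)] at hX
    calc ε * Real.log X ≤ ε * (1 / ε * X) := mul_le_mul_of_nonneg_left hX hε.le
      _ = X := by field_simp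
  filter_upwards [eventually_ge_atTop (X₀ + 4), hpow, hsmall, hlogt.eventually_ge_atTop (2 / ε + 1),
    hlogt.eventually_ge_atTop ((2 : ℝ) ^ c)] with X hX hp hsm hl1 hl2
  have hXr : (4 : ℝ) ≤ X := by exact_mod_cast (by omega : 4 ≤ X)
  have hX0 : (0 : ℝ) < X := by linarith
  have hlog1 : 1 ≤ Real.log X := by
    have : 0 < 2 / ε := by positivity
    linarith
  have hlog0 : 0 < Real.log X := by linarith
  have hlog20' : 0 < Real.log ((2 * X : ℕ) : ℝ) := Real.log_pos (by push_cast; linarith)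
  have hlog2 : Real.log ((2 * X : ℕ) : ℝ) ≤ 2 * Real.log X := by
    push_cast
    rw [Real.log_mul (by norm_num) hX0.ne']
    have : Real.log 2 ≤ Real.log X := Real.log_le_log (by norm_num) (by linarith)
    linarith
  have hlog20 : Real.log X ≤ Real.log ((2 * X : ℕ) : ℝ) := by
    apply Real.log_le_log hX0
    push_cast
    linarith
  obtain ⟨g1, g2⟩ := HM (2 * X) (by omega) a2 b2 0 1 (sys2 (2 * X) (by omega))
  obtain ⟨g3, g4⟩ := g2 X (2 * X) le_rfl (by push_cast; linarith)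
  obtain ⟨P, p1, p2, p3⟩ := g4 (χ X)
  set V := VL a2 b2 (2 * X) with hV
  have hV0 : 0 < V := lt_of_lt_of_le (by positivity) g1
  have e1 : (((2 * X : ℕ) : ℝ) - X) = X := by push_cast; ring
  rw [e1] at g3 p3
  have h5 := first_terms s hs _ P _ p2 p3
  have h6 : κ / 2 * κ / (4 * s) * X / Real.log X ^ 2 ≤ ((P.image Prod.fst).card : ℝ) := by
    refine le_trans ?_ h5
    rw [le_div_iff₀ hs0]
    have h7 : κ / 2 * X * V ≤
        ((GoodI a2 b2 0 1 t (2 * X) (ε * Real.log ((2 * X : ℕ) : ℝ)) (((2 * X : ℕ) : ℝ) ^ (β / 2)) X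
          (2 * X)).card : ℝ) - κ / 2 * X * V := by linarith
    refine le_trans ?_ h7
    have h8 : κ / (4 * Real.log X ^ 2) ≤ V := by
      refine le_trans ?_ g1
      apply div_le_div_of_nonneg_left hκ.le (by positivity)
      calc Real.log ((2 * X : ℕ) : ℝ) ^ 2 ≤ (2 * Real.log X) ^ 2 :=
            pow_le_pow_left₀ (by linarith) hlog2 2
        _ = 4 * Real.log X ^ 2 := by ring
    calc κ / 2 * κ / (4 * s) * X / Real.log X ^ 2 * s = κ / 2 * X * (κ / (4 * Real.log X ^ 2)) := by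
          field_simp
      _ ≤ κ / 2 * X * V := mul_le_mul_of_nonneg_left h8 (by positivity)
  refine h6.trans ?_
  apply Nat.cast_le.2
  apply card_le_card
  intro k hk
  rw [mem_image] at hk
  obtain ⟨z, hz, rfl⟩ := hk
  obtain ⟨q1, q2, q3⟩ := p1 z hz
  rw [mem_filter]
  have q4 := (q3 0 (by omega)).1
  rw [zero_mul, add_zero] at q4
  have q5 : z.1 ∈ Finset.Ioc X (2 * X) := by
    unfold GoodI GoodL at q4
    rw [mem_filter, mem_filter] at q4
    exact q4.1.1
  refine ⟨q5, z.2, q1, ?_, ?_⟩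
  · refine q2.trans ?_
    calc Real.log ((2 * X : ℕ) : ℝ) ^ c ≤ (2 * Real.log X) ^ c := pow_le_pow_left₀ (by linarith) hlog2 c
      _ = 2 ^ c * Real.log X ^ c := by rw [mul_pow]
      _ ≤ Real.log X * Real.log X ^ c := mul_le_mul_of_nonneg_right hl2 (by positivity)
      _ = Real.log X ^ (c + 1) := by rw [pow_succ]; ring
  · intro i hi
    obtain ⟨q6, q7⟩ := q3 i hi
    refine ⟨?_, q7⟩
    rw [mem_Ioc] at q5
    apply CI_of (X' := 2 * X) (t := t) (A := X) (B := 2 * X)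
      (w := ε * Real.log ((2 * X : ℕ) : ℝ)) (y := ((2 * X : ℕ) : ℝ) ^ (β / 2)) (by omega) (by positivity)
      ?_ ?_ ?_ q6
    · have h9 : 1 ≤ ε / 2 * Real.log X := by
        have : 2 / ε ≤ Real.log X := by linarith
        rw [div_le_iff₀ hε] at this
        linarith
      calc ε / 2 * Real.log X + 1 ≤ ε / 2 * Real.log X + ε / 2 * Real.log X := by linarith
        _ = ε * Real.log X := by ring
        _ ≤ _ := mul_le_mul_of_nonneg_left hlog20 hε.le
    · push_cast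
      rw [Real.mul_rpow (by norm_num) hX0.le]
      calc (2 : ℝ) ^ (β / 2) * (X : ℝ) ^ (β / 2) ≤ (X : ℝ) ^ (β / 2) * (X : ℝ) ^ (β / 2) :=
            mul_le_mul_of_nonneg_right hp (by positivity)
        _ = (X : ℝ) ^ β := by
            rw [← Real.rpow_add hX0]
            congr 1
            ring
    · have h9 : (X : ℝ) < ((z.1 + i * z.2 : ℕ) : ℝ) := by
        exact_mod_cast (by omega : X < z.1 + i * z.2)
      have h10 : ε / 2 * Real.log X ≤ X / 2 := by linarith
      linarith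

/-- the numbers represented -/
def Gr (s j r C A : ℕ) (ε β : ℝ) {q : ℕ} (χ : ℕ → ℕ → Fin q) (X : ℕ) : Set ℕ :=
  {n : ℕ | X < n ∧ n ≤ 3 * X ∧ ∃ k m d : ℕ, 1 ≤ k ∧ 1 ≤ m ∧ 1 ≤ d ∧ k + m = n ∧
    (m : ℝ) ≤ Real.log X ^ A ∧ (d : ℝ) ≤ Real.log X ^ A ∧
    (∀ i < s, CI X (ε * Real.log X) ((X : ℝ) ^ β) (k + i * d) ∧ χ X (k + i * d) = χ X k) ∧ Run j r C m}

theorem grid (j : ℕ) : ∃ r C : ℕ, ∀ β : ℝ, 0 < β → ∃ ε : ℝ, 0 < ε ∧ ∀ s q : ℕ, 1 ≤ s → ∃ A : ℕ,
    ∀ χ : ℕ → ℕ → Fin q, ∃ c : ℝ, 0 < c ∧ ∀ᶠ X : ℕ in atTop,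
      c * X / Real.log (Real.log (Real.log (Real.log X))) ^ 2 ≤ ((Gr s j r C A ε β χ X).ncard : ℝ) := by
  classical
  obtain ⟨r, C, B, hdens⟩ := dens_log j
  refine ⟨r, C, fun β hβ => ?_⟩
  obtain ⟨ε, hε, HM⟩ := many_terms β hβ
  refine ⟨ε, hε, fun s q hs => ?_⟩
  obtain ⟨c, κ, hκ, HM⟩ := HM s q hs
  refine ⟨max c (B + 4), fun χ => ?_⟩
  obtain ⟨r0, -, hrom⟩ := Pool.Agent.Y886.EP.rom
  obtain ⟨y0, hy0⟩ := eventually_atTop.1 hdens
  obtain ⟨c', hc', X₀, hX₀⟩ := hrom (max r0 9) (le_max_left _ _)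
    (fun X k => 1 ≤ X ∧ ∃ d : ℕ, 1 ≤ d ∧ (d : ℝ) ≤ Real.log X ^ c ∧
        ∀ i < s, CI X (ε * Real.log X) ((X : ℝ) ^ β) (k + i * d) ∧ χ X (k + i * d) = χ X k)
    (fun X k _ _ h => by
      obtain ⟨h1, d, -, -, h2⟩ := h
      have h3 := (h2 0 (by omega)).1
      rw [zero_mul, add_zero] at h3
      exact CI_missing h1 (le_max_right _ _) h3) κ hκ (by
      filter_upwards [HM χ, eventually_ge_atTop 1] with X hX hX1
      refine hX.trans ?_
      apply le_of_eq
      congr 2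
      ext k
      simp [hX1]) B {m : ℕ | Run j r C m} (by
      refine ⟨max y0 3, fun y hy => ?_⟩
      have h1 := hy0 y ((le_max_left _ _).trans hy)
      have hy3 : 3 ≤ y := (le_max_right _ _).trans hy
      have hy3r : (3 : ℝ) ≤ y := by exact_mod_cast hy3
      have hlog : 0 < Real.log y := Real.log_pos (by linarith)
      refine ⟨(Icc 1 y).filter (fun m => m ∈ {m : ℕ | Cl j r C (pr m)}), filter_subset _ _, ?_, ?_⟩
      · intro m hm
        rw [mem_filter, mem_Icc] at hm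
        exact run_of_Cl hm.1.1 hm.2
      · rw [div_le_iff₀ (by positivity)] at h1
        exact h1)
  refine ⟨c', hc', ?_⟩
  have hlogt : Tendsto (fun x : ℕ => Real.log (x : ℝ)) atTop atTop :=
    Real.tendsto_log_atTop.comp tendsto_natCast_atTop_atTop
  have hll : ∀ᶠ X : ℕ in atTop, Real.log (Real.log X) ^ (B + 1) ≤ Real.log X := by
    have h := (isLittleO_log_rpow_atTop (r := 1 / ((B : ℝ) + 1)) (by positivity)).bound
      (by norm_num : (0 : ℝ) < 1)
    filter_upwards [hlogt.eventually h, hlogt.eventually_ge_atTop 1] with X hX hX1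
    rw [Real.norm_of_nonneg (Real.log_nonneg hX1), Real.norm_of_nonneg (by positivity), one_mul] at hX
    calc Real.log (Real.log X) ^ (B + 1) ≤ (Real.log X ^ (1 / ((B : ℝ) + 1))) ^ (B + 1) :=
          pow_le_pow_left₀ (Real.log_nonneg hX1) hX _
      _ = Real.log X := by
          rw [← Real.rpow_natCast, ← Real.rpow_mul (by linarith)]
          have : 1 / ((B : ℝ) + 1) * ((B + 1 : ℕ) : ℝ) = 1 := by
            push_cast
            field_simp
          rw [this, Real.rpow_one]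
  filter_upwards [eventually_ge_atTop X₀, hlogt.eventually_ge_atTop 1, hll] with X hX hX1 hl
  obtain ⟨I, hI1, hI2, hI3⟩ := hX₀ X hX
  refine hI3.trans ?_
  rw [← Set.ncard_coe_finset I]
  apply Nat.cast_le.2
  apply Set.ncard_le_ncard _ ((Set.finite_Iic (3 * X)).subset (fun n hn => hn.2.1))
  intro n hn
  have h3 := mem_Ioc.1 (hI1 hn)
  obtain ⟨k, m, hkm, hmM, hm1, hmL, hk1, hk2, -, d, hd1, hd2, hP⟩ := hI2 n hn
  refine ⟨h3.1, h3.2, k, m, d, by omega, hm1, hd1, hkm, ?_, ?_, hP, hmM⟩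
  · refine hmL.trans ?_
    calc Real.log X ^ 2 * Real.log (Real.log X) ^ (B + 1) ≤ Real.log X ^ 2 * Real.log X :=
          mul_le_mul_of_nonneg_left hl (by positivity)
      _ = Real.log X ^ 3 := by ring
      _ ≤ Real.log X ^ (max c (B + 4)) := pow_le_pow_right₀ hX1 (by omega)
  · exact hd2.trans (pow_le_pow_right₀ hX1 (le_max_left _ _))

end Pool.Agent.T6.H56.EA
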