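import Pool.Agent.T6.H56.EA.Sums
import Pool.Agent.TH882.J2

/-! The indices of the primes which start a cluster, and of the primes with close neighbours. -/

set_option autoImplicit false
set_option maxHeartbeats 1000000

open Finset Filter Topology

namespace Pool.Agent.T6.H56.EA

open Pool.Agent.H361R2.PP
open Pool.Agent.TH882.DD (FF)

/-- the `m`-th prime -/
noncomputable def pr (m : ℕ) : ℕ := Nat.nth Nat.Prime (m - 1)

lemma pr_count (p : ℕ) (hp : p.Prime) : pr (Nat.count Nat.Prime p + 1) = p := by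
  unfold pr
  rw [Nat.add_sub_cancel]
  exact Nat.nth_count hp

/-- from primes to indices -/
lemma cnt_ge (Pp : ℕ → Prop) (t : ℕ) (A : Finset ℕ)
    (hA : ∀ p ∈ A, p.Prime ∧ Pp p ∧ Nat.count Nat.Prime p + 1 ≤ t) :
    A.card ≤ cnt {m : ℕ | Pp (pr m)} t := by
  classical
  unfold cnt
  rw [← card_image_of_injOn (s := A) (f := fun p => Nat.count Nat.Prime p + 1)]
  · apply card_le_card
    intro m hm
    rw [mem_image] at hm
    obtain ⟨p, hp, rfl⟩ := hm
    obtain ⟨h1, h2, h3⟩ := hA p hp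
    rw [mem_filter, mem_Icc]
    refine ⟨⟨by omega, h3⟩, ?_⟩
    show Pp (pr (Nat.count Nat.Prime p + 1))
    rwa [pr_count p h1]
  · intro a ha b hb hab
    have h1 := pr_count a (hA a ha).1
    have h2 := pr_count b (hA b hb).1
    simp only at hab
    rw [hab] at h1
    exact h1.symm.trans h2

lemma Cl_mono {j r r' C C' p : ℕ} (hr : r ≤ r') (hC : C ≤ C') (h : Cl j r C p) : Cl j r' C' p := by
  classical
  obtain ⟨h1, y, h2, h3, h4, h5⟩ := h
  exact ⟨h1, y, h2, by omega, h4, fun q hq hp => (h5 q hq hp).trans hr⟩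

/-- the indices of the primes which start a cluster -/
theorem dens_log (j : ℕ) : ∃ r C B : ℕ, ∀ᶠ t : ℕ in atTop,
    (t : ℝ) / Real.log t ^ B ≤ (cnt {m : ℕ | Cl j r C (pr m)} t : ℝ) := by
  classical
  obtain ⟨r, L, A0, δ, c0, hδ, hδ1, hc0, X1, h1⟩ := pat j
  obtain ⟨w0, δ', hδ', hδ1', C, hC, X2, hR⟩ := RD_upper L A0 δ hδ hδ1
  refine ⟨r, A0, L + 1, ?_⟩
  have hlogt : Tendsto (fun x : ℕ => Real.log (x : ℝ)) atTop atTop :=
    Real.tendsto_log_atTop.comp tendsto_natCast_atTop_atTop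
  filter_upwards [hlogt.eventually_ge_atTop (max 1 (4 * C ^ L / c0)),
    eventually_ge_atTop (3 * (X1 + X2 + A0 + 10))] with t ht1 ht2
  have hl1 : 1 ≤ Real.log t := (le_max_left _ _).trans ht1
  have hl2 : 4 * C ^ L / c0 ≤ Real.log t := (le_max_right _ _).trans ht1
  set X : ℕ := t / 3 with hX
  have hX1 : X1 ≤ X := by omega
  have hX2 : X2 ≤ X := by omega
  have hX10 : 3 ≤ X := by omega
  have htX : t ≤ 3 * X + 2 := by omega
  obtain ⟨U, hU1, hU2, hU3, h0, hh0, A, hA1, hA2, hA3⟩ := h1 X hX1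
  obtain ⟨hF0, hFl, -⟩ := hR X hX2
  have hXr : (3 : ℝ) ≤ X := by exact_mod_cast hX10
  have hX0 : (0 : ℝ) < X := by linarith
  have hlX : 0 < Real.log X := Real.log_pos (by linarith)
  have hlXt : Real.log X ≤ Real.log t := by
    apply Real.log_le_log hX0
    have : X ≤ t := by omega
    exact_mod_cast this
  have hcard := cnt_ge (fun p => Cl j r A0 p) t (A.image (fun n => n + h0)) (by
    intro p hp
    rw [mem_image] at hp
    obtain ⟨n, hn, rfl⟩ := hp
    obtain ⟨-, h3, -⟩ := hA2 n hn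
    have h4 := mem_Ico.1 (hA1 hn)
    have h5 := Nat.count_le (p := Nat.Prime) (n := n + h0)
    exact ⟨h3.1, h3, by omega⟩)
  rw [card_image_of_injective _ (fun a b hab => by simpa using hab)] at hcard
  have h6 : c0 * (X * FF δ X ^ L) ≤ (cnt {m : ℕ | Cl j r A0 (pr m)} t : ℝ) :=
    hA3.trans (by exact_mod_cast hcard)
  refine le_trans ?_ h6
  have h7 : 1 ≤ (C * FF δ X * Real.log t) ^ L := by
    apply one_le_pow₀
    rw [div_le_iff₀ hlX] at hFl
    refine hFl.trans ?_
    exact mul_le_mul_of_nonneg_left hlXt (by positivity)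
  have h8 : (1 : ℝ) / Real.log t ^ L ≤ C ^ L * FF δ X ^ L := by
    rw [div_le_iff₀ (by positivity)]
    refine h7.trans (le_of_eq ?_)
    rw [mul_pow, mul_pow]
  have htr : (t : ℝ) ≤ 3 * X + 2 := by exact_mod_cast htX
  have hC0 : 0 < C ^ L := by positivity
  rw [div_le_iff₀ hc0] at hl2
  calc (t : ℝ) / Real.log t ^ (L + 1) = t / Real.log t * (1 / Real.log t ^ L) := by
        rw [pow_succ]
        field_simp
    _ ≤ t / Real.log t * (C ^ L * FF δ X ^ L) := mul_le_mul_of_nonneg_left h8 (by positivity)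
    _ ≤ (c0 / C ^ L * X) * (C ^ L * FF δ X ^ L) := by
        apply mul_le_mul_of_nonneg_right _ (by positivity)
        rw [div_le_iff₀ (by linarith)]
        have h9 : (4 : ℝ) ≤ c0 / C ^ L * Real.log t := by
          rw [div_mul_eq_mul_div, le_div_iff₀ hC0]
          linarith
        calc (t : ℝ) ≤ 4 * X := by linarith
          _ ≤ c0 / C ^ L * Real.log t * X := mul_le_mul_of_nonneg_right h9 hX0.le
          _ = c0 / C ^ L * X * Real.log t := by ring
    _ = _ := by field_simp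

open Pool.Agent.TH882.JS (nb KP Rd dens_C) in
/-- many primes with close neighbours -/
lemma close_primes (j : ℕ) (ε : ℝ) (hε : 0 < ε) : ∃ c : ℝ, 0 < c ∧ ∃ X₀ : ℕ, ∀ X : ℕ, X₀ ≤ X →
    ∃ A ⊆ Ico X (2 * X), (∀ p ∈ A, p.Prime ∧ j ≤ nb ⌊ε * Real.log X⌋₊ p) ∧
    c * ((X : ℝ) / Real.log X) ≤ (A.card : ℝ) := by
  classical
  obtain ⟨c, hc, X0, h⟩ := dens_C j ε 1 hε one_pos
  refine ⟨c, hc, X0, fun X hX => ?_⟩
  have h1 := h X hX (Rd X) (Finset.Subset.refl _) (by
    rw [one_mul, Pool.Agent.TH882.JS.Rd_card])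
  refine ⟨(Rd X).biUnion (fun b => KP j ε X b), ?_, ?_, ?_⟩
  · intro p hp
    rw [mem_biUnion] at hp
    obtain ⟨b, -, hb⟩ := hp
    unfold KP SI at hb
    rw [mem_filter, mem_filter] at hb
    exact hb.1.1
  · intro p hp
    rw [mem_biUnion] at hp
    obtain ⟨b, -, hb⟩ := hp
    unfold KP at hb
    rw [mem_filter] at hb
    exact hb.2
  · rw [card_biUnion]
    · push_cast
      exact h1
    · intro b _ b' _ hne
      rw [Function.onFun, disjoint_left]
      intro n hn hn'
      unfold KP SI at hn hn'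
      rw [mem_filter, mem_filter] at hn hn'
      exact hne (hn.1.2.symm.trans hn'.1.2)

/-- at least `j` other primes at distance at most `ε log p` -/
def Cs (j : ℕ) (ε : ℝ) (p : ℕ) : Prop := j ≤ Pool.Agent.TH882.JS.nb ⌊ε * Real.log p⌋₊ p

lemma nb_mono {N N' : ℕ} (h : N ≤ N') (p : ℕ) :
    Pool.Agent.TH882.JS.nb N p ≤ Pool.Agent.TH882.JS.nb N' p := by
  classical
  unfold Pool.Agent.TH882.JS.nb
  apply card_le_card
  intro q hq
  rw [mem_filter, mem_Icc] at hq ⊢
  exact ⟨⟨by omega, by omega⟩, hq.2⟩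

theorem dens_pos (j : ℕ) (ε : ℝ) (hε : 0 < ε) : ∃ η : ℝ, 0 < η ∧ ∀ᶠ t : ℕ in atTop,
    η * t ≤ (cnt {m : ℕ | Cs j ε (pr m)} t : ℝ) := by
  classical
  obtain ⟨c, hc, X0, h⟩ := close_primes j ε hε
  refine ⟨c / 6, by positivity, ?_⟩
  have hprt : Tendsto (fun t : ℕ => pr t) atTop atTop := by
    apply tendsto_atTop_mono (f := fun t : ℕ => t - 1) _ (tendsto_sub_atTop_nat 1)
    intro t
    unfold pr
    have := Nat.add_two_le_nth_prime (t - 1)
    omega
  have hch := (Chebyshev.eventually_primeCounting_le (ε := 1 / 2) (by norm_num))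
  have hch2 := (tendsto_natCast_atTop_atTop (R := ℝ)).comp hprt |>.eventually hch
  filter_upwards [hch2, hprt.eventually_ge_atTop (2 * X0 + 20), eventually_ge_atTop 1] with t h1 h2 h3
  simp only [Function.comp_apply, Nat.floor_natCast] at h1
  set x : ℕ := pr t with hx
  have hpi : Nat.primeCounting x = t := by
    rw [hx]
    unfold pr Nat.primeCounting Nat.primeCounting'
    rw [Nat.count_nth_succ_of_infinite Nat.infinite_setOfPred_prime]
    omega
  rw [hpi] at h1
  set X : ℕ := x / 2 with hX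
  have hX0 : X0 ≤ X := by omega
  have hX10 : 10 ≤ X := by omega
  obtain ⟨A, hA1, hA2, hA3⟩ := h X hX0
  have hXr : (10 : ℝ) ≤ X := by exact_mod_cast hX10
  have hXp : (0 : ℝ) < X := by linarith
  have hlX : 0 < Real.log X := Real.log_pos (by linarith)
  have hxX : (x : ℝ) ≤ 2 * X + 1 := by
    have : x ≤ 2 * X + 1 := by omega
    exact_mod_cast this
  have hXx : (X : ℝ) ≤ x := by
    have : X ≤ x := by omega
    exact_mod_cast this
  have hlx : Real.log X ≤ Real.log x := Real.log_le_log hXp hXx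
  have hcard := cnt_ge (fun p => Cs j ε p) t A (by
    intro p hp
    have h4 := mem_Ico.1 (hA1 hp)
    obtain ⟨h5, h6⟩ := hA2 p hp
    refine ⟨h5, ?_, ?_⟩
    · refine h6.trans (nb_mono ?_ p)
      apply Nat.floor_mono
      apply mul_le_mul_of_nonneg_left _ hε.le
      apply Real.log_le_log hXp
      exact_mod_cast h4.1
    · rw [← hpi]
      unfold Nat.primeCounting Nat.primeCounting'
      have h7 : p + 1 ≤ x + 1 := by omega
      have h8 := Nat.count_monotone Nat.Prime h7
      rw [Nat.count_succ, if_pos h5] at h8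
      exact h8)
  have h9 : c * ((X : ℝ) / Real.log X) ≤ (cnt {m : ℕ | Cs j ε (pr m)} t : ℝ) :=
    hA3.trans (by exact_mod_cast hcard)
  refine le_trans ?_ h9
  have hlx0 : 0 < Real.log x := lt_of_lt_of_le hlX hlx
  have hl4 : Real.log 4 ≤ 3 / 2 := by
    have h4 : Real.log 4 = 2 * Real.log 2 := by
      rw [show (4 : ℝ) = 2 ^ 2 by norm_num, Real.log_pow]
      norm_num
    have := Real.log_two_lt_d9
    linarith
  have h10 : (t : ℝ) ≤ 2 * x / Real.log x := by
    refine h1.trans ?_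
    apply div_le_div_of_nonneg_right _ hlx0.le
    apply mul_le_mul_of_nonneg_right _ (by positivity)
    linarith
  have h11 : (x : ℝ) / Real.log x ≤ 3 * (X / Real.log X) := by
    have h12 : (x : ℝ) ≤ 3 * X := by linarith
    calc (x : ℝ) / Real.log x ≤ (3 * X) / Real.log X := by
          apply div_le_div₀ (by positivity) h12 hlX hlx
      _ = _ := by ring
  calc c / 6 * (t : ℝ) ≤ c / 6 * (2 * x / Real.log x) := mul_le_mul_of_nonneg_left h10 (by positivity)
    _ = c / 3 * (x / Real.log x) := by ring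
    _ ≤ c / 3 * (3 * (X / Real.log X)) := mul_le_mul_of_nonneg_left h11 (by positivity)
    _ = _ := by ring

end Pool.Agent.T6.H56.EA
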