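import Pool.Agent.T6.H56.EA.PatX
import Pool.Agent.T6.H56.EA.Core

/-! The integers `k` for which `6 k - 1` starts a cluster of primes with almost prime companions. -/

set_option autoImplicit false
set_option maxHeartbeats 1000000

open Finset Filter Topology

namespace Pool.Agent.T6.H56.EA

open Pool.Agent.H361R2.PP
open Pool.Agent.W70.HR
open Pool.Agent.TH882.UB
open Pool.Agent.TH882.HE
open Pool.Agent.TH882.AG
open Pool.Agent.TH882.DD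

/-- the same in terms of `k` -/
theorem kset (j : ℕ) : ∃ (r L A0 : ℕ) (δ c0 : ℝ), 0 < δ ∧ δ ≤ 1 ∧ 0 < c0 ∧ ∃ X₀ : ℕ,
    ∀ X : ℕ, X₀ ≤ X → ∃ U : Finset ℕ, U.card = L ∧ U.Nonempty ∧ (∀ u ∈ U, u ≤ A0) ∧
    ∃ s ≤ A0 + 1, ∃ K : Finset ℕ,
    (∀ k ∈ K, s ≤ 6 * k ∧ 6 * k - s ∈ Ico X (2 * X) ∧ Ro δ X U (6 * k - s) ∧
      1 ≤ k ∧ Cl j r A0 (6 * k - 1)) ∧
    c0 * (X * FF δ X ^ L) ≤ (K.card : ℝ) := by
  classical
  obtain ⟨r, L, A0, δ, c0, hδ, hδ1, hc0, X0, h⟩ := pat j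
  refine ⟨r, L, A0, δ, c0, hδ, hδ1, hc0, X0, ?_⟩
  intro X hX
  obtain ⟨U, hU1, hU2, hU3, h0, hh0, A, hA1, hA2, hA3⟩ := h X hX
  have hk : ∀ n ∈ A, 6 * ((n + h0 + 1) / 6) = n + h0 + 1 := by
    intro n hn
    have := (hA2 n hn).2.2
    omega
  refine ⟨U, hU1, hU2, hU3, h0 + 1, by omega, A.image (fun n => (n + h0 + 1) / 6), ?_, ?_⟩
  · intro k hkk
    rw [mem_image] at hkk
    obtain ⟨n, hn, rfl⟩ := hkk
    have h1 := hk n hn
    obtain ⟨h2, h3, h4⟩ := hA2 n hn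
    have e1 : 6 * ((n + h0 + 1) / 6) - (h0 + 1) = n := by omega
    have e2 : 6 * ((n + h0 + 1) / 6) - 1 = n + h0 := by omega
    rw [e1, e2]
    exact ⟨by omega, hA1 hn, h2, by omega, h3⟩
  · rw [card_image_of_injOn]
    · exact hA3
    · intro a ha b hb hab
      have e1 := hk a ha
      have e2 := hk b hb
      simp only at hab
      omega

end Pool.Agent.T6.H56.EA
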