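import Pool.Agent.TH882.D4
import Pool.Agent.TH882.X2
import Pool.Agent.T6.H56.EA.BL

/-! Many `n` such that the primes in `(n, n + C]` are at least `j + 1` in number and all have almost
prime companions. -/

set_option autoImplicit false
set_option maxHeartbeats 1000000

open Finset Filter Topology

namespace Pool.Agent.T6.H56.EA

open Pool.Agent.H361R2.PP
open Pool.Agent.W70.HR
open Pool.Agent.TH882.UB
open Pool.Agent.TH882.HE
open Pool.Agent.TH882.AG
open Pool.Agent.TH882.DD
open Pool.Agent.TH882.HX (HSx mtx)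

open Classical in
/-- `p` is prime, and for some `y` in `[p, p + C]` there are at least `j` primes in `(p, y]`, and `q + 2` has
at most `r` prime factors for all primes `q` in `[p, y]` -/
def Cl (j r C p : ℕ) : Prop :=
  p.Prime ∧ ∃ y : ℕ, p ≤ y ∧ y ≤ p + C ∧ j ≤ ((Ioc p y).filter Nat.Prime).card ∧
    ∀ q ∈ Icc p y, q.Prime → ArithmeticFunction.cardFactors (q + 2) ≤ r

lemma adm_two : Adm {2} := by
  intro l hl
  by_cases h3 : l = 2 ∨ l = 3
  · refine ⟨-1, ?_, ?_⟩
    · rcases h3 with rfl | rfl <;> norm_num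
    · intro a ha
      rw [Finset.mem_singleton] at ha
      subst ha
      rcases h3 with rfl | rfl <;> norm_num
  · push Not at h3
    have h5 : 4 ≤ l := by
      have := hl.two_le
      omega
    refine ⟨1, ?_, ?_⟩
    · intro hd
      have := Int.le_of_dvd one_pos hd
      omega
    · intro a ha hd
      rw [Finset.mem_singleton] at ha
      subst ha
      have := Int.le_of_dvd (by norm_num) hd
      omega

lemma AP_two (r p : ℕ) (h : AP {2} r p) : ArithmeticFunction.cardFactors (p + 2) ≤ r := by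
  have h1 := (h 2 (Finset.mem_singleton_self _)).2
  have h2 : ((p : ℤ) + 2).toNat = p + 2 := by omega
  rwa [h2] at h1

lemma mod_six (q : ℕ) (a1 : ¬ 2 ∣ q) (a2 : ¬ 3 ∣ q) (a3 : ¬ 3 ∣ q + 2) : q % 6 = 5 := by
  have h6 : q % 6 = 0 ∨ q % 6 = 1 ∨ q % 6 = 2 ∨ q % 6 = 3 ∨ q % 6 = 4 ∨ q % 6 = 5 := by omega
  rcases h6 with h | h | h | h | h | h <;> omega

/-- the primes for the cover -/
noncomputable def pv (B v : ℕ) : ℕ := Nat.nth Nat.Prime (B + v)

lemma pv_prime (B v : ℕ) : (pv B v).Prime := Nat.prime_nth_prime _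

lemma pv_gt (B v : ℕ) : B < pv B v := by
  have := Nat.add_two_le_nth_prime (B + v)
  unfold pv
  omega

lemma pv_inj (B : ℕ) : Function.Injective (pv B) := by
  intro v v' he
  have := Nat.nth_injective Nat.infinite_setOfPred_prime he
  omega

/-- a class for which the positions of `U` are admissible and the other positions are covered -/
lemma base0 (S : Finset ℤ) (hS : Adm S) (T K w A0 : ℕ) (hUA : ∀ u ∈ Up S T K, u ≤ A0) :
    ∃ b0 : ℕ, (∀ u ∈ Up S T K, (b0 + u).Coprime (primorial w)) ∧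
      ∀ v ∈ Icc 1 A0 \ Up S T K, pv A0 v ≤ w → pv A0 v ∣ b0 + v := by
  classical
  obtain ⟨b1, hb1⟩ := base_class S T K w hS
  set V := Icc 1 A0 \ Up S T K with hV
  obtain ⟨N, -, hN⟩ := crt ∅ ((range (w + 1)).filter Nat.Prime) (by simp)
    (fun p hp => (mem_filter.1 hp).2) (disjoint_empty_left _) 0
    (fun l => if h : ∃ v ∈ V, pv A0 v = l then (l - h.choose % l) % l else b1 % l)
  refine ⟨N, ?_, ?_⟩
  · intro u hu
    rw [Nat.coprime_iff_gcd_eq_one]
    by_contra hcon
    obtain ⟨l, hl, hlg⟩ := Nat.exists_prime_and_dvd hcon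
    have h1 : l ∣ N + u := hlg.trans (Nat.gcd_dvd_left _ _)
    have h2 : l ∣ primorial w := hlg.trans (Nat.gcd_dvd_right _ _)
    have hlw : l ≤ w := hl.dvd_primorial_iff.1 h2
    have h3 := hN l (mem_filter.2 ⟨mem_range.2 (by omega), hl⟩)
    by_cases h : ∃ v ∈ V, pv A0 v = l
    · rw [dif_pos h, Nat.mod_mod] at h3
      obtain ⟨hv1, hv2⟩ := h.choose_spec
      set v := h.choose with hvd
      have h4 : l ∣ N + v := (mod_eq_iff hl.pos N v).1 h3
      rw [hV, Finset.mem_sdiff, mem_Icc] at hv1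
      have h5 := hUA u hu
      have h6 := pv_gt A0 v
      rw [hv2] at h6
      have h7 : N + u ≡ N + v [MOD l] :=
        ((Nat.modEq_zero_iff_dvd).2 h1).trans ((Nat.modEq_zero_iff_dvd).2 h4).symm
      have h8 : u ≡ v [MOD l] := Nat.ModEq.add_left_cancel' N h7
      unfold Nat.ModEq at h8
      rw [Nat.mod_eq_of_lt (by omega), Nat.mod_eq_of_lt (by omega)] at h8
      exact hv1.2 (h8 ▸ hu)
    · rw [dif_neg h, Nat.mod_mod] at h3
      have h4 : N ≡ b1 [MOD l] := h3
      have h5 : l ∣ b1 + u := ((h4.add_right u).dvd_iff dvd_rfl).1 h1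
      have h6 := Nat.dvd_gcd h5 h2
      have h7 := hb1 u hu
      rw [Nat.coprime_iff_gcd_eq_one] at h7
      rw [h7] at h6
      exact hl.one_lt.ne' (Nat.dvd_one.1 h6)
  · intro v hv hvw
    have hp := pv_prime A0 v
    have h3 := hN (pv A0 v) (mem_filter.2 ⟨mem_range.2 (by omega), hp⟩)
    have h : ∃ v' ∈ V, pv A0 v' = pv A0 v := ⟨v, hv, rfl⟩
    rw [dif_pos h, Nat.mod_mod] at h3
    have h4 : h.choose = v := pv_inj A0 h.choose_spec.2
    rw [h4] at h3
    exact (mod_eq_iff hp.pos N v).1 h3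

/-- many `n` such that the primes in a bounded interval after `n` are many and all have almost prime
companions, and the first of them is `n + h0` -/
theorem pat (j : ℕ) : ∃ (r L A0 : ℕ) (δ c0 : ℝ), 0 < δ ∧ δ ≤ 1 ∧ 0 < c0 ∧ ∃ X₀ : ℕ,
    ∀ X : ℕ, X₀ ≤ X → ∃ U : Finset ℕ, U.card = L ∧ U.Nonempty ∧ (∀ u ∈ U, u ≤ A0) ∧
    ∃ h0 ≤ A0, ∃ A : Finset ℕ, A ⊆ Ico X (2 * X) ∧
    (∀ n ∈ A, Ro δ X U n ∧ Cl j r A0 (n + h0) ∧ (n + h0) % 6 = 5) ∧
    c0 * (X * FF δ X ^ L) ≤ (A.card : ℝ) := by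
  classical
  set S : Finset ℤ := {2} with hS
  set T : ℕ := 4 * (j + 1) with hTd
  have hT1 : 1 ≤ T := by omega
  obtain ⟨K, hK, hmte⟩ := mtx T hT1
  obtain ⟨δ, c, hδ, hδ8, hc, X1, h1⟩ := hmte 1 (T * K * S.card) one_pos
  have hδ1 : δ ≤ 1 := by linarith
  set U := Up S T K with hU
  set L : ℕ := U.card with hL
  set A0 : ℕ := U.sup id with hA0
  have hUA : ∀ u ∈ U, u ≤ A0 := fun u hu => Finset.le_sup (f := id) hu
  have hUne : U.Nonempty := by
    have hT0 : 0 < T := by omega
    exact ⟨_, Hp_mem S T K ⟨0, hT0⟩ ⟨0, hK⟩⟩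
  set V : Finset ℕ := Icc 1 A0 \ U with hV
  obtain ⟨w00, hw00⟩ := B_lowerX L A0
  set w : ℕ := max w00 (V.sup (pv A0)) with hw
  obtain ⟨c1, hc1, X2, h2⟩ := hw00 w (le_max_left _ _)
  obtain ⟨b0, hb0, hb0V⟩ := base0 S adm_two T K w A0 hUA
  obtain ⟨X3, h3⟩ := rough_ap δ hδ hδ1
  obtain ⟨X4, h4⟩ := JJ_size δ hδ hδ1 0 0 (by simp)
  have hpow : Tendsto (fun X : ℕ => (X : ℝ) ^ (δ / 2)) atTop atTop :=
    (tendsto_rpow_atTop (by positivity)).comp tendsto_natCast_atTop_atTop
  obtain ⟨X5, h5⟩ := eventually_atTop.1 (hpow.eventually_ge_atTop 4)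
  obtain ⟨X6, hHH⟩ := eventually_atTop.1 (HH_tendsto.eventually_ge_atTop w)
  have hlogt : Tendsto (fun X : ℕ => Real.log (X : ℝ)) atTop atTop :=
    Real.tendsto_log_atTop.comp tendsto_natCast_atTop_atTop
  obtain ⟨X7, h7⟩ := eventually_atTop.1 (hlogt.eventually_ge_atTop ((A0 : ℝ) + 1))
  set M : ℝ := (A0 : ℝ) + 1 with hM
  have hM0 : 0 < M := by rw [hM]; positivity
  refine ⟨⌊4 / δ⌋₊, L, A0, δ, c1 * c / M, hδ, hδ1, by positivity,
    max (max (max X1 X2) (max X3 X4)) (max (max X5 X6) (max X7 (max A0 (w + 1)))), ?_⟩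
  intro X hX
  have hX1 : X1 ≤ X := by omega
  have hX2 : X2 ≤ X := by omega
  have hX3 : X3 ≤ X := by omega
  have hX4 : X4 ≤ X := by omega
  have hX5 : X5 ≤ X := by omega
  have hX6 : X6 ≤ X := by omega
  have hX7 : X7 ≤ X := by omega
  have hXA : A0 ≤ X := by omega
  have hXw : w + 1 ≤ X := by omega
  obtain ⟨-, -, -, hsz⟩ := h4 X hX4
  have h44 := h5 X hX5
  have hJ4 : 4 ≤ 2 ^ 2 ^ JJ δ X := by
    have : (4 : ℝ) ≤ ((2 ^ 2 ^ JJ δ X : ℕ) : ℝ) := h44.trans hsz
    exact_mod_cast this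
  have hHw := hHH X hX6
  have hl := h7 X hX7
  have hB := h2 X hX2 U rfl hUA b0 hb0
  have hMW : primorial w ∣ Wm X := by
    unfold Wm
    exact primorial_dvd_primorial hHw
  -- the classes
  have hBm : ∀ b ∈ BX X U w b0, b < Wm X ∧ (∀ u ∈ U, (b + u).Coprime (Wm X)) ∧
      b % primorial w = b0 % primorial w := by
    intro b hb
    unfold BX BC at hb
    rw [mem_filter, mem_filter, mem_range] at hb
    exact ⟨hb.1.1, hb.1.2, hb.2⟩
  have hHS : ∀ b ∈ BX X U w b0, c * Om δ X L ≤ ((HSx δ X b (Hp S T K) U).card : ℝ) := by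
    intro b hb
    obtain ⟨hb1, hb2, -⟩ := hBm b hb
    have hUB : U ⊆ Bw 1 X b := by
      intro u hu
      unfold Bw BB
      rw [mem_filter, mem_Icc]
      refine ⟨⟨Up_pos S T K u hu, ?_⟩, hb2 u hu⟩
      apply Nat.le_floor
      have e1 : (u : ℝ) ≤ A0 := by exact_mod_cast hUA u hu
      rw [one_mul]
      linarith
    exact (h1 X hX1 b hb1).2 (Hp S T K) U (fun g i => Hp_mem S T K g i) (Hp_inj S T K) hUB
      (Up_card S T K)
  have hV0 : 0 < VV δ X := (h1 X hX1 0 (Wm_pos X)).1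
  set Z : Finset ℕ := (BX X U w b0).biUnion (fun b => HSx δ X b (Hp S T K) U) with hZ
  -- properties of the elements
  have hZp : ∀ n ∈ Z, n ∈ Ico X (2 * X) ∧ Ro δ X U n ∧
      (∀ q : ℕ, q.Prime → n < q → q ≤ n + A0 → ArithmeticFunction.cardFactors (q + 2) ≤ ⌊4 / δ⌋₊ ∧
        q % 6 = 5) ∧
      j + 1 ≤ ((Ioc n (n + A0)).filter Nat.Prime).card := by
    intro n hn
    rw [hZ, mem_biUnion] at hn
    obtain ⟨b, hb, hn⟩ := hn
    obtain ⟨hb1, hb2, hb3⟩ := hBm b hb
    unfold HSx HS at hn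
    rw [mem_filter, mem_filter] at hn
    obtain ⟨⟨hnS, hrg, hcnt⟩, honly⟩ := hn
    have hnS2 := hnS
    unfold SI at hnS2
    rw [mem_filter] at hnS2
    obtain ⟨hnI, hnb⟩ := hnS2
    have hnI2 := mem_Ico.1 hnI
    have hRo : Ro δ X U n := by
      intro u hu p hp hlt hd
      by_cases hpH : HH X < p
      · exact rg_one.1 (hrg u hu) p (mem_P1.2 ⟨hlt, hp, hpH⟩) hd
      · have e1 : p ∣ Wm X := by
          unfold Wm
          exact hp.dvd_primorial_iff.2 (by omega)
        have e2 : n % Wm X ≡ n [MOD p] := (Nat.mod_modEq _ _).of_dvd e1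
        rw [hnb] at e2
        have e3 : p ∣ b + u := ((e2.add_right u).dvd_iff dvd_rfl).2 hd
        have e4 := Nat.dvd_gcd e3 e1
        have e5 := hb2 u hu
        rw [Nat.coprime_iff_gcd_eq_one] at e5
        rw [e5] at e4
        exact hp.one_lt.ne' (Nat.dvd_one.1 e4)
    have hap : ∀ g i, AP S ⌊4 / δ⌋₊ (n + Hp S T K g i) := by
      intro g i a ha
      have e1 := Hpa_pos S T K g i a ha
      have e2 := Hpa_mem S T K g i a ha
      have e3 : ((n + Hp S T K g i : ℕ) : ℤ) + a =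
          ((n + ((Hp S T K g i : ℤ) + a).toNat : ℕ) : ℤ) := by
        push_cast
        rw [Int.toNat_of_nonneg e1.le]
        ring
      refine ⟨?_, ?_⟩
      · push_cast
        omega
      · rw [e3, Int.toNat_natCast]
        exact h3 X hX3 b n _ hb1 hnS (hb2 _ e2) ((hUA _ e2).trans hXA) (hrg _ e2)
    -- the primes are at the positions of `H`
    have hpos : ∀ q : ℕ, q.Prime → n < q → q ≤ n + A0 → ∃ g i, q = n + Hp S T K g i := by
      intro q hq h6 h8
      have hqw : n + (q - n) = q := by omega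
      by_cases hU' : q - n ∈ U
      · obtain ⟨g, i, hgi⟩ := honly (q - n) hU' (by rwa [hqw])
        exact ⟨g, i, by omega⟩
      · exfalso
        have hwV : q - n ∈ V := by
          rw [hV, Finset.mem_sdiff, mem_Icc]
          exact ⟨⟨by omega, by omega⟩, hU'⟩
        have hle : pv A0 (q - n) ≤ w :=
          (Finset.le_sup (f := pv A0) hwV).trans (le_max_right _ _)
        have hpw := pv_prime A0 (q - n)
        have e1 : pv A0 (q - n) ∣ primorial w := hpw.dvd_primorial_iff.2 hle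
        have e2 : pv A0 (q - n) ∣ b0 + (q - n) := hb0V (q - n) hwV hle
        have e3 : b ≡ b0 [MOD pv A0 (q - n)] := (show b ≡ b0 [MOD primorial w] from hb3).of_dvd e1
        have e4 : n % Wm X ≡ n [MOD pv A0 (q - n)] := (Nat.mod_modEq _ _).of_dvd (e1.trans hMW)
        rw [hnb] at e4
        have e5 : n ≡ b0 [MOD pv A0 (q - n)] := e4.symm.trans e3
        have e6 : pv A0 (q - n) ∣ n + (q - n) := ((e5.add_right (q - n)).dvd_iff dvd_rfl).2 e2
        rw [hqw] at e6
        have e7 := (Nat.prime_dvd_prime_iff_eq hpw hq).1 e6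
        omega
    refine ⟨hnI, hRo, ?_, ?_⟩
    · intro q hq h6 h8
      obtain ⟨g, i, he⟩ := hpos q hq h6 h8
      refine ⟨?_, ?_⟩
      · rw [he]
        exact AP_two _ _ (hap g i)
      · have hm0 := Hp_mem S T K g i
        have hm2 : Hp S T K g i + 2 ∈ U := by
          have h9 := Hpa_mem S T K g i 2 (by rw [hS]; exact Finset.mem_singleton_self _)
          have h10 : ((Hp S T K g i : ℤ) + 2).toNat = Hp S T K g i + 2 := by omega
          rwa [h10] at h9
        have a1 := hRo _ hm0 2 Nat.prime_two (by omega)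
        have a2 := hRo _ hm0 3 Nat.prime_three (by omega)
        have a3 := hRo _ hm2 3 Nat.prime_three (by omega)
        rw [← add_assoc, ← he] at a3
        rw [← he] at a1 a2
        exact mod_six q a1 a2 a3
    · set G := (univ : Finset (Fin T)).filter (fun g => ∃ i, (n + Hp S T K g i).Prime) with hG
      have hG2 : j + 1 ≤ G.card := by
        have : T ≤ 4 * G.card := by
          convert hcnt
        omega
      have i0 : Fin K := ⟨0, by omega⟩
      have hex : ∀ g : Fin T, ∃ i : Fin K, g ∈ G → (n + Hp S T K g i).Prime := by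
        intro g
        by_cases hg : g ∈ G
        · have e1 := hg
          rw [hG, mem_filter] at e1
          obtain ⟨i, hi⟩ := e1.2
          exact ⟨i, fun _ => hi⟩
        · exact ⟨i0, fun h => absurd h hg⟩
      choose jj hj using hex
      have hsub : G.image (fun g => n + Hp S T K g (jj g)) ⊆
          (Ioc n (n + A0)).filter Nat.Prime := by
        intro q hq
        rw [mem_image] at hq
        obtain ⟨g, hg, rfl⟩ := hq
        have e1 := Up_pos S T K _ (Hp_mem S T K g (jj g))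
        have e2 := hUA _ (Hp_mem S T K g (jj g))
        rw [mem_filter, mem_Ioc]
        exact ⟨⟨by omega, by omega⟩, hj g hg⟩
      have hcard : (G.image (fun g => n + Hp S T K g (jj g))).card = G.card := by
        apply card_image_of_injOn
        intro g _ g' _ h
        simp only at h
        have e1 : Hp S T K g (jj g) = Hp S T K g' (jj g') := by omega
        have e2 := @Hp_inj S T K (g, jj g) (g', jj g') e1
        exact (Prod.ext_iff.1 e2).1
      calc j + 1 ≤ G.card := hG2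
        _ = _ := hcard.symm
        _ ≤ _ := card_le_card hsub
  -- the size
  have hZc : c1 * c * (X * FF δ X ^ L) ≤ (Z.card : ℝ) := by
    have hW0 : (0 : ℝ) < Wm X := by exact_mod_cast Wm_pos X
    have e1 : (Z.card : ℝ) = ∑ b ∈ BX X U w b0, ((HSx δ X b (Hp S T K) U).card : ℝ) := by
      rw [hZ, card_biUnion]
      · push_cast
        rfl
      · intro b _ b' _ hne
        rw [Function.onFun, disjoint_left]
        intro n hn hn'
        unfold HSx HS at hn hn'
        rw [mem_filter, mem_filter] at hn hn'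
        have e3 := hn.1.1
        have e4 := hn'.1.1
        unfold SI at e3 e4
        rw [mem_filter] at e3 e4
        exact hne (e3.2.symm.trans e4.2)
    have hlow : ((BX X U w b0).card : ℝ) * (c * Om δ X L) ≤
        ∑ b ∈ BX X U w b0, ((HSx δ X b (Hp S T K) U).card : ℝ) := by
      rw [← nsmul_eq_mul]
      exact card_nsmul_le_sum _ _ _ hHS
    have hOm0 : 0 ≤ c * Om δ X L := by
      unfold Om
      positivity
    rw [e1]
    refine le_trans ?_ hlow
    refine le_trans (le_of_eq ?_) (mul_le_mul_of_nonneg_right hB hOm0)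
    unfold FF Om
    rw [mul_pow]
    field_simp
  -- the pigeonhole for the position of the first prime
  have hfirst : ∀ n ∈ Z, ∃ h ∈ range (A0 + 1), (n + h).Prime ∧ 1 ≤ h ∧
      ∀ q : ℕ, q.Prime → n < q → n + h ≤ q := by
    intro n hn
    obtain ⟨-, -, -, h9⟩ := hZp n hn
    have hne : ((Ioc n (n + A0)).filter Nat.Prime).Nonempty := by
      rw [← card_pos]
      omega
    set p := ((Ioc n (n + A0)).filter Nat.Prime).min' hne with hp
    have hpm := min'_mem _ hne
    rw [← hp, mem_filter, mem_Ioc] at hpm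
    refine ⟨p - n, ?_, ?_, by omega, ?_⟩
    · rw [mem_range]
      omega
    · have : n + (p - n) = p := by omega
      rw [this]
      exact hpm.2
    · intro q hq hnq
      have e1 : n + (p - n) = p := by omega
      rw [e1]
      by_cases hqA : q ≤ n + A0
      · exact min'_le _ q (mem_filter.2 ⟨mem_Ioc.2 ⟨hnq, hqA⟩, hq⟩)
      · omega
  have hpig : ∃ h ∈ range (A0 + 1), c1 * c / M * (X * FF δ X ^ L) ≤
      ((Z.filter (fun n => (n + h).Prime ∧ 1 ≤ h ∧ ∀ q : ℕ, q.Prime → n < q → n + h ≤ q)).card : ℝ) := by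
    by_contra hcon
    push Not at hcon
    have e1 : Z ⊆ (range (A0 + 1)).biUnion (fun h =>
        Z.filter (fun n => (n + h).Prime ∧ 1 ≤ h ∧ ∀ q : ℕ, q.Prime → n < q → n + h ≤ q)) := by
      intro n hn
      obtain ⟨h, hh1, hh2⟩ := hfirst n hn
      rw [mem_biUnion]
      exact ⟨h, hh1, mem_filter.2 ⟨hn, hh2⟩⟩
    have e2 : (Z.card : ℝ) ≤ ∑ h ∈ range (A0 + 1), ((Z.filter (fun n => (n + h).Prime ∧ 1 ≤ h ∧
        ∀ q : ℕ, q.Prime → n < q → n + h ≤ q)).card : ℝ) := by
      exact_mod_cast (card_le_card e1).trans card_biUnion_le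
    have e3 : ∑ h ∈ range (A0 + 1), ((Z.filter (fun n => (n + h).Prime ∧ 1 ≤ h ∧
        ∀ q : ℕ, q.Prime → n < q → n + h ≤ q)).card : ℝ) <
        ∑ _h ∈ range (A0 + 1), c1 * c / M * (X * FF δ X ^ L) :=
      sum_lt_sum_of_nonempty ⟨0, mem_range.2 (by omega)⟩ (fun h hh => hcon h hh)
    rw [sum_const, card_range, nsmul_eq_mul] at e3
    have e4 : ((A0 + 1 : ℕ) : ℝ) * (c1 * c / M * (X * FF δ X ^ L)) = c1 * c * (X * FF δ X ^ L) := by
      have : ((A0 + 1 : ℕ) : ℝ) = M := by
        rw [hM]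
        push_cast
        ring
      rw [this]
      field_simp
    rw [e4] at e3
    linarith
  obtain ⟨h0, hh0, hh1⟩ := hpig
  have hh0A : h0 ≤ A0 := by
    rw [mem_range] at hh0
    omega
  refine ⟨U, rfl, hUne, hUA, h0, hh0A, _, ?_, ?_, hh1⟩
  · intro n hn
    exact (hZp n (mem_filter.1 hn).1).1
  · intro n hn
    rw [mem_filter] at hn
    obtain ⟨hn1, hn2, hn3, hn4⟩ := hn
    obtain ⟨e1, e2, e3, e4⟩ := hZp n hn1
    refine ⟨e2, ⟨hn2, n + A0, by omega, by omega, ?_, ?_⟩, (e3 _ hn2 (by omega) (by omega)).2⟩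
    · have e5 : (Ioc n (n + A0)).filter Nat.Prime ⊆
          insert (n + h0) ((Ioc (n + h0) (n + A0)).filter Nat.Prime) := by
        intro q hq
        rw [mem_filter, mem_Ioc] at hq
        rw [mem_insert, mem_filter, mem_Ioc]
        have e6 := hn4 q hq.2 hq.1.1
        by_cases e7 : q = n + h0
        · exact Or.inl e7
        · exact Or.inr ⟨⟨by omega, hq.1.2⟩, hq.2⟩
      have e6 := (card_le_card e5).trans (card_insert_le _ _)
      omega
    · intro q hq hqp
      rw [mem_Icc] at hq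
      exact (e3 q hqp (by omega) (by omega)).1

end Pool.Agent.T6.H56.EA
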