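import Pool.Agent.T6.H56.EA.Kset

/-! Sums `k + m` where `6 k - 1` starts a cluster of primes and `m` runs over a given set. -/

set_option autoImplicit false
set_option maxHeartbeats 1000000

open Finset Filter Topology

namespace Pool.Agent.T6.H56.EA

open Pool.Agent.TH882.DD (FF Ro)

/-- the general statement -/
theorem sums0 (j : ℕ) : ∃ (r L A0 : ℕ) (C2 : ℝ), 0 < C2 ∧ ∀ E : ℝ, 0 < E → ∃ c : ℝ, 0 < c ∧
    ∃ X₀ : ℕ, ∀ X : ℕ, X₀ ≤ X → ∀ (S : Finset ℕ) (T q : ℕ), S ⊆ Icc 1 T → A0 ≤ T → 2 * T ≤ X →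
    (C2 * Real.log X) ^ L ≤ (S.card : ℝ) → 1 ≤ q → 112 * ((L * L : ℕ) : ℝ) * T ≤ E ^ q * S.card →
    ∃ I : Finset ℕ, I ⊆ Ioc X (3 * X) ∧
      (∀ n ∈ I, ∃ k m : ℕ, 1 ≤ k ∧ k + m = n ∧ m ∈ S ∧ Cl j r A0 (6 * k - 1)) ∧
      c * X ≤ (I.card : ℝ) * Real.log ((2 * q * (L * L) + 3 : ℕ) : ℝ) ^ (2 * (L * L)) := by
  classical
  obtain ⟨r, L, A0, δ, c0, hδ, hδ1, hc0, X1, h1⟩ := kset j
  obtain ⟨w0, δ', hδ', hδ1', C, hC, X2, hR⟩ := RD_upper L A0 δ hδ hδ1
  refine ⟨r, L, A0, 2 * C, by positivity, ?_⟩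
  intro E hE
  obtain ⟨D, hD, X3, h3⟩ := core L A0 δ c0 E hδ hδ1 hc0 hE
  refine ⟨6 / D, by positivity, max (max X1 X2) (max X3 (A0 + 7)), ?_⟩
  intro X hX S T q hS hAT hTX hSc hq hET
  have hX1 : X1 ≤ 6 * X := by omega
  have hX2 : X2 ≤ 6 * X := by omega
  have hX3 : X3 ≤ 6 * X := by omega
  have hX7 : A0 + 7 ≤ X := by omega
  have hXr : (7 : ℝ) ≤ X := by exact_mod_cast (by omega : 7 ≤ X)
  have hX0 : (0 : ℝ) < X := by linarith
  have hlog : 1 ≤ Real.log X := by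
    rw [Real.le_log_iff_exp_le hX0]
    have := Real.exp_one_lt_d9
    linarith
  obtain ⟨U, hUc, hUne, hUA, s, hs, K, hK, hKc⟩ := h1 (6 * X) hX1
  obtain ⟨hF0, hFl, -⟩ := hR (6 * X) hX2
  have hlog6 : Real.log ((6 * X : ℕ) : ℝ) ≤ 2 * Real.log X := by
    push_cast
    rw [Real.log_mul (by norm_num) hX0.ne']
    have : Real.log 6 ≤ Real.log X := Real.log_le_log (by norm_num) (by linarith)
    linarith
  have hlog60 : 0 < Real.log ((6 * X : ℕ) : ℝ) := by
    apply Real.log_pos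
    push_cast
    linarith
  have hFF : 1 ≤ 2 * C * Real.log X * FF δ (6 * X) := by
    rw [div_le_iff₀ hlog60] at hFl
    calc 1 ≤ C * FF δ (6 * X) * Real.log ((6 * X : ℕ) : ℝ) := hFl
      _ ≤ C * FF δ (6 * X) * (2 * Real.log X) := mul_le_mul_of_nonneg_left hlog6 (by positivity)
      _ = _ := by ring
  have hS1 : 1 ≤ (S.card : ℝ) * FF δ (6 * X) ^ L := by
    calc (1 : ℝ) ≤ (2 * C * Real.log X * FF δ (6 * X)) ^ L := one_le_pow₀ hFF
      _ = (2 * C * Real.log X) ^ L * FF δ (6 * X) ^ L := by rw [mul_pow]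
      _ ≤ _ := mul_le_mul_of_nonneg_right hSc (by positivity)
  have hmain := h3 (6 * X) hX3 U hUc hUne hUA s K (fun k hk => ⟨(hK k hk).1, (hK k hk).2.1,
    (hK k hk).2.2.1⟩) hKc S T q hS hAT hS1 hq hET
  refine ⟨(S ×ˢ K).image (fun z => z.1 + z.2), ?_, ?_, ?_⟩
  · intro n hn
    rw [mem_image] at hn
    obtain ⟨z, hz, rfl⟩ := hn
    rw [mem_product] at hz
    have h4 := mem_Icc.1 (hS hz.1)
    obtain ⟨h5, h6, -⟩ := hK _ hz.2
    rw [mem_Ico] at h6
    rw [mem_Ioc]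
    omega
  · intro n hn
    rw [mem_image] at hn
    obtain ⟨z, hz, rfl⟩ := hn
    rw [mem_product] at hz
    obtain ⟨-, -, -, h7, h8⟩ := hK _ hz.2
    exact ⟨z.2, z.1, h7, by omega, hz.1, h8⟩
  · rw [div_mul_eq_mul_div, div_le_iff₀ hD]
    push_cast at hmain ⊢
    linarith

open Classical in
/-- the number of elements of `M` in `[1, t]` -/
noncomputable def cnt (M : Set ℕ) (t : ℕ) : ℕ := ((Icc 1 t).filter (fun m => m ∈ M)).card

/-- the sums -/
def Sm (j r C A : ℕ) (M : Set ℕ) (X : ℕ) : Set ℕ :=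
  {n : ℕ | X < n ∧ n ≤ 3 * X ∧ ∃ k m : ℕ, 1 ≤ k ∧ 1 ≤ m ∧ k + m = n ∧ m ∈ M ∧
    (m : ℝ) ≤ Real.log X ^ A ∧ Cl j r C (6 * k - 1)}

lemma Sm_finite (j r C A : ℕ) (M : Set ℕ) (X : ℕ) : (Sm j r C A M X).Finite := by
  apply (finite_toSet (Icc 1 (3 * X))).subset
  rintro n ⟨h1, h2, -⟩
  rw [mem_coe, mem_Icc]
  omega

lemma Sm_mono (j r C : ℕ) {A A' : ℕ} (h : A ≤ A') (M : Set ℕ) (X : ℕ) (hX : 1 ≤ Real.log X) :
    Sm j r C A M X ⊆ Sm j r C A' M X := by
  rintro n ⟨h1, h2, k, m, h3, h4, h5, h6, h7, h8⟩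
  exact ⟨h1, h2, k, m, h3, h4, h5, h6, h7.trans (pow_le_pow_right₀ hX h), h8⟩

/-- growth of the parameters -/
lemma ev_par (L A0 B : ℕ) (C2 η : ℝ) (hC2 : 0 < C2) (hη : 0 < η) : ∀ᶠ X : ℕ in atTop,
    1 ≤ Real.log X ∧ ((A0 : ℝ) + 1 ≤ Real.log X) ∧
    (2 * (⌊Real.log X ^ (L + 1)⌋₊ : ℕ) ≤ X) ∧
    (C2 * Real.log X) ^ L * (Real.log (⌊Real.log X ^ (L + 1)⌋₊ : ℕ)) ^ B ≤
      η * (⌊Real.log X ^ (L + 1)⌋₊ : ℕ) := by
  have hlogt : Tendsto (fun x : ℕ => Real.log (x : ℝ)) atTop atTop :=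
    Real.tendsto_log_atTop.comp tendsto_natCast_atTop_atTop
  have e1 : ∀ᶠ y : ℝ in atTop, 2 * y ^ (L + 1) ≤ Real.exp y := by
    have h := (Real.isLittleO_pow_exp_atTop (n := L + 1)).bound (by norm_num : (0 : ℝ) < 1 / 2)
    filter_upwards [h, eventually_ge_atTop (0 : ℝ)] with y hy hy0
    rw [Real.norm_of_nonneg (by positivity), Real.norm_of_nonneg (Real.exp_pos _).le] at hy
    linarith
  have e2 : ∀ᶠ y : ℝ in atTop, 2 * C2 ^ L / η * ((L + 1 : ℕ) * Real.log y) ^ B ≤ y := by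
    have h := (isLittleO_log_rpow_atTop (r := 1 / ((B : ℝ) + 1)) (by positivity)).bound
      (by norm_num : (0 : ℝ) < 1)
    have h2 : Tendsto (fun y : ℝ => y ^ (1 / ((B : ℝ) + 1))) atTop atTop :=
      tendsto_rpow_atTop (by positivity)
    filter_upwards [h, h2.eventually_ge_atTop (2 * C2 ^ L / η * ((L + 1 : ℕ) : ℝ) ^ B),
      eventually_ge_atTop (1 : ℝ)] with y hy hy2 hy1
    have hl0 : 0 ≤ Real.log y := Real.log_nonneg hy1
    rw [Real.norm_of_nonneg hl0, Real.norm_of_nonneg (by positivity), one_mul] at hy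
    calc 2 * C2 ^ L / η * ((L + 1 : ℕ) * Real.log y) ^ B =
        (2 * C2 ^ L / η * ((L + 1 : ℕ) : ℝ) ^ B) * Real.log y ^ B := by
          rw [mul_pow]
          ring
      _ ≤ y ^ (1 / ((B : ℝ) + 1)) * (y ^ (1 / ((B : ℝ) + 1))) ^ B := by
          apply mul_le_mul hy2 (pow_le_pow_left₀ hl0 hy B) (by positivity) (by positivity)
      _ = (y ^ (1 / ((B : ℝ) + 1))) ^ (B + 1) := by
          rw [pow_succ]
          ring
      _ = y := by
          rw [← Real.rpow_natCast, ← Real.rpow_mul (by linarith)]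
          have : 1 / ((B : ℝ) + 1) * ((B + 1 : ℕ) : ℝ) = 1 := by
            push_cast
            field_simp
          rw [this, Real.rpow_one]
  filter_upwards [hlogt.eventually e1, hlogt.eventually e2, hlogt.eventually_ge_atTop 2,
    hlogt.eventually_ge_atTop ((A0 : ℝ) + 1), eventually_ge_atTop 1] with X h1 h2 h3 h4 h5
  have hX0 : (0 : ℝ) < X := by exact_mod_cast h5
  rw [Real.exp_log hX0] at h1
  set y : ℝ := Real.log X with hy
  set T : ℕ := ⌊y ^ (L + 1)⌋₊ with hT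
  have hyL : 2 ≤ y ^ (L + 1) := by
    calc (2 : ℝ) ≤ y := h3
      _ = y ^ 1 := (pow_one _).symm
      _ ≤ y ^ (L + 1) := pow_le_pow_right₀ (by linarith) (by omega)
  have hTle : (T : ℝ) ≤ y ^ (L + 1) := Nat.floor_le (by positivity)
  have hTge : y ^ (L + 1) / 2 ≤ T := by
    have := Nat.lt_floor_add_one (y ^ (L + 1))
    rw [← hT] at this
    linarith
  have hT1 : (1 : ℝ) ≤ T := by linarith
  refine ⟨by linarith, h4, ?_, ?_⟩
  · have : (2 : ℝ) * T ≤ X := by linarith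
    exact_mod_cast this
  · have hlT : Real.log T ≤ (L + 1 : ℕ) * Real.log y := by
      rw [← Real.log_pow]
      exact Real.log_le_log (by linarith) hTle
    have hlT0 : 0 ≤ Real.log T := Real.log_nonneg hT1
    calc (C2 * y) ^ L * Real.log T ^ B ≤ (C2 * y) ^ L * ((L + 1 : ℕ) * Real.log y) ^ B := by
          apply mul_le_mul_of_nonneg_left _ (by positivity)
          exact pow_le_pow_left₀ hlT0 hlT B
      _ = η / 2 * y ^ L * (2 * C2 ^ L / η * ((L + 1 : ℕ) * Real.log y) ^ B) := by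
          rw [mul_pow]
          field_simp
      _ ≤ η / 2 * y ^ L * y := mul_le_mul_of_nonneg_left h2 (by positivity)
      _ = η * (y ^ (L + 1) / 2) := by
          rw [pow_succ]
          ring
      _ ≤ η * T := mul_le_mul_of_nonneg_left hTge hη.le

/-- sets of positive lower density -/
theorem sums_pos (j : ℕ) : ∃ r C A : ℕ, ∀ (M : Set ℕ) (η : ℝ), 0 < η →
    (∀ᶠ t : ℕ in atTop, η * t ≤ (cnt M t : ℝ)) → ∃ c : ℝ, 0 < c ∧ ∀ᶠ X : ℕ in atTop,
    c * X ≤ ((Sm j r C A M X).ncard : ℝ) := by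
  classical
  obtain ⟨r, L, A0, C2, hC2, h⟩ := sums0 j
  refine ⟨r, A0, L + 1, fun M η hη hM => ?_⟩
  set E : ℝ := (112 * ((L * L : ℕ) : ℝ) + 1) / η with hE
  have hE0 : 0 < E := by rw [hE]; positivity
  obtain ⟨c, hc, X1, h1⟩ := h E hE0
  set W : ℝ := Real.log ((2 * 1 * (L * L) + 3 : ℕ) : ℝ) ^ (2 * (L * L)) with hW
  have hW0 : 0 < W := by
    rw [hW]
    have : 0 < Real.log ((2 * 1 * (L * L) + 3 : ℕ) : ℝ) := by
      apply Real.log_pos
      exact_mod_cast (by omega : 1 < 2 * 1 * (L * L) + 3)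
    positivity
  have hTt : Tendsto (fun X : ℕ => ⌊Real.log X ^ (L + 1)⌋₊) atTop atTop :=
    tendsto_nat_floor_atTop.comp ((tendsto_pow_atTop (by omega)).comp
      (Real.tendsto_log_atTop.comp tendsto_natCast_atTop_atTop))
  refine ⟨c / W, by positivity, ?_⟩
  filter_upwards [ev_par L A0 0 C2 η hC2 hη, hTt.eventually hM, eventually_ge_atTop X1] with
    X ⟨e1, e2, e3, e4⟩ e5 e6
  set T : ℕ := ⌊Real.log X ^ (L + 1)⌋₊ with hT
  have hTle : (T : ℝ) ≤ Real.log X ^ (L + 1) := Nat.floor_le (by positivity)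
  have hAT : A0 ≤ T := by
    apply Nat.le_floor
    calc (A0 : ℝ) ≤ Real.log X := by linarith
      _ = Real.log X ^ 1 := (pow_one _).symm
      _ ≤ _ := pow_le_pow_right₀ e1 (by omega)
  set S : Finset ℕ := (Icc 1 T).filter (fun m => m ∈ M) with hS
  have hSc : η * T ≤ (S.card : ℝ) := e5
  rw [pow_zero, mul_one] at e4
  obtain ⟨I, hI1, hI2, hI3⟩ := h1 X e6 S T 1 (filter_subset _ _) hAT e3 (e4.trans hSc) le_rfl (by
    rw [pow_one, hE, div_mul_eq_mul_div, le_div_iff₀ hη]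
    have hT0 : (0 : ℝ) ≤ T := Nat.cast_nonneg _
    calc 112 * ((L * L : ℕ) : ℝ) * T * η = 112 * ((L * L : ℕ) : ℝ) * (η * T) := by ring
      _ ≤ (112 * ((L * L : ℕ) : ℝ) + 1) * (η * T) := by
          apply mul_le_mul_of_nonneg_right _ (by positivity)
          linarith
      _ ≤ _ := mul_le_mul_of_nonneg_left hSc (by positivity))
  rw [← hW] at hI3
  rw [div_mul_eq_mul_div, div_le_iff₀ hW0]
  refine hI3.trans ?_
  apply mul_le_mul_of_nonneg_right _ hW0.le
  rw [← Set.ncard_coe_finset I]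
  apply Nat.cast_le.2
  apply Set.ncard_le_ncard _ (Sm_finite _ _ _ _ _ _)
  intro n hn
  obtain ⟨k, m, h2, h3, h4, h5⟩ := hI2 n (mem_coe.1 hn)
  have h6 := mem_Ioc.1 (hI1 (mem_coe.1 hn))
  rw [hS, mem_filter, mem_Icc] at h4
  refine ⟨h6.1, h6.2, k, m, h2, h4.1.1, h3, h4.2, ?_, h5⟩
  refine le_trans ?_ hTle
  exact_mod_cast h4.1.2

/-- sets which are not too sparse -/
theorem sums_log (j : ℕ) : ∃ r C A : ℕ, ∀ (M : Set ℕ) (B : ℕ),
    (∀ᶠ t : ℕ in atTop, (t : ℝ) / Real.log t ^ B ≤ (cnt M t : ℝ)) → ∃ c : ℝ, 0 < c ∧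
    ∀ᶠ X : ℕ in atTop, c * X / Real.log (Real.log (Real.log (Real.log X))) ^ A ≤
      ((Sm j r C A M X).ncard : ℝ) := by
  classical
  obtain ⟨r, L, A0, C2, hC2, h⟩ := sums0 j
  refine ⟨r, A0, 2 * (L * L) + (L + 1), fun M B hM => ?_⟩
  set Q0 : ℝ := 112 * ((L * L : ℕ) : ℝ) + 1 with hQ0
  have hQ01 : 1 ≤ Q0 := by
    rw [hQ0]
    have : (0 : ℝ) ≤ ((L * L : ℕ) : ℝ) := Nat.cast_nonneg _
    linarith
  set E : ℝ := Real.exp B * Q0 with hE
  have hE0 : 0 < E := by rw [hE]; positivity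
  obtain ⟨c, hc, X1, h1⟩ := h E hE0
  have hTt : Tendsto (fun X : ℕ => ⌊Real.log X ^ (L + 1)⌋₊) atTop atTop :=
    tendsto_nat_floor_atTop.comp ((tendsto_pow_atTop (by omega)).comp
      (Real.tendsto_log_atTop.comp tendsto_natCast_atTop_atTop))
  have hlogt : Tendsto (fun x : ℕ => Real.log (x : ℝ)) atTop atTop :=
    Real.tendsto_log_atTop.comp tendsto_natCast_atTop_atTop
  have hl1 := Real.tendsto_log_atTop
  have hl3 : Tendsto (fun y : ℝ => Real.log (Real.log y)) atTop atTop := hl1.comp hl1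
  have hl4 : Tendsto (fun y : ℝ => Real.log (Real.log (Real.log y))) atTop atTop := hl1.comp hl3
  refine ⟨c / 2 ^ (2 * (L * L)), by positivity, ?_⟩
  filter_upwards [ev_par L A0 B C2 1 hC2 one_pos, hTt.eventually hM, eventually_ge_atTop X1,
    (hl1.comp hlogt).eventually_ge_atTop ((L : ℝ) + 1),
    (hl3.comp hlogt).eventually_ge_atTop ((2 * (L * L) : ℕ) * 4 + 10 : ℝ),
    (hl4.comp hlogt).eventually_ge_atTop (1 : ℝ),
    hTt.eventually_ge_atTop 3] with
    X ⟨e1, e2, e3, e4⟩ e5 e6 e7 e8 e9 e10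
  simp only [Function.comp_apply] at e7 e8 e9
  set y : ℝ := Real.log X with hy
  set T : ℕ := ⌊y ^ (L + 1)⌋₊ with hT
  have hTle : (T : ℝ) ≤ y ^ (L + 1) := Nat.floor_le (by positivity)
  have hAT : A0 ≤ T := by
    apply Nat.le_floor
    calc (A0 : ℝ) ≤ y := by linarith
      _ = y ^ 1 := (pow_one _).symm
      _ ≤ _ := pow_le_pow_right₀ e1 (by omega)
  have hT3 : (3 : ℝ) ≤ T := by exact_mod_cast e10
  set S : Finset ℕ := (Icc 1 T).filter (fun m => m ∈ M) with hS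
  have hSc : (T : ℝ) / Real.log T ^ B ≤ (S.card : ℝ) := e5
  have hlT1 : 1 ≤ Real.log T := by
    rw [Real.le_log_iff_exp_le (by linarith)]
    have := Real.exp_one_lt_d9
    linarith
  have hlTB : 0 < Real.log T ^ B := by positivity
  have hSc2 : (T : ℝ) ≤ S.card * Real.log T ^ B := by
    rwa [div_le_iff₀ hlTB] at hSc
  have hlly : 1 ≤ Real.log y := by
    have : (0 : ℝ) ≤ L := Nat.cast_nonneg _
    linarith
  have hlT : Real.log T ≤ (L + 1 : ℕ) * Real.log y := by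
    rw [← Real.log_pow]
    exact Real.log_le_log (by linarith) hTle
  have hllT : Real.log (Real.log T) ≤ 2 * Real.log (Real.log y) := by
    calc Real.log (Real.log T) ≤ Real.log (Real.log y * Real.log y) := by
          apply Real.log_le_log (by linarith)
          refine hlT.trans ?_
          apply mul_le_mul_of_nonneg_right _ (by linarith)
          push_cast
          exact e7
      _ = 2 * Real.log (Real.log y) := by
          rw [Real.log_mul (by linarith) (by linarith)]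
          ring
  have hllT0 : 0 ≤ Real.log (Real.log T) := Real.log_nonneg hlT1
  obtain ⟨q, hq⟩ : ∃ q : ℕ, q = ⌈Real.log (Real.log T)⌉₊ + 1 := ⟨_, rfl⟩
  have hq1 : 1 ≤ q := by omega
  have hqge : Real.log (Real.log T) ≤ q := by
    have := Nat.le_ceil (Real.log (Real.log T))
    rw [hq]
    push_cast
    linarith
  have hqle : (q : ℝ) ≤ 2 * Real.log (Real.log y) + 2 := by
    have := Nat.ceil_lt_add_one hllT0
    rw [hq]
    push_cast
    linarith
  have hET : 112 * ((L * L : ℕ) : ℝ) * T ≤ E ^ q * S.card := by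
    have h2 : Real.log T ^ B ≤ Real.exp B ^ q := by
      calc Real.log T ^ B = Real.exp (B * Real.log (Real.log T)) := by
            rw [Real.exp_nat_mul, Real.exp_log (by linarith)]
        _ ≤ Real.exp (B * q) := by
            apply Real.exp_le_exp.mpr
            gcongr
        _ = Real.exp B ^ q := by
            rw [mul_comm, Real.exp_nat_mul]
    have h3 : 112 * ((L * L : ℕ) : ℝ) ≤ Q0 ^ q := by
      calc 112 * ((L * L : ℕ) : ℝ) ≤ Q0 := by rw [hQ0]; linarith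
        _ = Q0 ^ 1 := (pow_one _).symm
        _ ≤ Q0 ^ q := pow_le_pow_right₀ hQ01 hq1
    calc 112 * ((L * L : ℕ) : ℝ) * T ≤ Q0 ^ q * (S.card * Real.log T ^ B) := by
          apply mul_le_mul h3 hSc2 (by positivity) (by positivity)
      _ ≤ Q0 ^ q * (S.card * Real.exp B ^ q) := by gcongr
      _ = E ^ q * S.card := by
          rw [hE, mul_pow]
          ring
  have hSL : (C2 * y) ^ L ≤ (S.card : ℝ) := by
    have h2 : (C2 * y) ^ L * Real.log T ^ B ≤ S.card * Real.log T ^ B := by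
      rw [one_mul] at e4
      exact e4.trans hSc2
    exact le_of_mul_le_mul_right h2 hlTB
  obtain ⟨I, hI1, hI2, hI3⟩ := h1 X e6 S T q (filter_subset _ _) hAT e3 hSL hq1 hET
  -- the logarithm
  set l : ℝ := Real.log (Real.log (Real.log y)) with hl
  have hw : Real.log ((2 * q * (L * L) + 3 : ℕ) : ℝ) ≤ 2 * l := by
    have h2 : ((2 * q * (L * L) + 3 : ℕ) : ℝ) ≤ Real.log (Real.log y) * Real.log (Real.log y) := by
      have hLL : (0 : ℝ) ≤ (L : ℝ) * L := by positivity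
      push_cast at e8 ⊢
      have h5 : 2 * (q : ℝ) * (L * L) ≤ 2 * (2 * Real.log (Real.log y) + 2) * (L * L) := by gcongr
      nlinarith
    calc Real.log ((2 * q * (L * L) + 3 : ℕ) : ℝ) ≤
        Real.log (Real.log (Real.log y) * Real.log (Real.log y)) := by
          apply Real.log_le_log _ h2
          exact_mod_cast (by omega : 0 < 2 * q * (L * L) + 3)
      _ = 2 * l := by
          have h3 : Real.log (Real.log y) ≠ 0 := by
            intro h4
            rw [h4] at e8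
            have : (0 : ℝ) ≤ ((2 * (L * L) : ℕ) : ℝ) := Nat.cast_nonneg _
            linarith
          rw [Real.log_mul h3 h3, hl]
          ring
  have hw0 : 0 ≤ Real.log ((2 * q * (L * L) + 3 : ℕ) : ℝ) := by
    apply Real.log_nonneg
    exact_mod_cast (by omega : 1 ≤ 2 * q * (L * L) + 3)
  have hl1' : 1 ≤ l := e9
  rw [div_le_iff₀ (by positivity)]
  have h2 : c * X ≤ (I.card : ℝ) * (2 * l) ^ (2 * (L * L)) := by
    refine hI3.trans ?_
    apply mul_le_mul_of_nonneg_left _ (Nat.cast_nonneg _)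
    exact pow_le_pow_left₀ hw0 hw _
  have h3 : (I.card : ℝ) ≤ ((Sm j r A0 (2 * (L * L) + (L + 1)) M X).ncard : ℝ) := by
    rw [← Set.ncard_coe_finset I]
    apply Nat.cast_le.2
    apply Set.ncard_le_ncard _ (Sm_finite _ _ _ _ _ _)
    intro n hn
    obtain ⟨k, m, h2, h3, h4, h5⟩ := hI2 n (mem_coe.1 hn)
    have h6 := mem_Ioc.1 (hI1 (mem_coe.1 hn))
    rw [hS, mem_filter, mem_Icc] at h4
    refine ⟨h6.1, h6.2, k, m, h2, h4.1.1, h3, h4.2, ?_, h5⟩
    have h7 : (m : ℝ) ≤ T := by exact_mod_cast h4.1.2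
    exact h7.trans (hTle.trans (pow_le_pow_right₀ e1 (by omega)))
  calc c / 2 ^ (2 * (L * L)) * X = c * X / 2 ^ (2 * (L * L)) := by ring
    _ ≤ (I.card : ℝ) * (2 * l) ^ (2 * (L * L)) / 2 ^ (2 * (L * L)) :=
        div_le_div_of_nonneg_right h2 (by positivity)
    _ = (I.card : ℝ) * l ^ (2 * (L * L)) := by
        rw [mul_pow]
        field_simp
    _ ≤ (I.card : ℝ) * l ^ (2 * (L * L) + (L + 1)) := by
        apply mul_le_mul_of_nonneg_left _ (Nat.cast_nonneg _)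
        exact pow_le_pow_right₀ hl1' (by omega)
    _ ≤ _ := mul_le_mul_of_nonneg_right h3 (by positivity)

end Pool.Agent.T6.H56.EA
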